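import Pool.Agent.H252R2.CDOps

set_option autoImplicit false

/-! Noncommutative polynomials in `a` and `b`. -/

namespace Pool.Agent.H252R2.CDAb

open Pool.Agent.H252R2.CDOps

/-- noncommutative polynomials in two variables -/
abbrev AB : Type := FreeAlgebra ℤ Bool

/-- the variable `a` -/
noncomputable def va : AB := FreeAlgebra.ι ℤ false
/-- the variable `b` -/
noncomputable def vb : AB := FreeAlgebra.ι ℤ true
/-- `c = a + b` -/
noncomputable def vc : AB := va + vb
/-- `d = a b + b a` -/
noncomputable def vd : AB := va * vb + vb * va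
/-- `t = a - b` -/
noncomputable def vt : AB := va - vb

/-- the matrix homomorphism of the derivation `a ↦ b a`, `b ↦ a b` -/
noncomputable def phi : AB →ₐ[ℤ] Matrix (Fin 2) (Fin 2) AB :=
  FreeAlgebra.lift ℤ fun x => if x then !![vb, va * vb; 0, vb] else !![va, vb * va; 0, va]

/-- the derivation -/
noncomputable def der (x : AB) : AB := phi x 0 1

lemma phi_a : phi va = !![va, vb * va; 0, va] := by
  unfold phi va
  rw [FreeAlgebra.lift_ι_apply]
  rfl

lemma phi_b : phi vb = !![vb, va * vb; 0, vb] := by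
  unfold phi vb
  rw [FreeAlgebra.lift_ι_apply]
  rfl

lemma phi_tri (x : AB) : phi x 0 0 = x ∧ phi x 1 0 = 0 ∧ phi x 1 1 = x := by
  induction x using FreeAlgebra.induction with
  | grade0 r =>
    rw [AlgHom.commutes, Matrix.algebraMap_matrix_apply, Matrix.algebraMap_matrix_apply,
      Matrix.algebraMap_matrix_apply]
    simp
  | grade1 x =>
    cases x
    · have := phi_a
      unfold va at this
      rw [this]
      simp
    · have := phi_b
      unfold vb at this
      rw [this]
      simp
  | mul x y hx hy =>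
    rw [map_mul, Matrix.mul_apply, Matrix.mul_apply, Matrix.mul_apply, Fin.sum_univ_two,
      Fin.sum_univ_two, Fin.sum_univ_two, hx.1, hx.2.1, hx.2.2, hy.1, hy.2.1, hy.2.2]
    simp
  | add x y hx hy =>
    rw [map_add, Matrix.add_apply, Matrix.add_apply, Matrix.add_apply, hx.1, hx.2.1, hx.2.2,
      hy.1, hy.2.1, hy.2.2]
    simp

lemma der_add (x y : AB) : der (x + y) = der x + der y := by
  unfold der
  rw [map_add, Matrix.add_apply]

lemma der_zsmul (k : ℤ) (x : AB) : der (k • x) = k • der x := by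
  unfold der
  rw [map_zsmul, Matrix.smul_apply]

lemma der_mul (x y : AB) : der (x * y) = der x * y + x * der y := by
  unfold der
  rw [map_mul, Matrix.mul_apply, Fin.sum_univ_two, (phi_tri x).1, (phi_tri y).2.2]
  abel

lemma der_a : der va = vb * va := by
  unfold der
  rw [phi_a]
  rfl

lemma der_b : der vb = va * vb := by
  unfold der
  rw [phi_b]
  rfl

lemma der_neg (x : AB) : der (-x) = - der x := by
  have := der_zsmul (-1) x
  rwa [neg_one_zsmul, neg_one_zsmul] at this

lemma der_sub (x y : AB) : der (x - y) = der x - der y := by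
  rw [sub_eq_add_neg, der_add, der_neg, ← sub_eq_add_neg]

lemma der_one : der 1 = 0 := by
  have := der_mul 1 1
  rw [mul_one, mul_one, one_mul] at this
  exact (left_eq_add.1 this)

lemma der_zero : der 0 = 0 := by
  have := der_zsmul 0 0
  simpa using this

lemma der_sum {ι : Type*} (s : Finset ι) (f : ι → AB) : der (∑ i ∈ s, f i) = ∑ i ∈ s, der (f i) := by
  classical
  induction s using Finset.induction_on with
  | empty => rw [Finset.sum_empty, Finset.sum_empty, der_zero]
  | insert i s hi ih => rw [Finset.sum_insert hi, Finset.sum_insert hi, der_add, ih]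

lemma der_c : der vc = vd := by
  unfold vc vd
  rw [der_add, der_a, der_b]
  abel

lemma der_d : der vd = vc * vd := by
  unfold vd vc
  rw [der_add, der_mul, der_mul, der_a, der_b]
  noncomm_ring

lemma der_t : der vt = vb * vt - vt * vb := by
  unfold vt
  rw [der_sub, der_a, der_b]
  noncomm_ring

lemma der_tpow (m : ℕ) : der (vt ^ m) = vb * vt ^ m - vt ^ m * vb := by
  induction m with
  | zero => rw [pow_zero, der_one]; simp
  | succ m ih =>
    rw [pow_succ, der_mul, ih, der_t]
    noncomm_ring

/-- the operators `R_a`, `R_b`, `R_c` -/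
noncomputable def Rz (z x : AB) : AB := der x + x * z

lemma Rz_add (z x y : AB) : Rz z (x + y) = Rz z x + Rz z y := by
  unfold Rz
  rw [der_add, add_mul]; abel

lemma Rz_zsmul (z : AB) (k : ℤ) (x : AB) : Rz z (k • x) = k • Rz z x := by
  unfold Rz
  rw [der_zsmul, smul_mul_assoc, smul_add]

lemma Rz_sum {ι : Type*} (z : AB) (s : Finset ι) (f : ι → AB) :
    Rz z (∑ i ∈ s, f i) = ∑ i ∈ s, Rz z (f i) := by
  unfold Rz
  rw [der_sum, Finset.sum_mul, Finset.sum_add_distrib]

/-- the `ab`-index of the boundary of a simplex with `m + 1` vertices -/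
noncomputable def B : ℕ → AB
  | 0 => 1
  | (m + 1) => Rz vc (B m)

lemma B_zero : B 0 = 1 := rfl
lemma B_succ (m : ℕ) : B (m + 1) = Rz vc (B m) := rfl

/-- the contribution of a face with `k` vertices in a complex with facets with `n` vertices -/
noncomputable def e (n : ℕ) : ℕ → AB
  | 0 => vt ^ n
  | (k + 1) => B k * vb * vt ^ (n - (k + 1))

lemma Rb_e (n k : ℕ) (hk : k ≤ n) : Rz vb (e n k) = e (n + 1) (k + 1) := by
  match k with
  | 0 =>
    show der (vt ^ n) + vt ^ n * vb = 1 * vb * vt ^ (n + 1 - (0 + 1))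
    rw [der_tpow, zero_add, Nat.add_sub_cancel, one_mul]
    abel
  | k + 1 =>
    show der (B k * vb * vt ^ (n - (k + 1))) + B k * vb * vt ^ (n - (k + 1)) * vb =
      (der (B k) + B k * vc) * vb * vt ^ (n + 1 - (k + 1 + 1))
    have h1 : n + 1 - (k + 1 + 1) = n - (k + 1) := by omega
    rw [h1, der_mul, der_mul, der_tpow, der_b]
    unfold vc
    noncomm_ring

lemma Ra_e (n k : ℕ) (hk : k ≤ n) : Rz va (e n k) = e (n + 1) k + e (n + 1) (k + 1) := by
  have h1 : Rz va (e n k) = Rz vb (e n k) + e n k * vt := by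
    unfold Rz vt
    noncomm_ring
  rw [h1, Rb_e n k hk, add_comm]
  congr 1
  match k with
  | 0 => show vt ^ n * vt = vt ^ (n + 1); rw [pow_succ]
  | k + 1 =>
    show B k * vb * vt ^ (n - (k + 1)) * vt = B k * vb * vt ^ (n + 1 - (k + 1))
    have h2 : n + 1 - (k + 1) = n - (k + 1) + 1 := by omega
    rw [h2, pow_succ]
    noncomm_ring

open Polynomial

/-- the linear map from polynomials -/
noncomputable def L (n : ℕ) (P : ℤ[X]) : AB := ∑ k ∈ Finset.range (n + 1), P.coeff k • e n k

lemma L_add (n : ℕ) (P Q : ℤ[X]) : L n (P + Q) = L n P + L n Q := by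
  unfold L
  rw [← Finset.sum_add_distrib]
  exact Finset.sum_congr rfl fun k _ => by rw [coeff_add, add_smul]

lemma L_zsmul (n : ℕ) (k : ℤ) (P : ℤ[X]) : L n (k • P) = k • L n P := by
  unfold L
  rw [Finset.smul_sum]
  exact Finset.sum_congr rfl fun j _ => by rw [coeff_smul, smul_assoc]

lemma L_zero (n : ℕ) : L n 0 = 0 := by
  unfold L
  exact Finset.sum_eq_zero fun k _ => by rw [coeff_zero, zero_smul]

lemma L_sum {ι : Type*} (n : ℕ) (s : Finset ι) (P : ι → ℤ[X]) :
    L n (∑ i ∈ s, P i) = ∑ i ∈ s, L n (P i) := by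
  classical
  induction s using Finset.induction_on with
  | empty => rw [Finset.sum_empty, Finset.sum_empty, L_zero]
  | insert i s hi ih => rw [Finset.sum_insert hi, Finset.sum_insert hi, L_add, ih]

lemma Rb_L (n : ℕ) (P : ℤ[X]) : Rz vb (L n P) = L (n + 1) (X * P) := by
  unfold L
  rw [Rz_sum, Finset.sum_range_succ' _ (n + 1), coeff_X_mul_zero, zero_smul, add_zero]
  refine Finset.sum_congr rfl fun k hk => ?_
  rw [Rz_zsmul, Rb_e n k (by have := Finset.mem_range.1 hk; omega), coeff_X_mul]

lemma Ra_L (n : ℕ) (P : ℤ[X]) (hP : P.coeff (n + 1) = 0) :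
    Rz va (L n P) = L (n + 1) ((1 + X) * P) := by
  have h1 : Rz va (L n P) = L (n + 1) P + Rz vb (L n P) := by
    unfold L
    rw [Rz_sum, Rz_sum, Finset.sum_range_succ _ (n + 1), hP, zero_smul, add_zero,
      ← Finset.sum_add_distrib]
    refine Finset.sum_congr rfl fun k hk => ?_
    have hk' : k ≤ n := by have := Finset.mem_range.1 hk; omega
    rw [Rz_zsmul, Rz_zsmul, Ra_e n k hk', Rb_e n k hk', smul_add]
  rw [h1, Rb_L, ← L_add, add_mul, one_mul]

/-- the homogeneous sum -/
noncomputable def H (m : ℕ) : ℤ[X] := ∑ i ∈ Finset.range (m + 1), X ^ i * (1 + X) ^ (m - i)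

lemma H_zero : H 0 = 1 := by simp [H]

lemma H_succ (m : ℕ) : H (m + 1) = (1 + X) * H m + X ^ (m + 1) := by
  unfold H
  rw [Finset.sum_range_succ _ (m + 1), Nat.sub_self, pow_zero, mul_one, Finset.mul_sum]
  congr 1
  refine Finset.sum_congr rfl fun i hi => ?_
  have : m + 1 - i = m - i + 1 := by have := Finset.mem_range.1 hi; omega
  rw [this, pow_succ]; ring

lemma one_X_deg : (1 + X : ℤ[X]).natDegree ≤ 1 := by
  have := natDegree_X_add_C (1 : ℤ)
  rw [map_one, add_comm] at this
  exact this.le

lemma H_deg (m : ℕ) : (H m).natDegree ≤ m := by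
  unfold H
  refine natDegree_sum_le_of_forall_le _ _ fun i hi => ?_
  have hi' := Finset.mem_range.1 hi
  have h1 := one_X_deg
  have h2 : ((1 + X : ℤ[X]) ^ (m - i)).natDegree ≤ (m - i) * 1 := natDegree_pow_le_of_le _ h1
  have h3 : ((X : ℤ[X]) ^ i).natDegree ≤ i := natDegree_X_pow_le i
  have h4 := natDegree_mul_le (p := (X : ℤ[X]) ^ i) (q := (1 + X) ^ (m - i))
  omega

lemma H_eq (m : ℕ) : H m + X ^ (m + 1) = (1 + X) ^ (m + 1) := by
  induction m with
  | zero => rw [H_zero]; ring
  | succ m ih =>
    rw [H_succ]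
    have h1 : H m = (1 + X) ^ (m + 1) - X ^ (m + 1) := by rw [← ih]; ring
    rw [h1]
    ring

lemma H_coeff (m k : ℕ) (hk : k ≤ m) : (H m).coeff k = ((m + 1).choose k : ℤ) := by
  have h1 : H m = (1 + X) ^ (m + 1) - X ^ (m + 1) := by rw [← H_eq]; ring
  rw [h1, coeff_sub, coeff_one_add_X_pow, coeff_X_pow, if_neg (by omega), sub_zero]

lemma e_top (n : ℕ) : e (n + 1) (n + 1) = B n * vb := by
  show B n * vb * vt ^ (n + 1 - (n + 1)) = _
  rw [Nat.sub_self, pow_zero, mul_one]

lemma B_eq (m : ℕ) : B m = L m (H m) := by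
  induction m with
  | zero =>
    rw [B_zero, H_zero]
    unfold L
    rw [Finset.sum_range_one, coeff_one_zero, one_smul]
    show 1 = vt ^ 0
    rw [pow_zero]
  | succ m ih =>
    have h1 : Rz vc (B m) = Rz va (B m) + B m * vb := by
      unfold Rz vc
      noncomm_ring
    have h2 : B m * vb = L (m + 1) (X ^ (m + 1)) := by
      unfold L
      rw [Finset.sum_eq_single (m + 1)]
      · rw [coeff_X_pow_self, one_smul, e_top]
      · intro k _ hk
        rw [coeff_X_pow, if_neg hk, zero_smul]
      · intro h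
        exact absurd (Finset.mem_range.2 (by omega)) h
    have h3 : Rz va (B m) = L (m + 1) ((1 + X) * H m) := by
      rw [ih]
      exact Ra_L m _ (coeff_eq_zero_of_natDegree_lt (by have := H_deg m; omega))
    rw [B_succ, h1, h2, h3, ← L_add, ← H_succ]

lemma Rab (x : AB) : der (der x) + der x * vc + x * vd = Rz va (Rz vb x) := by
  unfold Rz vc vd
  rw [der_add, der_mul, der_b]
  noncomm_ring

/-- the values of the building blocks -/
lemma ev_Th (j m : ℕ) : ev vc vd (m + 2 * j) (Th j m) = L (m + 2 * j) ((X * (1 + X)) ^ j * H m) := by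
  have h1 : ∀ m, ev vc vd m (R^[m] one) = B m := by
    intro m
    induction m with
    | zero =>
      rw [ev_zero, Function.iterate_zero, id_eq, B_zero]
      show (if ([] : List Bool) = [] then (1 : ℤ) else 0) • (1 : AB) = 1
      rw [if_pos rfl, one_smul]
    | succ m ih =>
      rw [Function.iterate_succ_apply', ev_R vc vd der der_add der_zsmul der_mul der_c der_d, ih]
      rfl
  induction j with
  | zero =>
    rw [mul_zero, add_zero, pow_zero, one_mul, ← B_eq]
    exact h1 m
  | succ j ih =>
    have h2 : m + 2 * (j + 1) = m + 2 * j + 2 := by ring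
    have h3 : Th (j + 1) m = S (Th j m) := by
      unfold Th
      rw [Function.iterate_succ_apply']
    rw [h2, h3, ev_S vc vd der der_add der_zsmul der_mul der_c der_d, Rab, ih, Rb_L, Ra_L]
    · congr 1
      ring
    · refine coeff_eq_zero_of_natDegree_lt ?_
      have h4 : ((X * (1 + X) : ℤ[X]) ^ j).natDegree ≤ j * 2 := by
        refine natDegree_pow_le_of_le _ ?_
        have := natDegree_mul_le (p := (X : ℤ[X])) (q := (1 + X))
        have h5 := one_X_deg
        have h6 := natDegree_X_le (R := ℤ)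
        omega
      have h5 := natDegree_mul_le (p := (X * (1 + X) : ℤ[X]) ^ j) (q := H m)
      have h6 := natDegree_mul_le (p := (X : ℤ[X])) (q := (X * (1 + X)) ^ j * H m)
      have h7 := H_deg m
      have h8 := natDegree_X_le (R := ℤ)
      omega

end Pool.Agent.H252R2.CDAb
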