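import Pool.Agent.H252R2.CDNum

set_option autoImplicit false

/-! The ab-index of a simplicial complex. -/

namespace Pool.Agent.H252R2.CDFlag

open Pool.Agent.H252R2.CDOps Pool.Agent.H252R2.CDAb Pool.Agent.H252R2.CDNum Polynomial

section words

/-- the word `u_0 ... u_{n-1}` with `u_i = b` for `i ∈ S` and `u_i = x` otherwise -/
noncomputable def wd (x : AB) (n : ℕ) (S : Finset ℕ) : AB :=
  ((List.range n).map fun i => if i ∈ S then vb else x).prod

lemma wd_zero (x : AB) (S : Finset ℕ) : wd x 0 S = 1 := by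
  unfold wd
  simp

lemma wd_succ (x : AB) (n : ℕ) (S : Finset ℕ) :
    wd x (n + 1) S = wd x n S * (if n ∈ S then vb else x) := by
  unfold wd
  rw [List.range_succ, List.map_append, List.prod_append]
  simp

lemma wd_insert (x : AB) (n m : ℕ) (S : Finset ℕ) (h : n ≤ m) : wd x n (insert m S) = wd x n S := by
  induction n with
  | zero => rw [wd_zero, wd_zero]
  | succ n ih =>
    rw [wd_succ, wd_succ, ih (by omega)]
    congr 1
    have : n ∈ insert m S ↔ n ∈ S := by
      rw [Finset.mem_insert]
      constructor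
      · rintro (h1 | h1)
        · omega
        · exact h1
      · exact Or.inr
    simp only [this]

lemma wd_tail (x : AB) (n r : ℕ) (S : Finset ℕ) (h : ∀ i ∈ S, i < n) :
    wd x (n + r) S = wd x n S * x ^ r := by
  induction r with
  | zero => rw [add_zero, pow_zero, mul_one]
  | succ r ih =>
    rw [← add_assoc, wd_succ, ih, if_neg, pow_succ, mul_assoc]
    intro h1
    have := h _ h1
    omega

/-- coefficients of the expansion -/
def kap (n : ℕ) (T S : Finset ℕ) : ℤ :=
  ∏ i ∈ Finset.range n, (if i ∈ T then (if i ∈ S then 1 else 0) else (if i ∈ S then -1 else 1))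

lemma kap_insert (n : ℕ) (T S : Finset ℕ) : kap n T (insert n S) = kap n T S := by
  unfold kap
  refine Finset.prod_congr rfl fun i hi => ?_
  have hi' := Finset.mem_range.1 hi
  have : i ∈ insert n S ↔ i ∈ S := by
    rw [Finset.mem_insert]
    constructor
    · rintro (h1 | h1)
      · omega
      · exact h1
    · exact Or.inr
  simp only [this]

lemma wd_expand (n : ℕ) (T : Finset ℕ) :
    wd vt n T = ∑ S ∈ (Finset.range n).powerset, kap n T S • wd va n S := by
  induction n with
  | zero =>
    rw [Finset.range_zero, Finset.powerset_empty, Finset.sum_singleton, wd_zero, wd_zero]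
    unfold kap
    simp
  | succ n ih =>
    rw [Finset.range_add_one, Finset.sum_powerset_insert (Finset.notMem_range_self), wd_succ, ih,
      Finset.sum_mul, ← Finset.sum_add_distrib]
    refine Finset.sum_congr rfl fun S hS => ?_
    have hn : n ∉ S := fun h => Finset.notMem_range_self (Finset.mem_powerset.1 hS h)
    have e1 : ∀ S', kap (n + 1) T S' = kap n T S' *
        (if n ∈ T then (if n ∈ S' then 1 else 0) else (if n ∈ S' then -1 else 1)) := by
      intro S'
      unfold kap
      rw [Finset.prod_range_succ]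
    rw [e1, e1, kap_insert, if_neg hn, if_neg hn, if_pos (Finset.mem_insert_self _ _),
      if_pos (Finset.mem_insert_self _ _), wd_succ, wd_succ, wd_insert _ _ _ _ le_rfl, if_neg hn,
      if_pos (Finset.mem_insert_self _ _)]
    by_cases hT : n ∈ T
    · rw [if_pos hT, if_pos hT, if_pos hT, mul_zero, zero_smul, zero_add, mul_one, smul_mul_assoc]
    · rw [if_neg hT, if_neg hT, if_neg hT, mul_one, smul_mul_assoc]
      unfold vt
      rw [mul_sub, smul_sub, mul_neg_one, neg_smul, ← sub_eq_add_neg]

lemma kap_eq (n : ℕ) (T S : Finset ℕ) (hT : T ⊆ Finset.range n) (hS : S ⊆ Finset.range n) :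
    kap n T S = if T ⊆ S then (-1 : ℤ) ^ (S \ T).card else 0 := by
  by_cases h : T ⊆ S
  · rw [if_pos h]
    unfold kap
    have e1 : ∀ i ∈ Finset.range n, (if i ∈ T then (if i ∈ S then (1 : ℤ) else 0)
        else (if i ∈ S then -1 else 1)) = if i ∈ S \ T then -1 else 1 := by
      intro i _
      by_cases h1 : i ∈ T
      · rw [if_pos h1, if_pos (h h1), if_neg]
        rw [Finset.mem_sdiff]
        exact fun h2 => h2.2 h1
      · rw [if_neg h1]
        by_cases h2 : i ∈ S
        · rw [if_pos h2, if_pos (Finset.mem_sdiff.2 ⟨h2, h1⟩)]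
        · rw [if_neg h2, if_neg fun h3 => h2 (Finset.mem_sdiff.1 h3).1]
    rw [Finset.prod_congr rfl e1, Finset.prod_ite, Finset.prod_const, Finset.prod_const_one, mul_one]
    congr 2
    ext i
    rw [Finset.mem_filter]
    exact ⟨fun h2 => h2.2, fun h2 => ⟨hS (Finset.mem_sdiff.1 h2).1, h2⟩⟩
  · rw [if_neg h]
    obtain ⟨i, h1, h2⟩ := Finset.not_subset.1 h
    unfold kap
    refine Finset.prod_eq_zero (hT h1) ?_
    rw [if_pos h1, if_neg h2]

/-- flag h-vector to flag f-vector -/
lemma flag_expand (n : ℕ) (f : Finset ℕ → ℤ) :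
    ∑ S ∈ (Finset.range n).powerset,
      (∑ T ∈ S.powerset, (-1 : ℤ) ^ (S \ T).card * f T) • wd va n S =
    ∑ T ∈ (Finset.range n).powerset, f T • wd vt n T := by
  have h1 : ∀ S ∈ (Finset.range n).powerset,
      (∑ T ∈ S.powerset, (-1 : ℤ) ^ (S \ T).card * f T) • wd va n S =
      ∑ T ∈ (Finset.range n).powerset, f T • (kap n T S • wd va n S) := by
    intro S hS
    rw [Finset.mem_powerset] at hS
    rw [Finset.sum_smul]
    have h2 : S.powerset ⊆ (Finset.range n).powerset := Finset.powerset_mono.2 hS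
    rw [← Finset.sum_subset h2]
    · refine Finset.sum_congr rfl fun T hT => ?_
      rw [Finset.mem_powerset] at hT
      rw [kap_eq n T S (hT.trans hS) hS, if_pos hT, mul_comm, mul_smul]
    · intro T hT hT2
      rw [Finset.mem_powerset] at hT hT2
      rw [kap_eq n T S hT hS, if_neg hT2, zero_smul, smul_zero]
  rw [Finset.sum_congr rfl h1, Finset.sum_comm]
  refine Finset.sum_congr rfl fun T _ => ?_
  rw [wd_expand, Finset.smul_sum]

end words

section chains
variable {V : Type} [DecidableEq V]

/-- the dimensions of the members of a family -/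
def dims (C : Finset (Finset V)) : Finset ℕ := C.image fun F => F.card - 1

open Classical in
/-- the chains in a family -/
noncomputable def chs (K : Finset (Finset V)) : Finset (Finset (Finset V)) :=
  K.powerset.filter fun C => IsChain (· ⊆ ·) (C : Set (Finset V))

lemma mem_chs (K C : Finset (Finset V)) :
    C ∈ chs K ↔ C ⊆ K ∧ IsChain (· ⊆ ·) (C : Set (Finset V)) := by
  simp only [chs, Finset.mem_filter, Finset.mem_powerset]

/-- the members of the family strictly below `F` -/
def below (K : Finset (Finset V)) (F : Finset V) : Finset (Finset V) := K.filter fun G => G ⊂ F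

lemma mem_below (K : Finset (Finset V)) (F G : Finset V) : G ∈ below K F ↔ G ∈ K ∧ G ⊂ F := by
  unfold below
  rw [Finset.mem_filter]

lemma chain_sup (C : Finset (Finset V)) (hC : IsChain (· ⊆ ·) (C : Set (Finset V)))
    (hne : C.Nonempty) : C.sup id ∈ C := by
  induction C using Finset.induction_on with
  | empty => exact absurd hne Finset.not_nonempty_empty
  | insert F C hF ih =>
    rw [Finset.sup_insert]
    rcases Finset.eq_empty_or_nonempty C with h | h
    · subst h
      rw [Finset.sup_empty]
      simp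
    · have h1 := ih (hC.mono (by simp)) h
      have h2 : C.sup id ∈ insert F C := Finset.mem_insert_of_mem h1
      rcases hC.total (Finset.mem_coe.2 (Finset.mem_insert_self F C)) (Finset.mem_coe.2 h2) with
        h3 | h3
      · have : id F ⊔ C.sup id = C.sup id := sup_eq_right.2 h3
        rw [this]; exact h2
      · have : id F ⊔ C.sup id = F := sup_eq_left.2 h3
        rw [this]; exact Finset.mem_insert_self _ _

lemma dims_insert (C : Finset (Finset V)) (F : Finset V) :
    dims (insert F C) = insert (F.card - 1) (dims C) := by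
  unfold dims
  rw [Finset.image_insert]

/-- weight of a chain in a complex of dimension `n - 1` -/
noncomputable def wt (n : ℕ) (K : Finset (Finset V)) : AB := ∑ C ∈ chs K, wd vt n (dims C)

lemma wt_rec (n : ℕ) (K : Finset (Finset V)) (hne : ∀ F ∈ K, F.Nonempty)
    (hcard : ∀ F ∈ K, F.card ≤ n) :
    wt n K = vt ^ n + ∑ F ∈ K, wt (F.card - 1) (below K F) * vb * vt ^ (n - F.card) := by
  classical
  unfold wt
  have h1 : ∅ ∈ chs K := (mem_chs K ∅).2 ⟨Finset.empty_subset _, by simp [IsChain, Set.Pairwise]⟩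
  rw [← Finset.add_sum_erase _ _ h1]
  congr 1
  · have : dims (∅ : Finset (Finset V)) = ∅ := Finset.image_empty _
    rw [this]
    have h2 := wd_tail vt 0 n ∅ (by simp)
    rw [zero_add, wd_zero, one_mul] at h2
    exact h2
  · have h2 : ∀ C ∈ (chs K).erase ∅, C.sup id ∈ K := by
      intro C hC
      obtain ⟨h3, h4⟩ := Finset.mem_erase.1 hC
      obtain ⟨h5, h6⟩ := (mem_chs K C).1 h4
      exact h5 (chain_sup C h6 (Finset.nonempty_iff_ne_empty.2 h3))
    rw [← Finset.sum_fiberwise_of_maps_to h2]
    refine Finset.sum_congr rfl fun F hF => ?_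
    rw [Finset.sum_mul, Finset.sum_mul]
    symm
    have hFn : ∀ C ∈ chs (below K F), F ∉ C := by
      intro C hC h3
      have := ((mem_chs _ C).1 hC).1 h3
      exact ((mem_below K F F).1 this).2.ne rfl
    refine Finset.sum_bij' (fun C _ => insert F C) (fun C _ => C.erase F) ?_ ?_ ?_ ?_ ?_
    · intro C hC
      obtain ⟨h3, h4⟩ := (mem_chs _ C).1 hC
      have h5 : ∀ G ∈ C, G ⊆ F := fun G hG => ((mem_below K F G).1 (h3 hG)).2.subset
      rw [Finset.mem_filter, Finset.mem_erase, mem_chs]
      refine ⟨⟨Finset.insert_ne_empty _ _, ?_, ?_⟩, ?_⟩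
      · refine Finset.insert_subset hF fun G hG => ((mem_below K F G).1 (h3 hG)).1
      · rw [Finset.coe_insert]
        exact h4.insert fun G hG _ => Or.inr (h5 G hG)
      · rw [Finset.sup_insert]
        exact sup_eq_left.2 (Finset.sup_le h5)
    · intro C hC
      rw [Finset.mem_filter, Finset.mem_erase, mem_chs] at hC
      obtain ⟨⟨h3, h4, h5⟩, h6⟩ := hC
      rw [mem_chs]
      refine ⟨fun G hG => ?_, h5.mono (by simp)⟩
      obtain ⟨h7, h8⟩ := Finset.mem_erase.1 hG
      rw [mem_below]
      refine ⟨h4 h8, ?_⟩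
      have h9 : G ⊆ F := by
        rw [← h6]
        exact Finset.le_sup (f := id) h8
      exact lt_of_le_of_ne h9 h7
    · intro C hC
      exact Finset.erase_insert (hFn C hC)
    · intro C hC
      rw [Finset.mem_filter, Finset.mem_erase, mem_chs] at hC
      obtain ⟨⟨h3, h4, h5⟩, h6⟩ := hC
      refine Finset.insert_erase ?_
      rw [← h6]
      exact chain_sup C h5 (Finset.nonempty_iff_ne_empty.2 h3)
    · intro C hC
      obtain ⟨h3, h4⟩ := (mem_chs _ C).1 hC
      have hF1 : 1 ≤ F.card := Finset.card_pos.2 (hne F hF)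
      have hF2 := hcard F hF
      have h5 : ∀ i ∈ dims C, i < F.card - 1 := by
        intro i hi
        obtain ⟨G, hG, rfl⟩ := Finset.mem_image.1 hi
        have h6 := (mem_below K F G).1 (h3 hG)
        have h7 := Finset.card_lt_card h6.2
        have h8 := Finset.card_pos.2 (hne G h6.1)
        omega
      have h6 : n = (F.card - 1 + 1) + (n - F.card) := by omega
      have h7 : ∀ i ∈ insert (F.card - 1) (dims C), i < F.card - 1 + 1 := by
        intro i hi
        rcases Finset.mem_insert.1 hi with h8 | h8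
        · omega
        · have := h5 i h8
          omega
      rw [dims_insert]
      conv_rhs => rw [h6]
      rw [wd_tail _ _ _ _ h7, wd_succ, wd_insert _ _ _ _ le_rfl,
        if_pos (Finset.mem_insert_self _ _)]

/-- nonempty proper subsets -/
def pr (F : Finset V) : Finset (Finset V) := F.powerset.filter fun G => G.Nonempty ∧ G ⊂ F

lemma mem_pr (F G : Finset V) : G ∈ pr F ↔ G.Nonempty ∧ G ⊂ F := by
  unfold pr
  rw [Finset.mem_filter, Finset.mem_powerset]
  exact ⟨fun h => h.2, fun h => ⟨h.2.subset, h⟩⟩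

/-- grouping the faces by cardinality -/
lemma group (K : Finset (Finset V)) (n : ℕ) (hcard : ∀ F ∈ K, F.card ≤ n) (g : ℕ → AB) :
    ∑ F ∈ K, g F.card =
      ∑ k ∈ Finset.range (n + 1), ((K.filter fun F => F.card = k).card : ℤ) • g k := by
  have h1 : ∀ F ∈ K, F.card ∈ Finset.range (n + 1) := fun F hF =>
    Finset.mem_range.2 (by have := hcard F hF; omega)
  rw [← Finset.sum_fiberwise_of_maps_to h1]
  refine Finset.sum_congr rfl fun k _ => ?_
  have h2 : ∀ F ∈ K.filter (fun F => F.card = k), g F.card = g k := by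
    intro F hF
    rw [(Finset.mem_filter.1 hF).2]
  rw [Finset.sum_congr rfl h2, Finset.sum_const]
  exact (natCast_zsmul _ _).symm

lemma wt_pr : ∀ (m : ℕ) (F : Finset V), F.card = m + 1 → wt m (pr F) = B m := by
  intro m
  induction m using Nat.strong_induction_on with
  | _ m ih =>
    intro F hF
    have hne : ∀ G ∈ pr F, G.Nonempty := fun G hG => ((mem_pr F G).1 hG).1
    have hlt : ∀ G ∈ pr F, G.card < m + 1 := fun G hG => by
      have := Finset.card_lt_card ((mem_pr F G).1 hG).2
      omega
    rw [wt_rec m (pr F) hne (fun G hG => by have := hlt G hG; omega)]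
    have h1 : ∀ G ∈ pr F, wt (G.card - 1) (below (pr F) G) * vb * vt ^ (m - G.card) =
        e m G.card := by
      intro G hG
      have h2 : below (pr F) G = pr G := by
        ext J
        rw [mem_below, mem_pr, mem_pr]
        constructor
        · rintro ⟨⟨h3, _⟩, h4⟩
          exact ⟨h3, h4⟩
        · rintro ⟨h3, h4⟩
          exact ⟨⟨h3, h4.trans ((mem_pr F G).1 hG).2⟩, h4⟩
      have h3 := Finset.card_pos.2 (hne G hG)
      have h4 := hlt G hG
      obtain ⟨k, hk⟩ : ∃ k, G.card = k + 1 := ⟨G.card - 1, by omega⟩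
      rw [h2, hk, Nat.add_sub_cancel, ih k (by omega) G hk]
      rfl
    rw [Finset.sum_congr rfl h1, group (pr F) m (fun G hG => by have := hlt G hG; omega)
      (fun k => e m k), B_eq]
    unfold L
    rw [Finset.sum_range_succ', Finset.sum_range_succ' _ m]
    have h2 : ((pr F).filter fun G => G.card = 0).card = 0 := by
      rw [Finset.card_eq_zero, Finset.filter_eq_empty_iff]
      intro G hG h3
      have := Finset.card_pos.2 (hne G hG)
      omega
    rw [h2, H_coeff m 0 (Nat.zero_le _), Nat.choose_zero_right]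
    have h3 : e m 0 = vt ^ m := rfl
    rw [h3, Nat.cast_zero, zero_smul, add_zero, Nat.cast_one, one_smul, add_comm]
    congr 1
    refine Finset.sum_congr rfl fun k hk => ?_
    have hk' := Finset.mem_range.1 hk
    rw [H_coeff m (k + 1) (by omega)]
    congr 2
    have h4 : (pr F).filter (fun G => G.card = k + 1) = F.powersetCard (k + 1) := by
      ext G
      rw [Finset.mem_filter, mem_pr, Finset.mem_powersetCard]
      constructor
      · rintro ⟨⟨_, h5⟩, h6⟩
        exact ⟨h5.subset, h6⟩
      · rintro ⟨h5, h6⟩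
        refine ⟨⟨Finset.card_pos.1 (by omega), lt_of_le_of_ne h5 ?_⟩, h6⟩
        rintro rfl
        omega
    rw [h4, Finset.card_powersetCard, hF]

/-- the ab-index from the face numbers -/
theorem wt_faces (n : ℕ) (K : Finset (Finset V)) (h0 : ∅ ∈ K)
    (hdown : ∀ F ∈ K, ∀ G, G ⊆ F → G ∈ K) (hcard : ∀ F ∈ K, F.card ≤ n) :
    wt n (K.filter fun F => F.Nonempty) =
      L n (fp n fun k => ((K.filter fun F => F.card = k).card : ℤ)) := by
  have hne : ∀ G ∈ K.filter (fun F => F.Nonempty), G.Nonempty := fun G hG =>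
    (Finset.mem_filter.1 hG).2
  have hc : ∀ G ∈ K.filter (fun F => F.Nonempty), G.card ≤ n := fun G hG =>
    hcard G (Finset.mem_filter.1 hG).1
  rw [wt_rec n _ hne hc]
  have h1 : ∀ G ∈ K.filter (fun F => F.Nonempty),
      wt (G.card - 1) (below (K.filter fun F => F.Nonempty) G) * vb * vt ^ (n - G.card) =
        e n G.card := by
    intro G hG
    have hG' := Finset.mem_filter.1 hG
    have h2 : below (K.filter fun F => F.Nonempty) G = pr G := by
      ext J
      rw [mem_below, Finset.mem_filter, mem_pr]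
      constructor
      · rintro ⟨⟨_, h3⟩, h4⟩
        exact ⟨h3, h4⟩
      · rintro ⟨h3, h4⟩
        exact ⟨⟨hdown G hG'.1 J h4.subset, h3⟩, h4⟩
    have h3 := Finset.card_pos.2 hG'.2
    obtain ⟨k, hk⟩ : ∃ k, G.card = k + 1 := ⟨G.card - 1, by omega⟩
    rw [h2, hk, Nat.add_sub_cancel, wt_pr k G hk]
    rfl
  rw [Finset.sum_congr rfl h1, group _ n hc (fun k => e n k)]
  unfold L fp
  rw [Finset.sum_range_succ', Finset.sum_range_succ' _ n]
  have hfc : ∀ k, k ≤ n → (∑ j ∈ Finset.range (n + 1),
      ((K.filter fun F => F.card = j).card : ℤ) • (X : ℤ[X]) ^ j).coeff k =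
      ((K.filter fun F => F.card = k).card : ℤ) := by
    intro k hk
    rw [finsetSum_coeff, Finset.sum_eq_single k]
    · rw [coeff_smul, coeff_X_pow_self, smul_eq_mul, mul_one]
    · intro j _ hj
      rw [coeff_smul, coeff_X_pow, if_neg (Ne.symm hj), smul_zero]
    · intro h
      exact absurd (Finset.mem_range.2 (by omega)) h
  rw [hfc 0 (Nat.zero_le _)]
  have h2 : (K.filter (fun F => F.Nonempty)).filter (fun F => F.card = 0) = ∅ := by
    rw [Finset.filter_eq_empty_iff]
    intro G hG h3
    have := Finset.card_pos.2 (hne G hG)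
    omega
  have h3 : K.filter (fun F => F.card = 0) = {∅} := by
    ext G
    rw [Finset.mem_filter, Finset.mem_singleton, Finset.card_eq_zero]
    exact ⟨fun h => h.2, fun h => ⟨h ▸ h0, h⟩⟩
  have h4 : e n 0 = vt ^ n := rfl
  rw [h2, h3, Finset.card_empty, Finset.card_singleton, h4, Nat.cast_zero, zero_smul, add_zero,
    Nat.cast_one, one_smul, add_comm]
  congr 1
  refine Finset.sum_congr rfl fun k hk => ?_
  have hk' := Finset.mem_range.1 hk
  rw [hfc (k + 1) (by omega)]
  congr 3
  ext G
  rw [Finset.mem_filter, Finset.mem_filter, Finset.mem_filter]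
  constructor
  · rintro ⟨⟨h5, _⟩, h6⟩
    exact ⟨h5, h6⟩
  · rintro ⟨h5, h6⟩
    exact ⟨⟨h5, Finset.card_pos.1 (by omega)⟩, h6⟩

open Classical in
/-- number of chains of nonempty faces with dimension set `S` -/
noncomputable def flagf (K : Finset (Finset V)) (S : Finset ℕ) : ℤ :=
  ((K.powerset.filter fun C : Finset (Finset V) => (∀ F ∈ C, F.Nonempty) ∧
    IsChain (· ⊆ ·) (C : Set (Finset V)) ∧ dims C = S).card : ℤ)

lemma sum_flagf (n : ℕ) (K : Finset (Finset V)) (hcard : ∀ F ∈ K, F.card ≤ n) :
    ∑ T ∈ (Finset.range n).powerset, flagf K T • wd vt n T = wt n (K.filter fun F => F.Nonempty) := by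
  classical
  unfold wt
  have h1 : ∀ C ∈ chs (K.filter fun F => F.Nonempty), dims C ∈ (Finset.range n).powerset := by
    intro C hC
    rw [Finset.mem_powerset]
    intro i hi
    obtain ⟨G, hG, rfl⟩ := Finset.mem_image.1 hi
    have h2 := Finset.mem_filter.1 (((mem_chs _ C).1 hC).1 hG)
    have h3 := hcard G h2.1
    have h4 := Finset.card_pos.2 h2.2
    rw [Finset.mem_range]
    omega
  rw [← Finset.sum_fiberwise_of_maps_to h1]
  refine Finset.sum_congr rfl fun T _ => ?_
  have h2 : ∀ C ∈ (chs (K.filter fun F => F.Nonempty)).filter (fun C => dims C = T),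
      wd vt n (dims C) = wd vt n T := by
    intro C hC
    rw [(Finset.mem_filter.1 hC).2]
  rw [Finset.sum_congr rfl h2, Finset.sum_const, ← natCast_zsmul]
  unfold flagf
  congr 1
  rw [Nat.cast_inj]
  congr 1
  ext C
  rw [Finset.mem_filter, Finset.mem_filter, mem_chs, Finset.mem_powerset]
  constructor
  · rintro ⟨h3, h4, h5, h6⟩
    exact ⟨⟨fun F hF => Finset.mem_filter.2 ⟨h3 hF, h4 F hF⟩, h5⟩, h6⟩
  · rintro ⟨⟨h3, h5⟩, h6⟩
    exact ⟨fun F hF => (Finset.mem_filter.1 (h3 hF)).1,
      fun F hF => (Finset.mem_filter.1 (h3 hF)).2, h5, h6⟩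

/-- the flag h-vector -/
noncomputable def flagh (K : Finset (Finset V)) (S : Finset ℕ) : ℤ :=
  ∑ T ∈ S.powerset, (-1 : ℤ) ^ (S \ T).card * flagf K T

/-- the ab-index -/
noncomputable def abIndex (n : ℕ) (K : Finset (Finset V)) : AB :=
  ∑ S ∈ (Finset.range n).powerset, flagh K S • wd va n S

theorem abIndex_eq (n : ℕ) (K : Finset (Finset V)) (h0 : ∅ ∈ K)
    (hdown : ∀ F ∈ K, ∀ G, G ⊆ F → G ∈ K) (hcard : ∀ F ∈ K, F.card ≤ n) :
    abIndex n K = L n (fp n fun k => ((K.filter fun F => F.card = k).card : ℤ)) := by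
  unfold abIndex flagh
  rw [flag_expand, sum_flagf n K hcard, wt_faces n K h0 hdown hcard]

end chains

end Pool.Agent.H252R2.CDFlag
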