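import Pool.Agent.H252R2.CDAb

set_option autoImplicit false

/-! From face numbers to the cd-index. -/

namespace Pool.Agent.H252R2.CDNum

open Pool.Agent.H252R2.CDOps Pool.Agent.H252R2.CDAb Polynomial

/-- the h-numbers; `f j` is the number of faces with `j` vertices -/
def hn (d : ℕ) (f : ℕ → ℤ) (s : ℕ) : ℤ :=
  ∑ j ∈ Finset.range (s + 1), (-1 : ℤ) ^ (s - j) * (((d - j).choose (s - j) : ℕ) : ℤ) * f j

/-- the f-polynomial -/
noncomputable def fp (d : ℕ) (f : ℕ → ℤ) : ℤ[X] := ∑ j ∈ Finset.range (d + 1), f j • X ^ j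

lemma fp_eq (d : ℕ) (f : ℕ → ℤ) :
    fp d f = ∑ s ∈ Finset.range (d + 1), hn d f s • (X ^ s * (1 + X) ^ (d - s)) := by
  have h1 : ∀ s ∈ Finset.range (d + 1), hn d f s • (X ^ s * (1 + X) ^ (d - s) : ℤ[X]) =
      ∑ j ∈ Finset.range (s + 1), f j • (X ^ j * ((-X) ^ (s - j) * (1 + X) ^ (d - j - (s - j)) *
        (((d - j).choose (s - j) : ℕ) : ℤ[X]))) := by
    intro s hs
    unfold hn
    rw [Finset.sum_smul]
    refine Finset.sum_congr rfl fun j hj => ?_
    have hj' := Finset.mem_range.1 hj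
    have hs' := Finset.mem_range.1 hs
    have e1 : d - j - (s - j) = d - s := by omega
    have e2 : (X : ℤ[X]) ^ s = X ^ j * X ^ (s - j) := by rw [← pow_add]; congr 1; omega
    rw [e1, e2, neg_pow (X : ℤ[X]), zsmul_eq_mul, zsmul_eq_mul]
    push_cast
    ring
  rw [Finset.sum_congr rfl h1]
  rw [Finset.sum_comm' (s' := fun j => Finset.Icc j d) (t' := Finset.range (d + 1)) (by
    intro x y
    simp only [Finset.mem_range, Finset.mem_Icc]
    omega)]
  unfold fp
  refine Finset.sum_congr rfl fun j hj => ?_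
  have hj' := Finset.mem_range.1 hj
  rw [← Finset.smul_sum, ← Finset.mul_sum]
  have h2 : ∑ s ∈ Finset.Icc j d, ((-X) ^ (s - j) * (1 + X) ^ (d - j - (s - j)) *
        (((d - j).choose (s - j) : ℕ) : ℤ[X])) = 1 := by
    have h3 := add_pow (-X : ℤ[X]) (1 + X) (d - j)
    have h4 : (-X + (1 + X) : ℤ[X]) = 1 := by ring
    rw [h4, one_pow] at h3
    refine Eq.trans ?_ h3.symm
    have h5 : Finset.Icc j d = Finset.Ico j (d + 1) := by
      ext x
      simp only [Finset.mem_Icc, Finset.mem_Ico]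
      omega
    rw [h5, Finset.sum_Ico_eq_sum_range]
    have h6 : d + 1 - j = d - j + 1 := by omega
    rw [h6]
    refine Finset.sum_congr rfl fun r _ => ?_
    rw [Nat.add_sub_cancel_left]
  rw [h2, mul_one]

/-- Dehn-Sommerville -/
lemma hn_symm (d : ℕ) (f : ℕ → ℤ)
    (hf : ∀ j, j ≤ d → f j = ∑ i ∈ Finset.range (d + 1), (-1 : ℤ) ^ (d - i) * (i.choose j : ℤ) * f i)
    (s : ℕ) (hs : s ≤ d) : hn d f s = hn d f (d - s) := by
  have key : ∀ i, i ≤ d → ∑ j ∈ Finset.range (s + 1), (-1 : ℤ) ^ j *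
      (((d - j).choose (s - j) : ℕ) : ℤ) * (i.choose j : ℤ) = ((d - i).choose s : ℤ) := by
    intro i hi
    have h1 : ((1 + X : ℤ[X]) ^ (d - i)) = ∑ j ∈ Finset.range (i + 1),
        ((-1 : ℤ) ^ j * (i.choose j : ℤ)) • ((1 + X) ^ (d - j) * X ^ j : ℤ[X]) := by
      have h2 := add_pow (-X : ℤ[X]) (1 + X) i
      have h4 : (-X + (1 + X) : ℤ[X]) = 1 := by ring
      rw [h4, one_pow] at h2
      calc (1 + X : ℤ[X]) ^ (d - i) = (1 + X) ^ (d - i) * 1 := by rw [mul_one]
        _ = (1 + X) ^ (d - i) * ∑ m ∈ Finset.range (i + 1),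
            (-X) ^ m * (1 + X) ^ (i - m) * ((i.choose m : ℕ) : ℤ[X]) :=
          by rw [← h2]
        _ = _ := by
          rw [Finset.mul_sum]
          refine Finset.sum_congr rfl fun j hj => ?_
          have hj' := Finset.mem_range.1 hj
          have e1 : d - j = (d - i) + (i - j) := by omega
          rw [e1, pow_add, neg_pow (X : ℤ[X]), zsmul_eq_mul]
          push_cast
          ring
    have h2 := congrArg (fun P : ℤ[X] => P.coeff s) h1
    simp only [finsetSum_coeff] at h2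
    rw [coeff_one_add_X_pow] at h2
    have h3 : ∀ j, (((-1 : ℤ) ^ j * (i.choose j : ℤ)) •
        ((1 + X) ^ (d - j) * X ^ j : ℤ[X])).coeff s =
        if j ≤ s then (-1 : ℤ) ^ j * (((d - j).choose (s - j) : ℕ) : ℤ) * (i.choose j : ℤ)
        else 0 := by
      intro j
      rw [coeff_smul, coeff_mul_X_pow']
      by_cases hjs : j ≤ s
      · rw [if_pos hjs, if_pos hjs, coeff_one_add_X_pow, smul_eq_mul]; ring
      · rw [if_neg hjs, if_neg hjs, smul_zero]
    rw [h2, Finset.sum_congr rfl fun j _ => h3 j]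
    have h4 : ∀ N, s ≤ N → i ≤ N → ∀ g : ℕ → ℤ, (∀ j, i < j → g j = 0) →
        ∑ j ∈ Finset.range (s + 1), g j =
        ∑ j ∈ Finset.range (i + 1), if j ≤ s then g j else 0 := by
      intro N hN1 hN2 g hg
      rw [← Finset.sum_filter]
      have h5 : (Finset.range (i + 1)).filter (fun j => j ≤ s) ⊆ Finset.range (s + 1) := by
        intro x hx
        rw [Finset.mem_filter] at hx
        rw [Finset.mem_range]
        omega
      symm
      refine Finset.sum_subset h5 ?_
      intro x hx hx2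
      apply hg
      rw [Finset.mem_filter, Finset.mem_range] at hx2
      rw [Finset.mem_range] at hx
      omega
    refine h4 (s + i) (by omega) (by omega) _ ?_
    intro j hj
    rw [Nat.choose_eq_zero_of_lt hj]
    simp
  have h1 : hn d f s = ∑ i ∈ Finset.range (d + 1), (-1 : ℤ) ^ (d - i) * f i *
      ((-1 : ℤ) ^ s * ((d - i).choose s : ℤ)) := by
    unfold hn
    have e1 : ∀ j ∈ Finset.range (s + 1), (-1 : ℤ) ^ (s - j) *
        (((d - j).choose (s - j) : ℕ) : ℤ) * f j = ∑ i ∈ Finset.range (d + 1),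
        (-1 : ℤ) ^ (d - i) * f i * ((-1 : ℤ) ^ s * ((-1 : ℤ) ^ j *
      (((d - j).choose (s - j) : ℕ) : ℤ) * (i.choose j : ℤ))) := by
      intro j hj
      have hj' := Finset.mem_range.1 hj
      rw [hf j (by omega), Finset.mul_sum]
      refine Finset.sum_congr rfl fun i _ => ?_
      have e2 : (-1 : ℤ) ^ (s - j) = (-1) ^ s * (-1) ^ j := by
        have : s = s - j + j := by omega
        conv_rhs => rw [this]
        rw [pow_add, mul_assoc, ← pow_add, ← two_mul, pow_mul]
        simp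
      rw [e2]; ring
    rw [Finset.sum_congr rfl e1, Finset.sum_comm]
    refine Finset.sum_congr rfl fun i hi => ?_
    have hi' := Finset.mem_range.1 hi
    rw [← Finset.mul_sum, ← Finset.mul_sum, key i (by omega)]
  rw [h1]
  unfold hn
  have h2 : ∀ g : ℕ → ℤ, (∀ j, j ≤ d → d - s < j → g j = 0) →
      ∑ j ∈ Finset.range (d - s + 1), g j = ∑ j ∈ Finset.range (d + 1), g j := by
    intro g hg
    refine Finset.sum_subset ?_ ?_
    · intro x hx
      rw [Finset.mem_range] at hx ⊢
      omega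
    · intro x hx0 hx
      rw [Finset.mem_range] at hx hx0
      apply hg
      · omega
      · omega
  have h3 : ∑ j ∈ Finset.range (d - s + 1), (-1 : ℤ) ^ (d - s - j) *
      (((d - j).choose (d - s - j) : ℕ) : ℤ) * f j = ∑ j ∈ Finset.range (d - s + 1),
      (-1 : ℤ) ^ (d - j) * f j * ((-1 : ℤ) ^ s * ((d - j).choose s : ℤ)) := by
    refine Finset.sum_congr rfl fun j hj => ?_
    have hj' := Finset.mem_range.1 hj
    have e1 : (d - j).choose (d - s - j) = (d - j).choose s := by
      rw [← Nat.choose_symm (show d - s - j ≤ d - j by omega)]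
      congr 1
      omega
    have e2 : (-1 : ℤ) ^ (d - j) = (-1) ^ (d - s - j) * (-1) ^ s := by
      rw [← pow_add]
      congr 1
      omega
    have e3 : (-1 : ℤ) ^ s * (-1) ^ s = 1 := by
      rw [← pow_add, ← two_mul, pow_mul]
      simp
    rw [e1, e2]
    linear_combination (-(-1 : ℤ) ^ (d - s - j) * ((d - j).choose s : ℤ) * f j) * e3
  rw [h3]
  symm
  apply h2
  intro j hj0 hj
  have : (d - j).choose s = 0 := Nat.choose_eq_zero_of_lt (by omega)
  rw [this]
  simp

/-- the g-numbers -/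
def gn (d : ℕ) (f : ℕ → ℤ) : ℕ → ℤ
  | 0 => hn d f 0
  | (j + 1) => hn d f (j + 1) - hn d f j

lemma gn_sum (d : ℕ) (f : ℕ → ℤ) (m : ℕ) : ∑ j ∈ Finset.range (m + 1), gn d f j = hn d f m := by
  induction m with
  | zero => rw [Finset.sum_range_one]; rfl
  | succ m ih =>
    rw [Finset.sum_range_succ, ih]
    show hn d f m + (hn d f (m + 1) - hn d f m) = _
    ring

/-- the coefficient function of the cd-index -/
def Phi (d : ℕ) (f : ℕ → ℤ) : Fn := fun w =>
  ∑ j ∈ Finset.range (d / 2 + 1), gn d f j * Th j (d - 2 * j) w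

lemma ev_sum {A : Type*} [Ring A] (c dd : A) (n : ℕ) (s : Finset ℕ) (k : ℕ → ℤ) (X : ℕ → Fn) :
    ev c dd n (fun w => ∑ j ∈ s, k j * X j w) = ∑ j ∈ s, k j • ev c dd n (X j) := by
  classical
  induction s using Finset.induction_on with
  | empty =>
    simp only [Finset.sum_empty]
    exact ev_zero_fn c dd n
  | insert i s hi ih =>
    simp only [Finset.sum_insert hi]
    rw [ev_add, ev_smul, ih]

lemma block (d j : ℕ) (hj : 2 * j ≤ d) : ((X * (1 + X)) ^ j * H (d - 2 * j) : ℤ[X]) =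
    ∑ i ∈ Finset.Icc j (d - j), X ^ i * (1 + X) ^ (d - i) := by
  have h5 : Finset.Icc j (d - j) = Finset.Ico j (d - j + 1) := by
    ext x
    simp only [Finset.mem_Icc, Finset.mem_Ico]
    omega
  rw [h5, Finset.sum_Ico_eq_sum_range]
  have h6 : d - j + 1 - j = d - 2 * j + 1 := by omega
  unfold H
  rw [h6, Finset.mul_sum]
  refine Finset.sum_congr rfl fun i hi => ?_
  have hi' := Finset.mem_range.1 hi
  have e1 : d - (j + i) = j + (d - 2 * j - i) := by omega
  rw [e1, pow_add, pow_add, mul_pow]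
  ring

theorem ev_Phi (d : ℕ) (f : ℕ → ℤ) (hs : ∀ s, s ≤ d → hn d f s = hn d f (d - s)) :
    ev vc vd d (Phi d f) = L d (fp d f) := by
  unfold Phi
  rw [ev_sum, fp_eq]
  have h1 : ∀ j ∈ Finset.range (d / 2 + 1), gn d f j • ev vc vd d (Th j (d - 2 * j)) =
      L d (gn d f j • ∑ i ∈ Finset.Icc j (d - j), X ^ i * (1 + X) ^ (d - i)) := by
    intro j hj
    have hj' := Finset.mem_range.1 hj
    have hj2 : 2 * j ≤ d := by omega
    have h2 := ev_Th j (d - 2 * j)
    have h3 : d - 2 * j + 2 * j = d := by omega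
    rw [h3, block d j hj2] at h2
    rw [h2, L_zsmul]
  rw [Finset.sum_congr rfl h1, ← L_sum]
  congr 1
  have h2 : ∀ j ∈ Finset.range (d / 2 + 1),
      gn d f j • ∑ i ∈ Finset.Icc j (d - j), (X ^ i * (1 + X) ^ (d - i) : ℤ[X]) =
      ∑ i ∈ Finset.Icc j (d - j), gn d f j • (X ^ i * (1 + X) ^ (d - i)) :=
    fun j _ => Finset.smul_sum
  rw [Finset.sum_congr rfl h2]
  rw [Finset.sum_comm' (s' := fun i => Finset.range (min i (d - i) + 1))
    (t' := Finset.range (d + 1)) (by
    intro x y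
    simp only [Finset.mem_range, Finset.mem_Icc]
    omega)]
  refine Finset.sum_congr rfl fun i hi => ?_
  have hi' := Finset.mem_range.1 hi
  rw [← Finset.sum_smul, gn_sum]
  congr 1
  rcases le_total i (d - i) with h | h
  · rw [min_eq_left h]
  · rw [min_eq_right h]
    exact (hs i (by omega)).symm

/-- the inequality for the coefficient functions -/
theorem Phi_ineq (d : ℕ) (f f0 : ℕ → ℤ) (h0 : hn d f 0 = 1) (h00 : ∀ s, s ≤ d → hn d f0 s = 1)
    (hg : ∀ a, 2 * a + 1 ≤ d → hn d f a ≤ hn d f (a + 1)) (u v : List Bool) :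
    Phi d f0 (u ++ true :: v) - Phi d f0 (u ++ false :: false :: v) ≤
    Phi d f (u ++ true :: v) - Phi d f (u ++ false :: false :: v) := by
  have h1 : ∀ w, Phi d f w = Phi d f0 w +
      ∑ j ∈ Finset.range (d / 2), gn d f (j + 1) * Th (j + 1) (d - 2 * (j + 1)) w := by
    intro w
    unfold Phi
    rw [Finset.sum_range_succ', Finset.sum_range_succ' _ (d / 2)]
    have e1 : gn d f 0 = gn d f0 0 := by
      show hn d f 0 = hn d f0 0
      rw [h0, h00 0 (Nat.zero_le _)]
    have e2 : ∑ k ∈ Finset.range (d / 2), gn d f0 (k + 1) * Th (k + 1) (d - 2 * (k + 1)) w = 0 := by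
      refine Finset.sum_eq_zero fun k hk => ?_
      have hk' := Finset.mem_range.1 hk
      have : gn d f0 (k + 1) = 0 := by
        show hn d f0 (k + 1) - hn d f0 k = 0
        rw [h00 _ (by omega), h00 _ (by omega), sub_self]
      rw [this, zero_mul]
    rw [e1, e2]; ring
  rw [h1, h1]
  have h2 : ∑ j ∈ Finset.range (d / 2), gn d f (j + 1) *
      Th (j + 1) (d - 2 * (j + 1)) (u ++ false :: false :: v) ≤
      ∑ j ∈ Finset.range (d / 2), gn d f (j + 1) *
      Th (j + 1) (d - 2 * (j + 1)) (u ++ true :: v) := by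
    refine Finset.sum_le_sum fun j hj => ?_
    have hj' := Finset.mem_range.1 hj
    refine mul_le_mul_of_nonneg_left ((good_Th _ _).2 u v) ?_
    show 0 ≤ hn d f (j + 1) - hn d f j
    have := hg j (by omega)
    linarith
  linarith

end Pool.Agent.H252R2.CDNum
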