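import Mathlib

set_option autoImplicit false

/-! Operators on coefficient functions of polynomials in `c` and `d`; the letter `c` is `false`,
the letter `d` is `true`. -/

namespace Pool.Agent.H252R2.CDOps

/-- Coefficient functions. -/
abbrev Fn := List Bool → ℤ

/-- the coefficients after the first letter -/
def tl (x : Bool) (X : Fn) : Fn := fun z => X (x :: z)

/-- part of the function supported on words starting with `d`, as a function of the word -/
def hd (X : Fn) : Fn
  | (true :: w) => X (true :: w)
  | _ => 0

lemma hd_nil (X : Fn) : hd X [] = 0 := rfl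
lemma hd_c (X : Fn) (w : List Bool) : hd X (false :: w) = 0 := rfl
lemma hd_d (X : Fn) (w : List Bool) : hd X (true :: w) = X (true :: w) := rfl

/-- the derivation `c ↦ d`, `d ↦ cd` -/
def G : Fn → Fn
  | _, [] => 0
  | X, (false :: w) => G (tl false X) w + hd X w
  | X, (true :: w) => X (false :: w) + G (tl true X) w

lemma G_nil (X : Fn) : G X [] = 0 := by
  unfold G; rfl
lemma G_c (X : Fn) (w : List Bool) : G X (false :: w) = G (tl false X) w + hd X w := by
  rw [G]
lemma G_d (X : Fn) (w : List Bool) : G X (true :: w) = X (false :: w) + G (tl true X) w := by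
  rw [G]

/-- right multiplication by `c` -/
def mc : Fn → Fn
  | _, [] => 0
  | X, (false :: w) => mc (tl false X) w + (if w = [] then X [] else 0)
  | X, (true :: w) => mc (tl true X) w

lemma mc_nil (X : Fn) : mc X [] = 0 := by
  unfold mc; rfl
lemma mc_c (X : Fn) (w : List Bool) :
    mc X (false :: w) = mc (tl false X) w + (if w = [] then X [] else 0) := by
  rw [mc]
lemma mc_d (X : Fn) (w : List Bool) : mc X (true :: w) = mc (tl true X) w := by
  rw [mc]

lemma mc_snoc_c (w : List Bool) : ∀ X : Fn, mc X (w ++ [false]) = X w := by
  induction w with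
  | nil =>
    intro X
    show mc X (false :: []) = _
    rw [mc_c, mc_nil, if_pos rfl, zero_add]
  | cons x w ih =>
    intro X
    cases x
    · rw [List.cons_append, mc_c, ih, if_neg (by simp), add_zero]; rfl
    · rw [List.cons_append, mc_d, ih]; rfl

lemma mc_snoc_d (w : List Bool) : ∀ X : Fn, mc X (w ++ [true]) = 0 := by
  induction w with
  | nil =>
    intro X
    show mc X (true :: []) = _
    rw [mc_d, mc_nil]
  | cons x w ih =>
    intro X
    cases x
    · rw [List.cons_append, mc_c, ih, if_neg (by simp), add_zero]
    · rw [List.cons_append, mc_d, ih]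

/-- nonnegative coefficients and the inequality between neighbouring words -/
def Good (X : Fn) : Prop :=
  (∀ w, 0 ≤ X w) ∧ ∀ u v, X (u ++ false :: false :: v) ≤ X (u ++ true :: v)

lemma good_tl {X : Fn} (h : Good X) (x : Bool) : Good (tl x X) :=
  ⟨fun w => h.1 _, fun u v => h.2 (x :: u) v⟩

lemma hd_mono {X Y : Fn} (h : ∀ w, X w ≤ Y w) (w : List Bool) : hd X w ≤ hd Y w := by
  match w with
  | [] => exact le_rfl
  | false :: w => exact le_rfl
  | true :: w => exact h _

lemma G_mono (w : List Bool) : ∀ X Y : Fn, (∀ w, X w ≤ Y w) → G X w ≤ G Y w := by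
  induction w with
  | nil => intro X Y _; rw [G_nil, G_nil]
  | cons x w ih =>
    intro X Y h
    cases x
    · rw [G_c, G_c]
      exact add_le_add (ih _ _ fun z => h _) (hd_mono h w)
    · rw [G_d, G_d]
      exact add_le_add (h _) (ih _ _ fun z => h _)

lemma hd_nonneg {X : Fn} (h : ∀ w, 0 ≤ X w) (w : List Bool) : 0 ≤ hd X w := by
  match w with
  | [] => exact le_rfl
  | false :: w => exact le_rfl
  | true :: w => exact h _

lemma G_nonneg (w : List Bool) : ∀ X : Fn, (∀ w, 0 ≤ X w) → 0 ≤ G X w := by
  induction w with
  | nil => intro X _; rw [G_nil]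
  | cons x w ih =>
    intro X h
    cases x
    · rw [G_c]
      exact add_nonneg (ih _ fun z => h _) (hd_nonneg h w)
    · rw [G_d]
      exact add_nonneg (h _) (ih _ fun z => h _)

lemma mc_nonneg (w : List Bool) : ∀ X : Fn, (∀ w, 0 ≤ X w) → 0 ≤ mc X w := by
  induction w with
  | nil => intro X _; rw [mc_nil]
  | cons x w ih =>
    intro X h
    cases x
    · rw [mc_c]
      refine add_nonneg (ih _ fun z => h _) ?_
      by_cases hw : w = []
      · rw [if_pos hw]; exact h _
      · rw [if_neg hw]
    · rw [mc_d]
      exact ih _ fun z => h _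

/-- the basic inequality -/
lemma G_key (u : List Bool) : ∀ (X : Fn), Good X → ∀ v : List Bool,
    G X (u ++ false :: false :: v) + (if v = [] then X (u ++ [false]) else 0) ≤
      G X (u ++ true :: v) := by
  induction u with
  | nil =>
    intro X h v
    show G X (false :: false :: v) + (if v = [] then X [false] else 0) ≤ G X (true :: v)
    have h1 : G (tl false (tl false X)) v ≤ G (tl true X) v :=
      G_mono v _ _ fun z => h.2 [] z
    rw [G_c, G_c, G_d, hd_c]
    match v with
    | [] =>
      rw [if_pos rfl, hd_nil, G_nil, G_nil]
      linarith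
    | false :: v =>
      rw [if_neg (by simp), hd_c]
      have := h.1 (false :: false :: v)
      linarith
    | true :: v =>
      rw [if_neg (by simp), hd_d]
      have : tl false X (true :: v) = X (false :: true :: v) := rfl
      rw [this]
      linarith
  | cons x u ih =>
    intro X h v
    cases x
    · simp only [List.cons_append]
      rw [G_c, G_c]
      have h1 := ih (tl false X) (good_tl h false) v
      have h2 : hd X (u ++ false :: false :: v) ≤ hd X (u ++ true :: v) := by
        match u with
        | [] => rw [List.nil_append, List.nil_append, hd_c, hd_d]; exact h.1 _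
        | false :: u => rw [List.cons_append, List.cons_append, hd_c, hd_c]
        | true :: u =>
          rw [List.cons_append, List.cons_append, hd_d, hd_d]
          exact h.2 (true :: u) v
      have h3 : tl false X (u ++ [false]) = X (false :: (u ++ [false])) := rfl
      rw [h3] at h1
      linarith
    · simp only [List.cons_append]
      rw [G_d, G_d]
      have h1 := ih (tl true X) (good_tl h true) v
      have h2 := h.2 (false :: u) v
      have h3 : tl true X (u ++ [false]) = X (true :: (u ++ [false])) := rfl
      rw [h3] at h1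
      simp only [List.cons_append] at h2
      linarith

lemma good_G {X : Fn} (h : Good X) : Good (G X) := by
  refine ⟨fun w => G_nonneg w X h.1, fun u v => ?_⟩
  have h1 := G_key u X h v
  have h2 : 0 ≤ (if v = [] then X (u ++ [false]) else 0) := by
    by_cases hv : v = []
    · rw [if_pos hv]; exact h.1 _
    · rw [if_neg hv]
  linarith

/-- the operator of the pyramid -/
def R (X : Fn) : Fn := fun w => G X w + mc X w

lemma good_R {X : Fn} (h : Good X) : Good (R X) := by
  refine ⟨fun w => add_nonneg (G_nonneg w X h.1) (mc_nonneg w X h.1), fun u v => ?_⟩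
  show G X _ + mc X _ ≤ G X _ + mc X _
  have h1 := G_key u X h v
  rcases List.eq_nil_or_concat v with hv | ⟨v', x, hv⟩
  · subst hv
    rw [if_pos rfl] at h1
    have e1 : u ++ false :: false :: [] = (u ++ [false]) ++ [false] := by simp
    rw [e1] at h1 ⊢
    rw [mc_snoc_c, mc_snoc_d]
    linarith
  · rw [List.concat_eq_append] at hv
    have hne : v ≠ [] := by rw [hv]; simp
    rw [if_neg hne] at h1
    have e1 : u ++ false :: false :: v = (u ++ false :: false :: v') ++ [x] := by rw [hv]; simp
    have e2 : u ++ true :: v = (u ++ true :: v') ++ [x] := by rw [hv]; simp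
    rw [e1, e2] at h1 ⊢
    cases x
    · rw [mc_snoc_c, mc_snoc_c]
      have := h.2 u v'
      linarith
    · rw [mc_snoc_d, mc_snoc_d]
      linarith

/-- the operator `R_a R_b` -/
def S (X : Fn) : Fn := G (R X)

lemma good_S {X : Fn} (h : Good X) : Good (S X) := good_G (good_R h)

/-- the coefficient function of `1` -/
def one : Fn := fun w => if w = [] then 1 else 0

lemma good_one : Good one := by
  refine ⟨fun w => ?_, fun u v => ?_⟩
  · unfold one
    by_cases h : w = []
    · rw [if_pos h]; exact zero_le_one
    · rw [if_neg h]
  · unfold one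
    rw [if_neg (by simp), if_neg (by simp)]

/-- the building blocks -/
def Th (j m : ℕ) : Fn := S^[j] (R^[m] one)

lemma good_Th (j m : ℕ) : Good (Th j m) := by
  have h1 : ∀ m, Good (R^[m] one) := by
    intro m
    induction m with
    | zero => exact good_one
    | succ m ih =>
      rw [Function.iterate_succ_apply']
      exact good_R ih
  unfold Th
  induction j with
  | zero => exact h1 m
  | succ j ih =>
    rw [Function.iterate_succ_apply']
    exact good_S ih

section eval
variable {A : Type*} [Ring A] (c d : A)

/-- the value of the part of degree `n` -/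
def ev : ℕ → Fn → A
  | 0, X => X [] • (1 : A)
  | 1, X => X [false] • c
  | (n + 2), X => c * ev (n + 1) (tl false X) + d * ev n (tl true X)

lemma ev_zero (X : Fn) : ev c d 0 X = X [] • (1 : A) := by rw [ev]
lemma ev_one (X : Fn) : ev c d 1 X = X [false] • c := by rw [ev]
lemma ev_two (n : ℕ) (X : Fn) :
    ev c d (n + 2) X = c * ev c d (n + 1) (tl false X) + d * ev c d n (tl true X) := by rw [ev]

lemma ev_add (n : ℕ) : ∀ X Y : Fn, ev c d n (fun w => X w + Y w) = ev c d n X + ev c d n Y := by
  induction n using Nat.strong_induction_on with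
  | _ n ih =>
    intro X Y
    match n with
    | 0 => rw [ev_zero, ev_zero, ev_zero, add_smul]
    | 1 => rw [ev_one, ev_one, ev_one, add_smul]
    | n + 2 =>
      rw [ev_two, ev_two, ev_two]
      have e1 := ih (n + 1) (by omega) (tl false X) (tl false Y)
      have e2 := ih n (by omega) (tl true X) (tl true Y)
      have e3 : tl false (fun w => X w + Y w) = fun w => tl false X w + tl false Y w := rfl
      have e4 : tl true (fun w => X w + Y w) = fun w => tl true X w + tl true Y w := rfl
      rw [e3, e4, e1, e2, mul_add, mul_add]
      abel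

lemma ev_smul (n : ℕ) (k : ℤ) : ∀ X : Fn, ev c d n (fun w => k * X w) = k • ev c d n X := by
  induction n using Nat.strong_induction_on with
  | _ n ih =>
    intro X
    match n with
    | 0 => rw [ev_zero, ev_zero, mul_smul]
    | 1 => rw [ev_one, ev_one, mul_smul]
    | n + 2 =>
      rw [ev_two, ev_two]
      have e1 := ih (n + 1) (by omega) (tl false X)
      have e2 := ih n (by omega) (tl true X)
      have e3 : tl false (fun w => k * X w) = fun w => k * tl false X w := rfl
      have e4 : tl true (fun w => k * X w) = fun w => k * tl true X w := rfl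
      rw [e3, e4, e1, e2, smul_add, mul_smul_comm, mul_smul_comm]

lemma ev_zero_fn (n : ℕ) : ev c d n (fun _ => 0) = 0 := by
  have := ev_smul c d n 0 (fun _ => 0)
  simpa using this

/-- `ev` only depends on the values on nonempty words if the degree is positive -/
lemma ev_hd (n : ℕ) (X : Fn) : ev c d (n + 2) (hd X) = d * ev c d n (tl true X) := by
  rw [ev_two]
  have e1 : tl false (hd X) = fun _ => 0 := rfl
  have e2 : tl true (hd X) = tl true X := rfl
  rw [e1, e2, ev_zero_fn, mul_zero, zero_add]

lemma ev_hd_zero (X : Fn) : ev c d 0 (hd X) = 0 := by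
  rw [ev_zero, hd_nil, zero_smul]

lemma ev_hd_one (X : Fn) : ev c d 1 (hd X) = 0 := by
  rw [ev_one, hd_c, zero_smul]

/-- the derivation on coefficient functions computes the derivation -/
lemma ev_G (D : A → A) (hadd : ∀ x y, D (x + y) = D x + D y) (hzs : ∀ (k : ℤ) x, D (k • x) = k • D x)
    (hmul : ∀ x y, D (x * y) = D x * y + x * D y) (hc : D c = d) (hd' : D d = c * d)
    (n : ℕ) : ∀ X : Fn, ev c d (n + 1) (G X) = D (ev c d n X) := by
  have hone : D 1 = 0 := by
    have := hmul 1 1
    rw [mul_one, mul_one, one_mul] at this
    exact (left_eq_add.1 this)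
  induction n using Nat.strong_induction_on with
  | _ n ih =>
    intro X
    match n with
    | 0 =>
      rw [ev_one, ev_zero, hzs, hone, smul_zero, G_c, G_nil, hd_nil, add_zero, zero_smul]
    | 1 =>
      rw [ev_two c d 0 (G X), ev_one c d X, hzs, hc]
      have e1 : tl false (G X) = fun w => G (tl false X) w + hd X w := by
        funext w; exact G_c X w
      have e2 : tl true (G X) = fun w => tl false X w + G (tl true X) w := by
        funext w; exact G_d X w
      rw [e1, e2, ev_add, ev_add, ev_hd_one, ih 0 (by omega), ev_zero, hzs, hone, smul_zero,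
        zero_add, mul_zero, zero_add]
      simp only [ev_zero]
      rw [G_nil, zero_smul, add_zero, mul_smul_comm, mul_one]
      rfl
    | n + 2 =>
      rw [show n + 2 + 1 = (n + 1) + 2 from rfl, ev_two c d (n + 1) (G X), ev_two c d n X]
      have e1 : tl false (G X) = fun w => G (tl false X) w + hd X w := by
        funext w; exact G_c X w
      have e2 : tl true (G X) = fun w => tl false X w + G (tl true X) w := by
        funext w; exact G_d X w
      rw [e1, e2, ev_add, ev_add, ev_hd, ih (n + 1) (by omega), ih n (by omega), hadd, hmul, hmul,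
        hc, hd']
      noncomm_ring

lemma ev_mc (n : ℕ) : ∀ X : Fn, ev c d (n + 1) (mc X) = ev c d n X * c := by
  induction n using Nat.strong_induction_on with
  | _ n ih =>
    intro X
    match n with
    | 0 =>
      rw [ev_one, ev_zero, mc_c, mc_nil, if_pos rfl, zero_add, smul_mul_assoc, one_mul]
    | 1 =>
      rw [ev_two c d 0 (mc X), ev_one c d X]
      have e1 : tl false (mc X) = fun w => mc (tl false X) w + (if w = [] then X [] else 0) := by
        funext w; exact mc_c X w
      have e2 : tl true (mc X) = mc (tl true X) := by
        funext w; exact mc_d X w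
      rw [e1, e2, ev_add, ih 0 (by omega), ev_one c d (fun w => if w = [] then X [] else 0),
        if_neg (by simp), zero_smul, add_zero, ev_zero, ev_zero, mc_nil, zero_smul, mul_zero,
        add_zero, smul_mul_assoc, one_mul, mul_smul_comm, smul_mul_assoc]
      rfl
    | n + 2 =>
      rw [show n + 2 + 1 = (n + 1) + 2 from rfl, ev_two c d (n + 1) (mc X), ev_two c d n X]
      have e1 : tl false (mc X) = fun w => mc (tl false X) w + (if w = [] then X [] else 0) := by
        funext w; exact mc_c X w
      have e2 : tl true (mc X) = mc (tl true X) := by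
        funext w; exact mc_d X w
      have e3 : ev c d (n + 2) (fun w => if w = [] then X [] else 0) = 0 := by
        rw [ev_two]
        have e4 : ∀ x : Bool, tl x (fun w => if w = [] then X [] else 0) = fun _ => 0 := by
          intro x
          funext w
          show (if x :: w = [] then X [] else 0) = 0
          exact if_neg (by simp)
        rw [e4, e4, ev_zero_fn, ev_zero_fn, mul_zero, mul_zero, add_zero]
      rw [e1, e2, ev_add, e3, add_zero, ih (n + 1) (by omega), ih n (by omega), add_mul,
        mul_assoc, mul_assoc]

lemma ev_R (D : A → A) (hadd : ∀ x y, D (x + y) = D x + D y) (hzs : ∀ (k : ℤ) x, D (k • x) = k • D x)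
    (hmul : ∀ x y, D (x * y) = D x * y + x * D y) (hc : D c = d) (hd' : D d = c * d)
    (n : ℕ) (X : Fn) : ev c d (n + 1) (R X) = D (ev c d n X) + ev c d n X * c := by
  unfold R
  rw [ev_add, ev_G c d D hadd hzs hmul hc hd', ev_mc]

lemma ev_S (D : A → A) (hadd : ∀ x y, D (x + y) = D x + D y) (hzs : ∀ (k : ℤ) x, D (k • x) = k • D x)
    (hmul : ∀ x y, D (x * y) = D x * y + x * D y) (hc : D c = d) (hd' : D d = c * d)
    (n : ℕ) (X : Fn) : ev c d (n + 2) (S X) =
      D (D (ev c d n X)) + D (ev c d n X) * c + ev c d n X * d := by
  unfold S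
  rw [ev_G c d D hadd hzs hmul hc hd', ev_R c d D hadd hzs hmul hc hd', hadd, hmul, hc]
  abel

end eval

end Pool.Agent.H252R2.CDOps
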