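import Pool.Agent.H252R2.CDFlag

set_option autoImplicit false

/-! Uniqueness of the cd-index. -/

namespace Pool.Agent.H252R2.CDUniq

open Pool.Agent.H252R2.CDOps Pool.Agent.H252R2.CDAb Pool.Agent.H252R2.CDNum
  Pool.Agent.H252R2.CDFlag

/-- the degree of a cd-word -/
def deg : List Bool → ℕ
  | [] => 0
  | (false :: w) => deg w + 1
  | (true :: w) => deg w + 2

lemma deg_nil : deg [] = 0 := rfl
lemma deg_c (w : List Bool) : deg (false :: w) = deg w + 1 := rfl
lemma deg_d (w : List Bool) : deg (true :: w) = deg w + 2 := rfl

lemma deg_append (u v : List Bool) : deg (u ++ v) = deg u + deg v := by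
  induction u with
  | nil => rw [List.nil_append, deg_nil, zero_add]
  | cons x u ih =>
    cases x
    · rw [List.cons_append, deg_c, deg_c, ih]; ring
    · rw [List.cons_append, deg_d, deg_d, ih]; ring

/-- the value of a cd-word -/
noncomputable def val (w : List Bool) : AB := (w.map fun x => if x then vd else vc).prod

lemma val_nil : val [] = 1 := rfl
lemma val_c (w : List Bool) : val (false :: w) = vc * val w := by
  unfold val
  rw [List.map_cons, List.prod_cons]
  rfl
lemma val_d (w : List Bool) : val (true :: w) = vd * val w := by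
  unfold val
  rw [List.map_cons, List.prod_cons]
  rfl

/-- the words of degree `n` -/
def words : ℕ → Finset (List Bool)
  | 0 => {[]}
  | 1 => {[false]}
  | (n + 2) => (words (n + 1)).image (List.cons false) ∪ (words n).image (List.cons true)

lemma mem_words (n : ℕ) : ∀ w, w ∈ words n ↔ deg w = n := by
  induction n using Nat.strong_induction_on with
  | _ n ih =>
    intro w
    match n with
    | 0 =>
      show w ∈ ({[]} : Finset (List Bool)) ↔ _
      rw [Finset.mem_singleton]
      match w with
      | [] => simp [deg_nil]
      | false :: w => simp [deg_c]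
      | true :: w => simp [deg_d]
    | 1 =>
      show w ∈ ({[false]} : Finset (List Bool)) ↔ _
      rw [Finset.mem_singleton]
      match w with
      | [] => simp [deg_nil]
      | false :: w =>
        rw [deg_c]
        have h0 := ih 0 (by omega) w
        have h1 : w ∈ words 0 ↔ w = [] := by
          show w ∈ ({[]} : Finset (List Bool)) ↔ _
          rw [Finset.mem_singleton]
        rw [h1] at h0
        constructor
        · intro h
          have : w = [] := by simpa using h
          rw [h0.1 this]
        · intro h
          rw [h0.2 (by omega)]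
      | true :: w => simp [deg_d]
    | n + 2 =>
      show w ∈ (words (n + 1)).image (List.cons false) ∪ (words n).image (List.cons true) ↔ _
      rw [Finset.mem_union, Finset.mem_image, Finset.mem_image]
      match w with
      | [] => simp [deg_nil]
      | false :: w =>
        rw [deg_c]
        have h0 := ih (n + 1) (by omega) w
        constructor
        · rintro (⟨z, h1, h2⟩ | ⟨z, h1, h2⟩)
          · have : z = w := by simpa using h2
            rw [h0.1 (this ▸ h1)]
          · exact absurd h2 (by simp)
        · intro h
          exact Or.inl ⟨w, h0.2 (by omega), rfl⟩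
      | true :: w =>
        rw [deg_d]
        have h0 := ih n (by omega) w
        constructor
        · rintro (⟨z, h1, h2⟩ | ⟨z, h1, h2⟩)
          · exact absurd h2 (by simp)
          · have : z = w := by simpa using h2
            rw [h0.1 (this ▸ h1)]
        · intro h
          exact Or.inr ⟨w, h0.2 (by omega), rfl⟩

lemma ev_words (n : ℕ) : ∀ X : Fn, ev vc vd n X = ∑ w ∈ words n, X w • val w := by
  induction n using Nat.strong_induction_on with
  | _ n ih =>
    intro X
    match n with
    | 0 =>
      rw [ev_zero]
      show _ = ∑ w ∈ ({[]} : Finset (List Bool)), X w • val w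
      rw [Finset.sum_singleton, val_nil]
    | 1 =>
      rw [ev_one]
      show _ = ∑ w ∈ ({[false]} : Finset (List Bool)), X w • val w
      rw [Finset.sum_singleton, val_c, val_nil, mul_one]
    | n + 2 =>
      rw [ev_two, ih (n + 1) (by omega), ih n (by omega)]
      show _ = ∑ w ∈ (words (n + 1)).image (List.cons false) ∪ (words n).image (List.cons true),
        X w • val w
      rw [Finset.sum_union, Finset.sum_image, Finset.sum_image, Finset.mul_sum, Finset.mul_sum]
      · congr 1
        · refine Finset.sum_congr rfl fun w _ => ?_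
          rw [val_c, mul_smul_comm]; rfl
        · refine Finset.sum_congr rfl fun w _ => ?_
          rw [val_d, mul_smul_comm]; rfl
      · intro x _ y _ h
        simpa using h
      · intro x _ y _ h
        simpa using h
      · rw [Finset.disjoint_left]
        intro w h1 h2
        obtain ⟨x, _, rfl⟩ := Finset.mem_image.1 h1
        obtain ⟨y, _, h3⟩ := Finset.mem_image.1 h2
        simp at h3

section inject

/-- the coefficients -/
noncomputable def co (x : AB) (w : FreeMonoid Bool) : ℤ :=
  (FreeAlgebra.equivMonoidAlgebraFreeMonoid (R := ℤ) (X := Bool) x).coeff w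

lemma co_ext (x : AB) (h : ∀ w, co x w = 0) : x = 0 := by
  have h1 : FreeAlgebra.equivMonoidAlgebraFreeMonoid (R := ℤ) (X := Bool) x = 0 := by
    ext w
    exact h w
  exact (map_eq_zero_iff _ (AlgEquiv.injective _)).1 h1

lemma co_add (x y : AB) (w : FreeMonoid Bool) : co (x + y) w = co x w + co y w := by
  unfold co
  rw [map_add]
  rfl

lemma co_var (i j : Bool) (x : AB) (w : FreeMonoid Bool) :
    co (FreeAlgebra.ι ℤ i * x) (FreeMonoid.of j * w) = if i = j then co x w else 0 := by
  unfold co
  have h0 := map_mul (FreeAlgebra.equivMonoidAlgebraFreeMonoid (R := ℤ) (X := Bool))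
    (FreeAlgebra.ι ℤ i) x
  rw [h0]
  have h1 : FreeAlgebra.equivMonoidAlgebraFreeMonoid (R := ℤ) (X := Bool) (FreeAlgebra.ι ℤ i) =
      MonoidAlgebra.single (FreeMonoid.of i) 1 := by
    simp [FreeAlgebra.equivMonoidAlgebraFreeMonoid, MonoidAlgebra.of]
  rw [h1]
  by_cases h : i = j
  · subst h
    rw [if_pos rfl, MonoidAlgebra.coeff_single_mul_mul, one_mul]
  · rw [if_neg h, MonoidAlgebra.coeff_single_mul_of_forall_mul_ne]
    intro d hd
    have := congrArg (fun z : FreeMonoid Bool => z.toList.head?) hd
    simp at this
    exact h this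

lemma split (P Q : AB) (h : va * P + vb * Q = 0) : P = 0 ∧ Q = 0 := by
  have h1 : ∀ j w, co (va * P + vb * Q) (FreeMonoid.of j * w) =
      (if false = j then co P w else 0) + (if true = j then co Q w else 0) := by
    intro j w
    rw [co_add]
    unfold va vb
    rw [co_var, co_var]
  have h0 : ∀ w, co (0 : AB) w = 0 := by
    intro w
    unfold co
    rw [map_zero]
    rfl
  constructor
  · apply co_ext
    intro w
    have := h1 false w
    rw [h, h0] at this
    simpa using this.symm
  · apply co_ext
    intro w
    have := h1 true w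
    rw [h, h0] at this
    simpa using this.symm

lemma split_cd (P Q : AB) (h : vc * P + vd * Q = 0) : P = 0 ∧ Q = 0 := by
  have h1 : va * (P + vb * Q) + vb * (P + va * Q) = 0 := by
    rw [← h]
    unfold vc vd
    noncomm_ring
  obtain ⟨h2, h3⟩ := split _ _ h1
  have h4 : va * Q + vb * (-Q) = 0 := by
    have : va * Q + vb * (-Q) = (P + va * Q) - (P + vb * Q) := by noncomm_ring
    rw [this, h2, h3, sub_zero]
  have h5 := (split _ _ h4).1
  rw [h5, mul_zero, add_zero] at h2
  exact ⟨h2, h5⟩

lemma smul_one_eq (k : ℤ) (h : k • (1 : AB) = 0) : k = 0 := by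
  have h1 : (FreeAlgebra.equivMonoidAlgebraFreeMonoid (R := ℤ) (X := Bool)
      (k • (1 : AB))).coeff 1 = 0 := by
    rw [h, map_zero]
    rfl
  have h2 : FreeAlgebra.equivMonoidAlgebraFreeMonoid (R := ℤ) (X := Bool) (k • (1 : AB)) =
      k • (1 : MonoidAlgebra ℤ (FreeMonoid Bool)) := by
    rw [map_zsmul]
    congr 1
    exact map_one (FreeAlgebra.equivMonoidAlgebraFreeMonoid (R := ℤ) (X := Bool))
  rw [h2, MonoidAlgebra.coeff_smul_apply, MonoidAlgebra.coeff_one_one] at h1
  simpa using h1

lemma ev_inj (n : ℕ) : ∀ X : Fn, ev vc vd n X = 0 → ∀ w, deg w = n → X w = 0 := by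
  induction n using Nat.strong_induction_on with
  | _ n ih =>
    intro X h w hw
    match n with
    | 0 =>
      rw [ev_zero] at h
      have := smul_one_eq _ h
      match w with
      | [] => exact this
      | false :: w => rw [deg_c] at hw; omega
      | true :: w => rw [deg_d] at hw; omega
    | 1 =>
      rw [ev_one] at h
      have h1 : vc * (X [false] • 1) + vd * 0 = 0 := by
        rw [mul_zero, add_zero, mul_smul_comm, mul_one, h]
      have := smul_one_eq _ (split_cd _ _ h1).1
      match w with
      | [] => rw [deg_nil] at hw; omega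
      | false :: w =>
        rw [deg_c] at hw
        match w with
        | [] => exact this
        | false :: w => rw [deg_c] at hw; omega
        | true :: w => rw [deg_d] at hw; omega
      | true :: w => rw [deg_d] at hw; omega
    | n + 2 =>
      rw [ev_two] at h
      obtain ⟨h1, h2⟩ := split_cd _ _ h
      match w with
      | [] => rw [deg_nil] at hw; omega
      | false :: w =>
        rw [deg_c] at hw
        exact ih (n + 1) (by omega) (tl false X) h1 w (by omega)
      | true :: w =>
        rw [deg_d] at hw
        exact ih n (by omega) (tl true X) h2 w (by omega)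

end inject

/-- cd-index: coefficients of a homogeneous cd-polynomial of degree `n` with value `P` -/
def IsCd (n : ℕ) (P : AB) (φ : List Bool →₀ ℤ) : Prop :=
  (∀ w ∈ φ.support, deg w = n) ∧ φ.sum (fun w k => k • val w) = P

lemma sum_eq_ev (n : ℕ) (φ : List Bool →₀ ℤ) (h : ∀ w ∈ φ.support, deg w = n) :
    φ.sum (fun w k => k • val w) = ev vc vd n φ := by
  rw [ev_words, Finsupp.sum]
  refine Finset.sum_subset ?_ ?_
  · intro w hw
    exact (mem_words n w).2 (h w hw)
  · intro w _ hw
    rw [Finsupp.notMem_support_iff.1 hw, zero_smul]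

lemma isCd_unique (n : ℕ) (P : AB) (φ ψ : List Bool →₀ ℤ) (h1 : IsCd n P φ) (h2 : IsCd n P ψ) :
    φ = ψ := by
  have e1 := sum_eq_ev n φ h1.1
  have e2 := sum_eq_ev n ψ h2.1
  rw [h1.2] at e1
  rw [h2.2] at e2
  have h3 : ev vc vd n (fun w => φ w + (-1) * ψ w) = 0 := by
    rw [ev_add, ev_smul, ← e1, ← e2, neg_one_zsmul, add_neg_cancel]
  have h4 := ev_inj n _ h3
  ext w
  by_cases hw : deg w = n
  · have := h4 w hw
    linarith
  · have a1 : φ w = 0 := by
      by_contra h
      exact hw (h1.1 w (Finsupp.mem_support_iff.2 h))
    have a2 : ψ w = 0 := by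
      by_contra h
      exact hw (h2.1 w (Finsupp.mem_support_iff.2 h))
    rw [a1, a2]

open Classical in
/-- the cd-index attached to a function -/
noncomputable def mk (n : ℕ) (X : Fn) : List Bool →₀ ℤ :=
  Finsupp.onFinset (words n) (fun w => if deg w = n then X w else 0) (by
    intro w hw
    rw [mem_words]
    by_contra h
    rw [if_neg h] at hw
    exact hw rfl)

lemma mk_apply (n : ℕ) (X : Fn) (w : List Bool) (hw : deg w = n) : mk n X w = X w := by
  unfold mk
  rw [Finsupp.onFinset_apply, if_pos hw]

lemma mk_isCd (n : ℕ) (X : Fn) : IsCd n (ev vc vd n X) (mk n X) := by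
  have h1 : ∀ w ∈ (mk n X).support, deg w = n := by
    intro w hw
    rw [Finsupp.mem_support_iff] at hw
    by_contra h
    apply hw
    unfold mk
    rw [Finsupp.onFinset_apply, if_neg h]
  refine ⟨h1, ?_⟩
  rw [sum_eq_ev n _ h1, ev_words, ev_words]
  refine Finset.sum_congr rfl fun w hw => ?_
  rw [mk_apply n X w ((mem_words n w).1 hw)]

end Pool.Agent.H252R2.CDUniq
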