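import Pool.Agent.Helper611.UVal

set_option autoImplicit false
set_option linter.unusedSectionVars false
set_option linter.unnecessarySimpa false

/-! The algebra of functions on the facets generated by the coordinates of a point. -/

namespace Pool.Agent.H252R2.Lef1

open Pool.Agent.Helper611 Pool.Agent.Helper611.ZBase Pool.Agent.Helper611.KVal
  Pool.Agent.Helper611.UStr

section mono
variable {V : Type} [Fintype V] [LinearOrder V]

/-- squarefree monomials -/
noncomputable def ind (σ : Finset V) : V →₀ ℕ := ∑ v ∈ σ, Finsupp.single v 1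

lemma ind_apply (σ : Finset V) (w : V) : ind σ w = if w ∈ σ then 1 else 0 := by
  unfold ind
  rw [Finsupp.finsetSum_apply]
  by_cases h : w ∈ σ
  · rw [if_pos h, Finset.sum_eq_single_of_mem w h]
    · simp
    · intro b _ hb
      simp [hb]
  · rw [if_neg h]
    refine Finset.sum_eq_zero fun b hb => ?_
    rw [Finsupp.single_apply, if_neg]
    rintro rfl
    exact h hb

lemma ind_insert (σ : Finset V) (x : V) (hx : x ∉ σ) :
    ind (insert x σ) = ind σ + Finsupp.single x 1 := by
  unfold ind
  rw [Finset.sum_insert hx, add_comm]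

lemma ind_degree (σ : Finset V) : (ind σ).degree = σ.card := by
  unfold ind
  rw [map_sum]
  simp [Finsupp.degree_single]

lemma ind_support (σ : Finset V) : (ind σ).support = σ := by
  ext w
  rw [Finsupp.mem_support_iff, ind_apply]
  by_cases h : w ∈ σ
  · simp [h]
  · simp [h]

lemma eq_ind (m : V →₀ ℕ) (h : ∀ v, m v ≤ 1) : m = ind m.support := by
  ext w
  rw [ind_apply]
  have := h w
  by_cases hw : w ∈ m.support
  · rw [if_pos hw]
    have := Finsupp.mem_support_iff.1 hw
    omega
  · rw [if_neg hw]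
    exact Finsupp.notMem_support_iff.1 hw

end mono

section uniqueness
variable {V : Type} [Fintype V] [LinearOrder V] {K : Type} [Field K] {d : ℕ}
  {Γ : Cx V} {p : V → (Fin d → K)} {φ : Finset V → V → Module.Dual K (Fin d → K)}

/-- a function on monomials satisfying the linear relations is determined by its values on
squarefree monomials -/
lemma mono_zero (hφ : Coord Γ p φ) (t : ℕ) (T : (V →₀ ℕ) → K)
    (h1 : ∀ m : V →₀ ℕ, m.degree = t → m.support ∉ Γ.faces → T m = 0)
    (h2 : ∀ m : V →₀ ℕ, m.degree + 1 = t → ∀ η : Module.Dual K (Fin d → K),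
      ∑ v, η (p v) * T (m + Finsupp.single v 1) = 0)
    (h3 : ∀ σ : Finset V, σ ∈ Γ.faces → σ.card = t → T (ind σ) = 0) :
    ∀ m : V →₀ ℕ, m.degree = t → T m = 0 := by
  have key : ∀ n : ℕ, ∀ m : V →₀ ℕ, m.degree = t → Fintype.card V ≤ m.support.card + n →
      T m = 0 := by
    intro n
    induction n using Nat.strong_induction_on with
    | _ n ih =>
      intro m hm hn
      by_cases hs : m.support ∈ Γ.faces
      · by_cases hv : ∀ v, m v ≤ 1
        · have h4 := eq_ind m hv
          rw [h4]
          refine h3 _ hs ?_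
          rw [← ind_degree, ← h4, hm]
        · push Not at hv
          obtain ⟨v, hv⟩ := hv
          have hvs : v ∈ m.support := Finsupp.mem_support_iff.2 (by omega)
          obtain ⟨m', hm'⟩ : ∃ m' : V →₀ ℕ, m = m' + Finsupp.single v 1 := by
            refine ⟨m - Finsupp.single v 1, ?_⟩
            ext w
            rw [Finsupp.add_apply, Finsupp.tsub_apply]
            by_cases hw : w = v
            · subst hw
              rw [Finsupp.single_eq_same]; omega
            · rw [Finsupp.single_eq_of_ne hw]; omega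
          have hm'v : ∀ w, m' w ≠ 0 ↔ w ∈ m.support := by
            intro w
            rw [Finsupp.mem_support_iff, hm', Finsupp.add_apply]
            by_cases hw : w = v
            · subst hw
              rw [hm', Finsupp.add_apply, Finsupp.single_eq_same] at hv
              rw [Finsupp.single_eq_same]
              constructor
              · intro _; omega
              · intro _; omega
            · rw [Finsupp.single_eq_of_ne hw, add_zero]
          have hd : m'.degree + 1 = t := by
            rw [← hm, hm', map_add, Finsupp.degree_single]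
          have h5 := h2 m' hd (φ m.support v)
          rw [Finset.sum_eq_single_of_mem v (Finset.mem_univ _)] at h5
          · rw [hφ.one _ hs v hvs, one_mul, ← hm'] at h5
            exact h5
          · intro x _ hx
            by_cases hxs : x ∈ m.support
            · rw [hφ.zero _ hs v hvs x hxs hx, zero_mul]
            · have h6 : (m' + Finsupp.single x 1).support = insert x m.support := by
                ext w
                rw [Finsupp.mem_support_iff, Finset.mem_insert, Finsupp.add_apply, ← hm'v w]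
                by_cases hw : w = x
                · subst hw
                  rw [Finsupp.single_eq_same]
                  constructor
                  · intro _; exact Or.inl rfl
                  · intro _; omega
                · rw [Finsupp.single_eq_of_ne hw, add_zero]
                  constructor
                  · intro h; exact Or.inr h
                  · rintro (h | h)
                    · exact absurd h hw
                    · exact h
              have h7 : T (m' + Finsupp.single x 1) = 0 := by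
                have h8 : (m' + Finsupp.single x 1).support.card = m.support.card + 1 := by
                  rw [h6, Finset.card_insert_of_notMem hxs]
                have h9 : (m' + Finsupp.single x 1).support.card ≤ Fintype.card V :=
                  Finset.card_le_univ _
                refine ih (n - 1) (by omega) _ ?_ (by omega)
                rw [map_add, Finsupp.degree_single, hd]
              rw [h7, mul_zero]
      · exact h1 m hm hs
  intro m hm
  exact key (Fintype.card V) m hm (by omega)

end uniqueness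

section algebra
variable {V : Type} [Fintype V] [LinearOrder V] {K : Type} [Field K] {d : ℕ}

/-- the faces with `d` vertices -/
abbrev Fc (Γ : Cx V) (d : ℕ) : Type := {F : Finset V // F ∈ Γ.faces ∧ F.card = d}

/-- functions on the facets -/
abbrev Rg (Γ : Cx V) (d : ℕ) (K : Type) : Type := Fc Γ d → K

/-- coordinates of `e` in the bases given by the facets -/
noncomputable def xx (Γ : Cx V) (φ : Finset V → V → Module.Dual K (Fin d → K)) (e : Fin d → K)
    (v : V) : Rg Γ d K := fun F => if v ∈ F.1 then φ F.1 v e else 0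

variable {Γ : Cx V} {p : V → (Fin d → K)} {φ : Finset V → V → Module.Dual K (Fin d → K)}
  {e : Fin d → K}

lemma span_top (hφ : Coord Γ p φ) (F : Finset V) (hF : F ∈ Γ.faces) (hc : F.card = d) :
    Submodule.span K (p '' (F : Set V)) = ⊤ := by
  have hli : LinearIndependent K (fun v : F => p v.1) := by
    rw [Fintype.linearIndependent_iff]
    intro g hg i
    have h1 := uniq hφ F hF (fun v => if h : v ∈ F then g ⟨v, h⟩ else 0) (by
      rw [← hg, ← Finset.sum_coe_sort F]
      refine Finset.sum_congr rfl fun v _ => ?_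
      rw [dif_pos v.2]) i.1 i.2
    simpa using h1
  have h2 : Fintype.card F = Module.finrank K (Fin d → K) := by
    rw [Fintype.card_coe, hc, frk]
  have h3 := hli.span_eq_top_of_card_eq_finrank' h2
  rw [← h3]
  congr 1
  ext w
  constructor
  · rintro ⟨v, hv, rfl⟩
    exact ⟨⟨v, hv⟩, rfl⟩
  · rintro ⟨v, rfl⟩
    exact ⟨v.1, v.2, rfl⟩

/-- the linear relations -/
lemma theta (hφ : Coord Γ p φ) (η : Module.Dual K (Fin d → K)) :
    ∑ v, η (p v) • xx Γ φ e v = η e • (1 : Rg Γ d K) := by
  funext F
  rw [Finset.sum_apply]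
  have h1 : ∀ v, (η (p v) • xx Γ φ e v) F = if v ∈ F.1 then η (φ F.1 v e • p v) else 0 := by
    intro v
    rw [Pi.smul_apply]
    unfold xx
    by_cases h : v ∈ F.1
    · rw [if_pos h, if_pos h, map_smul, smul_eq_mul, smul_eq_mul, mul_comm]
    · rw [if_neg h, if_neg h, smul_zero]
  rw [Finset.sum_congr rfl fun v _ => h1 v, Finset.sum_ite_mem, Finset.univ_inter, ← map_sum,
    expand hφ F.1 F.2.1 e (by rw [span_top hφ F.1 F.2.1 F.2.2]; trivial), Pi.smul_apply,
    Pi.one_apply, smul_eq_mul, mul_one]

/-- monomials -/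
noncomputable def xm (Γ : Cx V) (φ : Finset V → V → Module.Dual K (Fin d → K)) (e : Fin d → K)
    (m : V →₀ ℕ) : Rg Γ d K := m.prod fun v k => xx Γ φ e v ^ k

lemma xm_add (m m' : V →₀ ℕ) : xm Γ φ e (m + m') = xm Γ φ e m * xm Γ φ e m' := by
  unfold xm
  exact Finsupp.prod_add_index' (fun v => pow_zero _) (fun v a b => pow_add _ _ _)

lemma xm_zero : xm Γ φ e 0 = 1 := by
  unfold xm
  exact Finsupp.prod_zero_index

lemma xm_single (v : V) : xm Γ φ e (Finsupp.single v 1) = xx Γ φ e v := by
  unfold xm
  exact (Finsupp.prod_single_index (h := fun v k => xx Γ φ e v ^ k) (pow_zero _)).trans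
    (pow_one _)

lemma xm_out (m : V →₀ ℕ) (F : Fc Γ d) (h : ¬ m.support ⊆ F.1) : xm Γ φ e m F = 0 := by
  obtain ⟨v, h1, h2⟩ := Finset.not_subset.1 h
  unfold xm
  rw [Finsupp.prod, Finset.prod_apply]
  refine Finset.prod_eq_zero h1 ?_
  rw [Pi.pow_apply]
  unfold xx
  rw [if_neg h2, zero_pow (Finsupp.mem_support_iff.1 h1)]

lemma xm_not (m : V →₀ ℕ) (h : m.support ∉ Γ.faces) : xm Γ φ e m = 0 := by
  funext F
  exact xm_out m F fun h2 => h (Γ.down _ F.2.1 _ h2)

/-- the filtration -/
noncomputable def NN (Γ : Cx V) (φ : Finset V → V → Module.Dual K (Fin d → K)) (e : Fin d → K)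
    (t : ℕ) : Submodule K (Rg Γ d K) := Submodule.span K {x | ∃ m : V →₀ ℕ, m.degree = t ∧ xm Γ φ e m = x}

lemma xm_mem (m : V →₀ ℕ) : xm Γ φ e m ∈ NN Γ φ e m.degree :=
  Submodule.subset_span ⟨m, rfl, rfl⟩

lemma NN_mul (s t : ℕ) (x y : Rg Γ d K) (hx : x ∈ NN Γ φ e s) (hy : y ∈ NN Γ φ e t) :
    x * y ∈ NN Γ φ e (s + t) := by
  induction hx using Submodule.span_induction with
  | mem x hx =>
    obtain ⟨m, hm, rfl⟩ := hx
    induction hy using Submodule.span_induction with
    | mem y hy =>
      obtain ⟨m', hm', rfl⟩ := hy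
      rw [← xm_add, ← hm, ← hm', ← map_add]
      exact xm_mem _
    | zero => rw [mul_zero]; exact Submodule.zero_mem _
    | add a b _ _ ha hb => rw [mul_add]; exact Submodule.add_mem _ ha hb
    | smul r a _ ha => rw [mul_smul_comm]; exact Submodule.smul_mem _ _ ha
  | zero => rw [zero_mul]; exact Submodule.zero_mem _
  | add a b _ _ ha hb => rw [add_mul]; exact Submodule.add_mem _ ha hb
  | smul r a _ ha => rw [smul_mul_assoc]; exact Submodule.smul_mem _ _ ha

lemma xx_mem (v : V) : xx Γ φ e v ∈ NN Γ φ e 1 := by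
  have := xm_mem (Γ := Γ) (φ := φ) (e := e) (Finsupp.single v 1)
  rwa [xm_single, Finsupp.degree_single] at this

lemma one_mem (hφ : Coord Γ p φ) (he : e ≠ 0) : (1 : Rg Γ d K) ∈ NN Γ φ e 1 := by
  obtain ⟨k, hk⟩ : ∃ k, e k ≠ 0 := by
    by_contra h
    push Not at h
    exact he (funext h)
  have h1 := theta (e := e) hφ (LinearMap.proj k : (Fin d → K) →ₗ[K] K)
  have h2 : (LinearMap.proj k : (Fin d → K) →ₗ[K] K) e = e k := rfl
  rw [h2] at h1
  have h3 : (1 : Rg Γ d K) = (e k)⁻¹ • ∑ v, (LinearMap.proj k : (Fin d → K) →ₗ[K] K) (p v) •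
      xx Γ φ e v := by
    rw [h1, smul_smul, inv_mul_cancel₀ hk, one_smul]
  rw [h3]
  exact Submodule.smul_mem _ _ (Submodule.sum_mem _ fun v _ => Submodule.smul_mem _ _ (xx_mem v))

lemma NN_step (hφ : Coord Γ p φ) (he : e ≠ 0) (t : ℕ) : NN Γ φ e t ≤ NN Γ φ e (t + 1) := by
  intro x hx
  have := NN_mul t 1 x 1 hx (one_mem hφ he)
  rwa [mul_one] at this

lemma NN_mono (hφ : Coord Γ p φ) (he : e ≠ 0) {s t : ℕ} (h : s ≤ t) : NN Γ φ e s ≤ NN Γ φ e t := by
  induction t, h using Nat.le_induction with
  | base => exact le_rfl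
  | succ t _ ih => exact ih.trans (NN_step hφ he t)

/-- the shifted filtration -/
noncomputable def MM (Γ : Cx V) (φ : Finset V → V → Module.Dual K (Fin d → K)) (e : Fin d → K) :
    ℕ → Submodule K (Rg Γ d K)
  | 0 => ⊥
  | (t + 1) => NN Γ φ e t

lemma MM_zero : MM Γ φ e 0 = ⊥ := rfl
lemma MM_succ (t : ℕ) : MM Γ φ e (t + 1) = NN Γ φ e t := rfl

lemma MM_step (hφ : Coord Γ p φ) (he : e ≠ 0) (t : ℕ) : MM Γ φ e t ≤ MM Γ φ e (t + 1) := by
  match t with
  | 0 => exact bot_le
  | t + 1 => exact NN_step hφ he t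

/-- the functional of a squarefree function -/
noncomputable def stf (Γ : Cx V) (φ : Finset V → V → Module.Dual K (Fin d → K)) (e : Fin d → K)
    (t : ℕ) : Module.Dual K (Rg Γ d K) →ₗ[K] (Finset V → K) where
  toFun := fun T σ => if σ.card = t then T (xm Γ φ e (ind σ)) else 0
  map_add' := by
    intro a b
    funext σ
    by_cases h : σ.card = t
    · simp only [if_pos h, Pi.add_apply, LinearMap.add_apply]
    · simp only [if_neg h, Pi.add_apply, add_zero]
  map_smul' := by
    intro r a
    funext σ
    by_cases h : σ.card = t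
    · simp only [if_pos h, Pi.smul_apply, LinearMap.smul_apply, RingHom.id_apply]
    · simp only [if_neg h, Pi.smul_apply, RingHom.id_apply, smul_zero]

lemma stf_pos (t : ℕ) (T : Module.Dual K (Rg Γ d K)) (σ : Finset V) (h : σ.card = t) :
    stf Γ φ e t T σ = T (xm Γ φ e (ind σ)) := if_pos h

lemma stf_neg (t : ℕ) (T : Module.Dual K (Rg Γ d K)) (σ : Finset V) (h : σ.card ≠ t) :
    stf Γ φ e t T σ = 0 := if_neg h

lemma rel_T (hφ : Coord Γ p φ) (t : ℕ) (T : Module.Dual K (Rg Γ d K))
    (hT : ∀ x ∈ MM Γ φ e t, T x = 0) (m : V →₀ ℕ) (hm : m.degree + 1 = t)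
    (η : Module.Dual K (Fin d → K)) :
    ∑ v, η (p v) * T (xm Γ φ e (m + Finsupp.single v 1)) = 0 := by
  subst hm
  have h1 : ∑ v, η (p v) * T (xm Γ φ e (m + Finsupp.single v 1)) =
      T (xm Γ φ e m * ∑ v, η (p v) • xx Γ φ e v) := by
    rw [Finset.mul_sum, map_sum]
    refine Finset.sum_congr rfl fun v _ => ?_
    rw [xm_add, xm_single, mul_smul_comm, map_smul, smul_eq_mul]
  rw [h1, theta hφ, mul_smul_comm, mul_one, map_smul, hT _ (by rw [MM_succ]; exact xm_mem m),
    smul_zero]

lemma stf_St (hφ : Coord Γ p φ) (t : ℕ) (T : Module.Dual K (Rg Γ d K))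
    (hT : ∀ x ∈ MM Γ φ e t, T x = 0) : stf Γ φ e t T ∈ St Γ p t := by
  refine ⟨fun σ hσ => ?_, fun ρ hρ => ?_⟩
  · by_cases h : σ.card = t
    · refine ⟨?_, h⟩
      rw [stf_pos t T σ h] at hσ
      by_contra h2
      rw [xm_not _ (by rwa [ind_support]), map_zero] at hσ
      exact hσ rfl
    · exact absurd (stf_neg t T σ h) hσ
  · by_cases hc : ρ.card + 1 = t
    · refine mem_span_of hφ ρ hρ _ fun ψ hψ => ?_
      have h1 := rel_T hφ t T hT (ind ρ) (by rw [ind_degree, hc]) ψ
      rw [map_sum, ← h1, ← Finset.sum_add_sum_compl ρ]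
      have h2 : ∑ v ∈ ρ, ψ (p v) * T (xm Γ φ e (ind ρ + Finsupp.single v 1)) = 0 :=
        Finset.sum_eq_zero fun v hv => by rw [hψ v hv, zero_mul]
      rw [h2, zero_add]
      refine Finset.sum_congr rfl fun v hv => ?_
      have hv' := Finset.mem_compl.1 hv
      rw [stf_pos t T _ (by rw [Finset.card_insert_of_notMem hv', hc]), ind_insert _ _ hv',
        map_smul, smul_eq_mul, mul_comm]
    · rw [Finset.sum_eq_zero]
      · exact Submodule.zero_mem _
      · intro v hv
        rw [stf_neg t T _ (by rwa [Finset.card_insert_of_notMem (Finset.mem_compl.1 hv)]),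
          zero_smul]

lemma stf_ker (hφ : Coord Γ p φ) (t : ℕ) (T : Module.Dual K (Rg Γ d K))
    (hT : ∀ x ∈ MM Γ φ e t, T x = 0) (h0 : stf Γ φ e t T = 0) :
    ∀ x ∈ MM Γ φ e (t + 1), T x = 0 := by
  have h1 := mono_zero hφ t (fun m => T (xm Γ φ e m)) (fun m _ hs => by rw [xm_not m hs, map_zero])
    (fun m hm η => rel_T hφ t T hT m hm η) (fun σ _ hc => by
      show T (xm Γ φ e (ind σ)) = 0
      rw [← stf_pos t T σ hc, h0]; rfl)
  intro x hx
  rw [MM_succ] at hx
  induction hx using Submodule.span_induction with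
  | mem x hx =>
    obtain ⟨m, hm, rfl⟩ := hx
    exact h1 m hm
  | zero => exact map_zero T
  | add a b _ _ ha hb => rw [map_add, ha, hb, add_zero]
  | smul r a _ ha => rw [map_smul, ha, smul_zero]

lemma MM_finrank (hφ : Coord Γ p φ) (t : ℕ) :
    Module.finrank K (MM Γ φ e (t + 1)) ≤ Module.finrank K (MM Γ φ e t) +
      Module.finrank K (St Γ p t) := by
  have h1 := Subspace.finrank_add_finrank_dualAnnihilator_eq (MM Γ φ e t)
  have h2 := Subspace.finrank_add_finrank_dualAnnihilator_eq (MM Γ φ e (t + 1))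
  have h3 := KDim.fr_map K (stf Γ φ e t) (MM Γ φ e t).dualAnnihilator
  have h4 : (MM Γ φ e t).dualAnnihilator.map (stf Γ φ e t) ≤ St Γ p t := by
    rintro l ⟨T, hT, rfl⟩
    exact stf_St hφ t T fun x hx => (Submodule.mem_dualAnnihilator T).1 hT x hx
  have h5 := Submodule.finrank_mono h4
  have h6 : ((MM Γ φ e t).dualAnnihilator ⊓ LinearMap.ker (stf Γ φ e t) : Submodule K _) ≤
      (MM Γ φ e (t + 1)).dualAnnihilator := by
    rintro T ⟨hT, hT'⟩
    rw [Submodule.mem_dualAnnihilator]
    exact stf_ker hφ t T (fun x hx => (Submodule.mem_dualAnnihilator T).1 hT x hx) hT'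
  have h7 := Submodule.finrank_mono h6
  omega

/-- nondegeneracy of the coordinates -/
def Nz (Γ : Cx V) (φ : Finset V → V → Module.Dual K (Fin d → K)) (e : Fin d → K) : Prop :=
  ∀ F ∈ Γ.faces, F.card = d → ∀ v ∈ F, φ F v e ≠ 0

lemma xm_facet (hz : Nz Γ φ e) (F : Fc Γ d) : ∃ r : K, r ≠ 0 ∧
    xm Γ φ e (ind F.1) = r • Pi.single F (1 : K) := by
  refine ⟨xm Γ φ e (ind F.1) F, ?_, ?_⟩
  · unfold xm
    rw [Finsupp.prod, Finset.prod_apply, ind_support]
    refine Finset.prod_ne_zero_iff.2 fun v hv => ?_
    rw [Pi.pow_apply]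
    unfold xx
    rw [if_pos hv]
    exact pow_ne_zero _ (hz F.1 F.2.1 F.2.2 v hv)
  · funext F'
    by_cases h : F' = F
    · subst h
      rw [Pi.smul_apply, Pi.single_eq_same, smul_eq_mul, mul_one]
    · rw [Pi.smul_apply, Pi.single_eq_of_ne h, smul_zero]
      apply xm_out
      rw [ind_support]
      intro h2
      apply h
      apply Subtype.ext
      exact (Finset.eq_of_subset_of_card_le h2 (by rw [F.2.2, F'.2.2])).symm

lemma NN_top (hz : Nz Γ φ e) : NN Γ φ e d = ⊤ := by
  rw [eq_top_iff]
  intro f _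
  have h1 : f = ∑ F, f F • (Pi.single F (1 : K) : Rg Γ d K) := by
    funext G
    rw [Finset.sum_apply, Finset.sum_eq_single_of_mem G (Finset.mem_univ _)]
    · rw [Pi.smul_apply, Pi.single_eq_same, smul_eq_mul, mul_one]
    · intro F _ hF
      rw [Pi.smul_apply, Pi.single_eq_of_ne (Ne.symm hF), smul_zero]
  rw [h1]
  refine Submodule.sum_mem _ fun F _ => Submodule.smul_mem _ _ ?_
  obtain ⟨r, hr, h2⟩ := xm_facet hz F
  have h3 : (Pi.single F (1 : K) : Rg Γ d K) = r⁻¹ • xm Γ φ e (ind F.1) := by
    rw [h2, smul_smul, inv_mul_cancel₀ hr, one_smul]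
  rw [h3]
  refine Submodule.smul_mem _ _ ?_
  have h4 := xm_mem (Γ := Γ) (φ := φ) (e := e) (ind F.1)
  rwa [ind_degree, F.2.2] at h4

end algebra

end Pool.Agent.H252R2.Lef1
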