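import Pool.Agent.H252R2.Lef1

set_option autoImplicit false
set_option linter.unusedSectionVars false
set_option linter.unnecessarySimpa false

/-! Poincare duality for the filtration. -/

namespace Pool.Agent.H252R2.Lef2

open Pool.Agent.Helper611 Pool.Agent.Helper611.ZBase Pool.Agent.Helper611.KVal
  Pool.Agent.Helper611.UStr Pool.Agent.H252R2.Lef1

section pd
variable {V : Type} [Fintype V] [LinearOrder V] {K : Type} [Field K] {d : ℕ}
  {Γ : Cx V} {p : V → (Fin d → K)} {φ : Finset V → V → Module.Dual K (Fin d → K)}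
  {e : Fin d → K}

/-- dimensions of the filtration -/
lemma MM_dim (hφ : Coord Γ p φ) (hz : Nz Γ φ e) (h : ℕ → ℕ)
    (hst : ∀ t, t ≤ d → Module.finrank K (St Γ p t) ≤ h t)
    (hsum : ∑ t ∈ Finset.range (d + 1), h t = Fintype.card (Fc Γ d)) (t : ℕ) (ht : t ≤ d + 1) :
    Module.finrank K (MM Γ φ e t) = ∑ s ∈ Finset.range t, h s := by
  have h1 : ∀ t, t ≤ d + 1 → Module.finrank K (MM Γ φ e t) ≤ ∑ s ∈ Finset.range t, h s := by
    intro t
    induction t with
    | zero => intro _; rw [MM_zero, finrank_bot]; exact Nat.zero_le _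
    | succ t ih =>
      intro ht
      rw [Finset.sum_range_succ]
      have := MM_finrank (e := e) hφ t
      have := ih (by omega)
      have := hst t (by omega)
      omega
  have h2 : ∀ r t, t + r = d + 1 → Fintype.card (Fc Γ d) ≤ Module.finrank K (MM Γ φ e t) +
      ∑ s ∈ Finset.Ico t (d + 1), h s := by
    intro r
    induction r with
    | zero =>
      intro t ht
      have h3 : t = d + 1 := by omega
      subst h3
      rw [MM_succ, NN_top hz, finrank_top, Module.finrank_fintype_fun_eq_card]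
      omega
    | succ r ih =>
      intro t ht
      have h3 := ih (t + 1) (by omega)
      have h4 := MM_finrank (e := e) hφ t
      have h5 := hst t (by omega)
      rw [Finset.sum_eq_sum_Ico_succ_bot (by omega)]
      omega
  have h3 := h1 t ht
  have h4 := h2 (d + 1 - t) t (by omega)
  have h5 := Finset.sum_range_add_sum_Ico (fun s => h s) ht
  omega

/-- the degree functional -/
lemma exists_deg (hφ : Coord Γ p φ) (hz : Nz Γ φ e) (h : ℕ → ℕ)
    (hst : ∀ t, t ≤ d → Module.finrank K (St Γ p t) ≤ h t)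
    (hsum : ∑ t ∈ Finset.range (d + 1), h t = Fintype.card (Fc Γ d)) (hd1 : h d = 1)
    (l : Finset V → K) (hl : l ∈ St Γ p d) (hl0 : ∀ F ∈ Γ.faces, F.card = d → l F ≠ 0) :
    ∃ T : Module.Dual K (Rg Γ d K), (∀ x ∈ MM Γ φ e d, T x = 0) ∧
      ∀ F : Fc Γ d, T (xm Γ φ e (ind F.1)) = l F.1 := by
  have h1 := MM_dim hφ hz h hst hsum d (by omega)
  have h2 := MM_dim hφ hz h hst hsum (d + 1) le_rfl
  rw [Finset.sum_range_succ, hd1] at h2
  have h3 : MM Γ φ e d < ⊤ := by
    rw [lt_top_iff_ne_top]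
    intro h4
    have h5 : Module.finrank K (MM Γ φ e (d + 1)) ≤ Module.finrank K (MM Γ φ e d) :=
      Submodule.finrank_mono (by rw [h4]; exact le_top)
    omega
  obtain ⟨T, hT, hT2⟩ := Submodule.exists_dual_map_eq_bot_of_lt_top h3 inferInstance
  have hT3 : ∀ x ∈ MM Γ φ e d, T x = 0 := by
    intro x hx
    have : T x ∈ (MM Γ φ e d).map T := ⟨x, hx, rfl⟩
    rw [hT2] at this
    exact (Submodule.mem_bot K).1 this
  have h4 : stf Γ φ e d T ≠ 0 := by
    intro h5
    have h6 := stf_ker hφ d T hT3 h5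
    apply hT
    ext x
    have : T (LinearMap.single K (fun _ => K) x 1) = 0 := h6 _ (by rw [MM_succ, NN_top hz]; trivial)
    simpa using this
  have h5 := stf_St hφ d T hT3
  have h6 : Module.finrank K (St Γ p d) ≤ 1 := by rw [← hd1]; exact hst d le_rfl
  have h8 : ∃ F : Fc Γ d, stf Γ φ e d T F.1 ≠ 0 := by
    by_contra hcon
    push Not at hcon
    apply h4
    funext σ
    by_contra h9
    obtain ⟨h10, h11⟩ := h5.1 σ h9
    exact h9 (hcon ⟨σ, h10, h11⟩)
  obtain ⟨F0, hF0⟩ := h8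
  obtain ⟨w, hw⟩ := (finrank_le_one_iff (K := K) (V := St Γ p d)).1 h6
  obtain ⟨c1, hc1⟩ := hw ⟨_, h5⟩
  obtain ⟨c2, hc2⟩ := hw ⟨_, hl⟩
  have e1 : stf Γ φ e d T = c1 • w.1 := (congrArg Subtype.val hc1).symm
  have e2 : l = c2 • w.1 := (congrArg Subtype.val hc2).symm
  have hc1' : c1 ≠ 0 := by
    intro h9
    rw [h9, zero_smul] at e1
    exact h4 e1
  refine ⟨(c2 * c1⁻¹) • T, fun x hx => by rw [LinearMap.smul_apply, hT3 x hx, smul_zero],
    fun F => ?_⟩
  rw [LinearMap.smul_apply, ← stf_pos d T F.1 F.2.2, e1, e2, Pi.smul_apply, Pi.smul_apply,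
    smul_eq_mul, smul_eq_mul, smul_eq_mul]
  field_simp

/-- Poincare duality -/
lemma pd (hφ : Coord Γ p φ) (hz : Nz Γ φ e) (h : ℕ → ℕ)
    (hst : ∀ t, t ≤ d → Module.finrank K (St Γ p t) ≤ h t)
    (hsum : ∑ t ∈ Finset.range (d + 1), h t = Fintype.card (Fc Γ d))
    (hsym : ∀ t, t ≤ d → h t = h (d - t))
    (T : Module.Dual K (Rg Γ d K)) (hT : ∀ x ∈ MM Γ φ e d, T x = 0)
    (hT0 : ∀ F : Fc Γ d, T (xm Γ φ e (ind F.1)) ≠ 0) (i : ℕ) (hi : i ≤ d + 1)
    (g : Rg Γ d K) (hg : ∀ x ∈ MM Γ φ e (d + 1 - i), T (x * g) = 0) : g ∈ MM Γ φ e i := by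
  let B : LinearMap.BilinForm K (Rg Γ d K) := (LinearMap.mul K (Rg Γ d K)).compr₂ T
  have hB : ∀ x y, B x y = T (x * y) := fun x y => rfl
  have hker : LinearMap.ker B = ⊥ := by
    rw [LinearMap.ker_eq_bot']
    intro f hf
    funext F
    obtain ⟨r, hr, h2⟩ := xm_facet hz F
    have h3 : B f (Pi.single F (1 : K)) = 0 := by rw [hf]; rfl
    rw [hB] at h3
    have h4 : f * Pi.single F (1 : K) = f F • (Pi.single F (1 : K) : Rg Γ d K) := by
      funext G
      by_cases hG : G = F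
      · subst hG
        rw [Pi.mul_apply, Pi.smul_apply, Pi.single_eq_same, smul_eq_mul]
      · rw [Pi.mul_apply, Pi.smul_apply, Pi.single_eq_of_ne hG, mul_zero, smul_zero]
    rw [h4, map_smul, smul_eq_mul] at h3
    have h5 := hT0 F
    rw [h2, map_smul, smul_eq_mul] at h5
    have h6 : T (Pi.single F (1 : K)) ≠ 0 := fun h7 => h5 (by rw [h7, mul_zero])
    exact (mul_eq_zero.1 h3).resolve_right h6
  have h1 := LinearMap.BilinForm.finrank_add_finrank_orthogonal' (B := B)
    (MM Γ φ e (d + 1 - i))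
  have hker' : B.ker = ⊥ := hker
  rw [hker', inf_bot_eq, finrank_bot, add_zero, Module.finrank_fintype_fun_eq_card, ← hsum,
    MM_dim hφ hz h hst hsum (d + 1 - i) (by omega)] at h1
  have h2 : MM Γ φ e i ≤ B.orthogonal (MM Γ φ e (d + 1 - i)) := by
    intro x hx
    rw [LinearMap.BilinForm.mem_orthogonal_iff]
    intro y hy
    show T (y * x) = 0
    rcases Nat.eq_zero_or_pos i with h0 | h0
    · subst h0
      rw [MM_zero, Submodule.mem_bot] at hx
      rw [hx, mul_zero, map_zero]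
    · rcases Nat.eq_zero_or_pos (d + 1 - i) with h3 | h3
      · rw [h3, MM_zero, Submodule.mem_bot] at hy
        rw [hy, zero_mul, map_zero]
      · obtain ⟨a, rfl⟩ : ∃ a, i = a + 1 := ⟨i - 1, by omega⟩
        obtain ⟨b, hb⟩ : ∃ b, d + 1 - (a + 1) = b + 1 := ⟨d - a - 1, by omega⟩
        rw [hb, MM_succ] at hy
        rw [MM_succ] at hx
        have h4 := NN_mul _ _ _ _ hy hx
        have h5 : d = b + a + 1 := by omega
        apply hT
        have h7 : ∀ n, n = b + a + 1 → MM Γ φ e n = NN Γ φ e (b + a) := by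
          rintro n rfl
          rfl
        have h6 : MM Γ φ e d = NN Γ φ e (b + a) := h7 d h5
        rw [h6]
        exact h4
  have h3 : Module.finrank K (MM Γ φ e i) =
      Module.finrank K (B.orthogonal (MM Γ φ e (d + 1 - i))) := by
    rw [MM_dim hφ hz h hst hsum i hi]
    have h4 : ∑ s ∈ Finset.range i, h s = ∑ s ∈ Finset.Ico (d + 1 - i) (d + 1), h s := by
      rw [Finset.sum_Ico_eq_sum_range]
      have h5 : d + 1 - (d + 1 - i) = i := by omega
      rw [h5, ← Finset.sum_range_reflect]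
      refine Finset.sum_congr rfl fun s hs => ?_
      have hs' := Finset.mem_range.1 hs
      rw [hsym _ (by omega)]
      congr 1
      omega
    have h6 := Finset.sum_range_add_sum_Ico (fun s => h s) (show d + 1 - i ≤ d + 1 by omega)
    omega
  have h4 := Submodule.eq_of_le_of_finrank_eq h2 h3
  rw [h4, LinearMap.BilinForm.mem_orthogonal_iff]
  intro y hy
  exact hg y hy

/-- the injectivity of multiplication by `ℓ` gives the inequality -/
lemma ineq (hφ : Coord Γ p φ) (hz : Nz Γ φ e) (h : ℕ → ℕ)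
    (hst : ∀ t, t ≤ d → Module.finrank K (St Γ p t) ≤ h t)
    (hsum : ∑ t ∈ Finset.range (d + 1), h t = Fintype.card (Fc Γ d))
    (ℓ : Rg Γ d K) (hℓ : ℓ ∈ NN Γ φ e 1) (a : ℕ) (ha : a + 1 ≤ d)
    (hinj : ∀ g ∈ NN Γ φ e a, ℓ * g ∈ NN Γ φ e a → g ∈ MM Γ φ e a) : h a ≤ h (a + 1) := by
  let f : Rg Γ d K →ₗ[K] (Rg Γ d K ⧸ NN Γ φ e a) :=
    (Submodule.mkQ (NN Γ φ e a)).comp (LinearMap.mulLeft K ℓ)
  have h1 := KDim.fr_map K f (NN Γ φ e a)
  have h2 : (NN Γ φ e a ⊓ LinearMap.ker f : Submodule K _) ≤ MM Γ φ e a := by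
    rintro g ⟨hg, hg2⟩
    refine hinj g hg ?_
    have : Submodule.Quotient.mk (ℓ * g) = (0 : Rg Γ d K ⧸ NN Γ φ e a) := hg2
    exact (Submodule.Quotient.mk_eq_zero _).1 this
  have h3 : (NN Γ φ e a).map f ≤ (NN Γ φ e (a + 1)).map (Submodule.mkQ (NN Γ φ e a)) := by
    rintro _ ⟨g, hg, rfl⟩
    refine ⟨ℓ * g, ?_, rfl⟩
    rw [add_comm]
    exact NN_mul _ _ _ _ hℓ hg
  have h4 := KDim.fr_map K (Submodule.mkQ (NN Γ φ e a)) (NN Γ φ e (a + 1))
  have h5 := Submodule.finrank_mono h2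
  have h6 := Submodule.finrank_mono h3
  have h7 := MM_dim hφ hz h hst hsum a (by omega)
  have h8 := MM_dim hφ hz h hst hsum (a + 1) (by omega)
  have h9 := MM_dim hφ hz h hst hsum (a + 1 + 1) (by omega)
  rw [MM_succ] at h8 h9
  rw [Finset.sum_range_succ] at h8 h9
  rw [Finset.sum_range_succ] at h9
  have h10 : NN Γ φ e a ≤ NN Γ φ e (a + 1) ⊓ LinearMap.ker (Submodule.mkQ (NN Γ φ e a)) ∨
      ¬ (NN Γ φ e a ≤ NN Γ φ e (a + 1)) := by
    by_cases h11 : NN Γ φ e a ≤ NN Γ φ e (a + 1)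
    · exact Or.inl (le_inf h11 (by rw [Submodule.ker_mkQ]))
    · exact Or.inr h11
  rcases h10 with h10 | h10
  · have h11 := Submodule.finrank_mono h10
    omega
  · exfalso
    apply h10
    rcases eq_or_ne e 0 with he | he
    · -- then there are no facets
      have h12 : ∀ F : Fc Γ d, False := by
        intro F
        have h13 : F.1.Nonempty := Finset.card_pos.1 (by rw [F.2.2]; omega)
        obtain ⟨v, hv⟩ := h13
        have := hz F.1 F.2.1 F.2.2 v hv
        rw [he, map_zero] at this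
        exact this rfl
      intro x _
      have : x = 0 := funext fun F => (h12 F).elim
      rw [this]
      exact Submodule.zero_mem _
    · exact NN_step hφ he a

end pd

end Pool.Agent.H252R2.Lef2
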