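import Pool.Agent.H252R2.Lef2

set_option autoImplicit false
set_option linter.unusedSectionVars false
set_option linter.unnecessarySimpa false

/-! The identity in characteristic two. -/

namespace Pool.Agent.H252R2.Lef3

open Pool.Agent.Helper611 Pool.Agent.Helper611.ZBase Pool.Agent.Helper611.KVal
  Pool.Agent.Helper611.UStr Pool.Agent.H252R2.Lef1 MvPolynomial

section half
variable {V : Type} [Fintype V] [LinearOrder V]

/-- all exponents are even -/
def Ev (m : V →₀ ℕ) : Prop := ∀ v, Even (m v)

/-- half of a monomial -/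
noncomputable def hf (m : V →₀ ℕ) : V →₀ ℕ := m.mapRange (fun k => k / 2) (by simp)

lemma hf_apply (m : V →₀ ℕ) (v : V) : hf m v = m v / 2 := by
  unfold hf
  rw [Finsupp.mapRange_apply]

lemma hf_double (m : V →₀ ℕ) : hf (m + m) = m := by
  ext v
  rw [hf_apply, Finsupp.add_apply]
  omega

lemma ev_double (m : V →₀ ℕ) : Ev (m + m) := fun v => ⟨m v, by rw [Finsupp.add_apply]⟩

lemma hf_add_double (a m : V →₀ ℕ) : hf (a + a + m) = a + hf m := by
  ext v
  rw [hf_apply, Finsupp.add_apply, Finsupp.add_apply, Finsupp.add_apply, hf_apply]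
  omega

lemma ev_add_double (a m : V →₀ ℕ) : Ev (a + a + m) ↔ Ev m := by
  unfold Ev
  refine forall_congr' fun v => ?_
  rw [Finsupp.add_apply, Finsupp.add_apply, Nat.even_add]
  have : Even (a v + a v) := ⟨a v, rfl⟩
  simp [this]

lemma hf_hf (m : V →₀ ℕ) (h : Ev m) : hf m + hf m = m := by
  ext v
  obtain ⟨k, hk⟩ := h v
  rw [Finsupp.add_apply, hf_apply]
  omega

lemma hf_degree (m : V →₀ ℕ) (h : Ev m) : 2 * (hf m).degree = m.degree := by
  conv_rhs => rw [← hf_hf m h]
  rw [map_add]
  ring

end half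

section main
variable {V : Type} [Fintype V] [LinearOrder V] {K : Type} [Field K] {d : ℕ}
variable (Γ : Cx V) (φ : Finset V → V → Module.Dual K (Fin d → K)) (e : Fin d → K)

/-- evaluation of polynomials -/
noncomputable def evx : MvPolynomial V K →ₐ[K] Rg Γ d K := aeval (xx Γ φ e)

variable (T : Module.Dual K (Rg Γ d K))

/-- the degree -/
noncomputable def Dg : MvPolynomial V K →ₗ[K] K := T.comp (evx Γ φ e).toLinearMap

open Classical in
/-- values on monomials -/
noncomputable def sq (m : V →₀ ℕ) : K := if Ev m then T (xm Γ φ e (hf m)) ^ 2 else 0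

/-- the square functional -/
noncomputable def Sq : MvPolynomial V K →ₗ[K] K :=
  (MvPolynomial.basisMonomials V K).constr K (sq Γ φ e T)

variable {Γ φ e T}

lemma evx_monomial (m : V →₀ ℕ) (r : K) : evx Γ φ e (monomial m r) = r • xm Γ φ e m := by
  unfold evx xm
  rw [aeval_monomial, Algebra.smul_def]

lemma evx_X (v : V) : evx Γ φ e (X v) = xx Γ φ e v := by
  unfold evx
  rw [aeval_X]

lemma Dg_apply (f : MvPolynomial V K) : Dg Γ φ e T f = T (evx Γ φ e f) := rfl

lemma Sq_monomial (m : V →₀ ℕ) (r : K) : Sq Γ φ e T (monomial m r) = r * sq Γ φ e T m := by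
  have h1 : (monomial m r : MvPolynomial V K) = r • (MvPolynomial.basisMonomials V K) m := by
    rw [coe_basisMonomials, smul_monomial, smul_eq_mul, mul_one]
  rw [h1, map_smul, smul_eq_mul]
  unfold Sq
  rw [Module.Basis.constr_basis]

/-- squares -/
lemma Sq_sq [CharP K 2] (f : MvPolynomial V K) (m : V →₀ ℕ) :
    Sq Γ φ e T (f ^ 2 * monomial m 1) =
      sq Γ φ e T m * 0 + (open Classical in if Ev m then Dg Γ φ e T (f * monomial (hf m) 1) ^ 2 else 0) := by
  classical
  rw [mul_zero, zero_add]
  have : Fact (Nat.Prime 2) := ⟨Nat.prime_two⟩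
  induction f using MvPolynomial.induction_on' with
  | monomial u a =>
    rw [monomial_pow, monomial_mul, monomial_mul, Sq_monomial, Dg_apply, evx_monomial, map_smul,
      mul_one, mul_one, two_smul]
    unfold sq
    by_cases h : Ev m
    · rw [if_pos ((ev_add_double u m).2 h), if_pos h, hf_add_double, smul_eq_mul, mul_pow]
    · rw [if_neg (fun h2 => h ((ev_add_double u m).1 h2)), if_neg h, mul_zero]
  | add p q hp hq =>
    have h1 : (p + q) ^ 2 = p ^ 2 + q ^ 2 := add_pow_char p q 2
    rw [h1, add_mul, map_add, hp, hq, add_mul, map_add]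
    by_cases h : Ev m
    · rw [if_pos h, if_pos h, if_pos h]
      exact (add_pow_char _ _ 2).symm
    · rw [if_neg h, if_neg h, if_neg h, add_zero]

lemma Sq_sq_ev [CharP K 2] (f : MvPolynomial V K) (m : V →₀ ℕ) (h : Ev m) :
    Sq Γ φ e T (f ^ 2 * monomial m 1) = Dg Γ φ e T (f * monomial (hf m) 1) ^ 2 := by
  rw [Sq_sq, if_pos h]; ring

lemma Sq_sq_odd [CharP K 2] (f : MvPolynomial V K) (m : V →₀ ℕ) (h : ¬ Ev m) :
    Sq Γ φ e T (f ^ 2 * monomial m 1) = 0 := by
  rw [Sq_sq, if_neg h]; ring

lemma Sq_not (f : MvPolynomial V K) (m : V →₀ ℕ) (h : m.support ∉ Γ.faces) :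
    Sq Γ φ e T (f * monomial m 1) = 0 := by
  induction f using MvPolynomial.induction_on' with
  | monomial u a =>
    rw [monomial_mul, Sq_monomial]
    unfold sq
    by_cases h1 : Ev (u + m)
    · rw [if_pos h1, xm_not, map_zero]
      · ring
      · intro h2
        apply h
        refine Γ.down _ h2 _ ?_
        intro v hv
        rw [Finsupp.mem_support_iff] at hv ⊢
        have h3 := h1 v
        rw [Finsupp.add_apply] at h3
        obtain ⟨k, hk⟩ := h3
        rw [hf_apply, Finsupp.add_apply]
        omega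
    · rw [if_neg h1, mul_zero]
  | add p q hp hq => rw [add_mul, map_add, hp, hq, add_zero]

variable (p : V → (Fin d → K))

/-- the linear forms -/
noncomputable def th (k : Fin d) : MvPolynomial V K := ∑ v, (p v k) • X v

/-- the content of a word -/
noncomputable def cont {n : ℕ} (I : Fin n → V) : V →₀ ℕ := ∑ k, Finsupp.single (I k) 1

/-- the weight of a word -/
def wgt (I : Fin d → V) : K := ∏ k, p (I k) k

lemma prod_th : ∏ k, th (K := K) p k = ∑ I : Fin d → V, wgt p I • monomial (cont I) 1 := by
  unfold th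
  rw [Finset.prod_univ_sum, Fintype.piFinset_univ]
  refine Finset.sum_congr rfl fun I _ => ?_
  unfold wgt cont
  rw [Finset.prod_smul]
  congr 1
  have h1 : ∀ s : Finset (Fin d), ∏ i ∈ s, (X (I i) : MvPolynomial V K) =
      monomial (∑ k ∈ s, Finsupp.single (I k) 1) 1 := by
    intro s
    induction s using Finset.induction_on with
    | empty => rw [Finset.prod_empty, Finset.sum_empty]; rfl
    | insert a s ha ih =>
      rw [Finset.prod_insert ha, Finset.sum_insert ha, ih, X, monomial_mul, mul_one]
  exact h1 Finset.univ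

variable {p}

lemma Dg_th (hφ : Coord Γ p φ) (k : Fin d) (f : MvPolynomial V K) :
    Dg Γ φ e T (th p k * f) = e k * Dg Γ φ e T f := by
  rw [Dg_apply, Dg_apply, map_mul]
  have h1 : evx Γ φ e (th p k) = e k • (1 : Rg Γ d K) := by
    unfold th
    rw [map_sum]
    have := theta (e := e) hφ (LinearMap.proj k : (Fin d → K) →ₗ[K] K)
    have h2 : (LinearMap.proj k : (Fin d → K) →ₗ[K] K) e = e k := rfl
    rw [h2] at this
    rw [← this]
    refine Finset.sum_congr rfl fun v _ => ?_
    rw [map_smul, evx_X]; rfl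
  rw [h1, smul_mul_assoc, one_mul, map_smul, smul_eq_mul]

lemma evx_hom (n : ℕ) (f : MvPolynomial V K) (hf : f.IsHomogeneous n) :
    evx Γ φ e f ∈ NN Γ φ e n := by
  rw [f.as_sum, map_sum]
  refine Submodule.sum_mem _ fun m hm => ?_
  rw [evx_monomial]
  refine Submodule.smul_mem _ _ ?_
  have h1 := hf (mem_support_iff.1 hm)
  have h2 : m.degree = n := by
    rw [← h1, Finsupp.degree_eq_weight_one]; rfl
  rw [← h2]
  exact xm_mem m

lemma th_hom (k : Fin d) : (th p k).IsHomogeneous 1 := by
  unfold th
  refine IsHomogeneous.sum _ _ _ fun v _ => ?_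
  rw [smul_eq_C_mul]
  have := (isHomogeneous_C V (p v k)).mul (isHomogeneous_X K v)
  rwa [zero_add] at this

lemma sq_th_zero [CharP K 2] (hφ : Coord Γ p φ) (hT : ∀ x ∈ MM Γ φ e d, T x = 0) (k : Fin d)
    (g : MvPolynomial V K) (hg : g.IsHomogeneous (2 * (d - 1))) :
    Sq Γ φ e T (th p k ^ 2 * g) = 0 := by
  rw [g.as_sum, Finset.mul_sum, map_sum]
  refine Finset.sum_eq_zero fun m hm => ?_
  have h1 := hg (mem_support_iff.1 hm)
  have h2 : m.degree = 2 * (d - 1) := by
    rw [← h1, Finsupp.degree_eq_weight_one]; rfl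
  have h3 : (monomial m (coeff m g) : MvPolynomial V K) = coeff m g • monomial m 1 := by
    rw [smul_monomial, smul_eq_mul, mul_one]
  rw [h3, mul_smul_comm, map_smul]
  by_cases h : Ev m
  · rw [Sq_sq_ev _ _ h, Dg_th hφ]
    have h4 : Dg Γ φ e T (monomial (hf m) 1) = 0 := by
      rw [Dg_apply, evx_monomial, one_smul]
      apply hT
      have h5 := hf_degree m h
      have hd : 0 < d := k.pos
      have h6 : d = (hf m).degree + 1 := by omega
      have h7 : ∀ n, n = (hf m).degree + 1 → MM Γ φ e n = NN Γ φ e (hf m).degree := by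
        rintro n rfl
        rfl
      rw [h7 d h6]
      exact xm_mem _
    rw [h4]
    simp
  · rw [Sq_sq_odd _ _ h, smul_zero]

/-- the permanent of a facet -/
noncomputable def perm (p : V → (Fin d → K)) (σ : Finset V) : K :=
  open Classical in ∑ I ∈ Finset.univ.filter (fun I : Fin d → V => cont I = ind σ), wgt p I

/-- the key identity on monomials -/
lemma key_mono [CharP K 2] (hφ : Coord Γ p φ) (hT : ∀ x ∈ MM Γ φ e d, T x = 0)
    (hT2 : ∀ σ ∈ Γ.faces, σ.card = d → T (xm Γ φ e (ind σ)) = perm p σ * T (xm Γ φ e (ind σ)) ^ 2)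
    (m : V →₀ ℕ) (hm : m.degree = d) :
    T (xm Γ φ e m) = Sq Γ φ e T ((∏ k, th p k) * monomial m 1) := by
  classical
  rw [← sub_eq_zero]
  refine mono_zero hφ d (fun m => T (xm Γ φ e m) - Sq Γ φ e T ((∏ k, th p k) * monomial m 1))
    ?_ ?_ ?_ m hm
  · intro m _ hs
    show _ - _ = _
    rw [xm_not m hs, map_zero, Sq_not _ m hs, sub_zero]
  · intro m hm η
    have h1 := rel_T hφ d T hT m hm η
    have h2 : ∑ v, η (p v) * Sq Γ φ e T ((∏ k, th p k) * monomial (m + Finsupp.single v 1) 1) =
        Sq Γ φ e T ((∏ k, th p k) * ((∑ v, η (p v) • X v) * monomial m 1)) := by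
      rw [Finset.sum_mul, Finset.mul_sum, map_sum]
      refine Finset.sum_congr rfl fun v _ => ?_
      rw [smul_mul_assoc, mul_smul_comm, map_smul, smul_eq_mul, X, monomial_mul, mul_one, add_comm]
    have h3 : (∑ v, η (p v) • X v : MvPolynomial V K) =
        ∑ k, η (Pi.single k 1) • th p k := by
      unfold th
      have h4 : ∀ k : Fin d, η (Pi.single k 1) • (∑ v, p v k • X v : MvPolynomial V K) =
          ∑ v, (η (Pi.single k 1) * p v k) • X v := by
        intro k
        rw [Finset.smul_sum]
        exact Finset.sum_congr rfl fun v _ => by rw [smul_smul]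
      rw [Finset.sum_congr rfl fun k _ => h4 k, Finset.sum_comm]
      refine Finset.sum_congr rfl fun v _ => ?_
      rw [← Finset.sum_smul]
      congr 1
      have h5 : p v = ∑ k, p v k • (Pi.single k (1 : K) : Fin d → K) := by
        funext j
        rw [Finset.sum_apply, Finset.sum_eq_single_of_mem j (Finset.mem_univ _)]
        · rw [Pi.smul_apply, Pi.single_eq_same, smul_eq_mul, mul_one]
        · intro k _ hk
          rw [Pi.smul_apply, Pi.single_eq_of_ne (Ne.symm hk), smul_zero]
      conv_lhs => rw [h5]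
      rw [map_sum]
      refine Finset.sum_congr rfl fun k _ => ?_
      rw [map_smul, smul_eq_mul, mul_comm]
    have h4 : ∀ k : Fin d, Sq Γ φ e T ((∏ k, th p k) * (th p k * monomial m 1)) = 0 := by
      intro k
      have h5 : (∏ k, th p k) * (th p k * monomial m 1) =
          th p k ^ 2 * ((∏ j ∈ Finset.univ.erase k, th p j) * monomial m 1) := by
        rw [← Finset.mul_prod_erase _ _ (Finset.mem_univ k)]
        ring
      rw [h5]
      apply sq_th_zero hφ hT
      have h6 := (IsHomogeneous.prod (Finset.univ.erase k) (fun j => th p j) (fun _ => 1)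
        fun j _ => th_hom j).mul (isHomogeneous_monomial (1 : K) (rfl : m.degree = m.degree))
      have h7 : ∑ i ∈ Finset.univ.erase k, 1 + m.degree = 2 * (d - 1) := by
        rw [Finset.sum_const, Finset.card_erase_of_mem (Finset.mem_univ _), Finset.card_univ,
          Fintype.card_fin, smul_eq_mul, mul_one]
        omega
      rw [h7] at h6
      exact h6
    have h5 : Sq Γ φ e T ((∏ k, th p k) * ((∑ v, η (p v) • X v) * monomial m 1)) = 0 := by
      rw [h3, Finset.sum_mul, Finset.mul_sum, map_sum]
      refine Finset.sum_eq_zero fun k _ => ?_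
      rw [smul_mul_assoc, mul_smul_comm, map_smul, h4 k, smul_zero]
    have h6 : ∑ v, η (p v) * (T (xm Γ φ e (m + Finsupp.single v 1)) -
        Sq Γ φ e T ((∏ k, th p k) * monomial (m + Finsupp.single v 1) 1)) =
        ∑ v, η (p v) * T (xm Γ φ e (m + Finsupp.single v 1)) -
        ∑ v, η (p v) * Sq Γ φ e T ((∏ k, th p k) * monomial (m + Finsupp.single v 1) 1) := by
      rw [← Finset.sum_sub_distrib]
      exact Finset.sum_congr rfl fun v _ => by ring
    show ∑ v, η (p v) * (_ - _) = _
    rw [h6, h1, h2, h5, sub_zero]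
  · intro σ hσ hc
    show _ - _ = _
    rw [sub_eq_zero, hT2 σ hσ hc, prod_th, Finset.sum_mul, map_sum]
    unfold perm
    rw [Finset.sum_mul, Finset.sum_filter]
    refine Finset.sum_congr rfl fun I _ => ?_
    rw [smul_mul_assoc, monomial_mul, mul_one, map_smul, Sq_monomial, one_mul, smul_eq_mul]
    by_cases h : cont I = ind σ
    · rw [if_pos h, h]
      unfold sq
      rw [if_pos (ev_double _), hf_double]
    · rw [if_neg h]
      unfold sq
      rw [if_neg, mul_zero]
      intro h2
      apply h
      -- parity forces `cont I = ind σ`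
      have h3 : ∀ v, ind σ v ≤ cont I v := by
        intro v
        have h4 := h2 v
        rw [Finsupp.add_apply] at h4
        rw [ind_apply] at h4 ⊢
        by_cases hv : v ∈ σ
        · rw [if_pos hv] at h4 ⊢
          by_contra h5
          have h6 : cont I v = 0 := by omega
          rw [h6] at h4
          exact absurd h4 (by decide)
        · rw [if_neg hv]
          exact Nat.zero_le _
      have h4 : (ind σ).degree = (cont I).degree := by
        rw [ind_degree, hc]
        unfold cont
        rw [map_sum]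
        simp [Finsupp.degree_single]
      ext v
      by_contra h5
      have h6 : ind σ v < cont I v := lt_of_le_of_ne (h3 v) (Ne.symm h5)
      have h7 : (ind σ).degree < (cont I).degree := by
        rw [Finsupp.degree_eq_sum, Finsupp.degree_eq_sum]
        exact Finset.sum_lt_sum (fun v _ => h3 v) ⟨v, Finset.mem_univ _, h6⟩
      omega

/-- the key identity on homogeneous polynomials -/
lemma key_hom [CharP K 2] (hφ : Coord Γ p φ) (hT : ∀ x ∈ MM Γ φ e d, T x = 0)
    (hT2 : ∀ σ ∈ Γ.faces, σ.card = d → T (xm Γ φ e (ind σ)) = perm p σ * T (xm Γ φ e (ind σ)) ^ 2)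
    (g : MvPolynomial V K) (hg : g.IsHomogeneous d) :
    Dg Γ φ e T g = Sq Γ φ e T ((∏ k, th p k) * g) := by
  have h0 : g = ∑ m ∈ g.support, coeff m g • monomial m 1 := by
    conv_lhs => rw [g.as_sum]
    refine Finset.sum_congr rfl fun m _ => ?_
    rw [smul_monomial, smul_eq_mul, mul_one]
  rw [h0, Finset.mul_sum, map_sum, map_sum]
  refine Finset.sum_congr rfl fun m hm => ?_
  have h1 := hg (mem_support_iff.1 hm)
  have h2 : m.degree = d := by
    rw [← h1, Finsupp.degree_eq_weight_one]; rfl
  rw [map_smul, mul_smul_comm, map_smul, Dg_apply, evx_monomial, one_smul,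
    key_mono hφ hT hT2 m h2]

/-- the expansion of the degree of `ℓ g^2 m` -/
lemma expand_sq [CharP K 2] (hφ : Coord Γ p φ) (hT : ∀ x ∈ MM Γ φ e d, T x = 0)
    (hT2 : ∀ σ ∈ Γ.faces, σ.card = d → T (xm Γ φ e (ind σ)) = perm p σ * T (xm Γ φ e (ind σ)) ^ 2)
    (b : V → K) (a : ℕ) (f : MvPolynomial V K) (hf1 : f.IsHomogeneous a) (m : V →₀ ℕ)
    (hm : 2 * a + m.degree + 1 = d) :
    Dg Γ φ e T ((∑ v, b v • X v) * (f ^ 2 * monomial m 1)) =
      ∑ z : V × (Fin d → V), b z.1 * wgt p z.2 *
        (open Classical in if Ev (Finsupp.single z.1 1 + cont z.2 + m) then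
          Dg Γ φ e T (f * monomial (hf (Finsupp.single z.1 1 + cont z.2 + m)) 1) else 0) ^ 2 := by
  classical
  have h1 : ((∑ v, b v • X v : MvPolynomial V K) * (f ^ 2 * monomial m 1)).IsHomogeneous d := by
    have h2 : (∑ v, b v • X v : MvPolynomial V K).IsHomogeneous 1 := by
      refine IsHomogeneous.sum _ _ _ fun v _ => ?_
      rw [smul_eq_C_mul]
      have := (isHomogeneous_C V (b v)).mul (isHomogeneous_X K v)
      rwa [zero_add] at this
    have h3 := h2.mul ((hf1.pow 2).mul
      (isHomogeneous_monomial (1 : K) (rfl : m.degree = m.degree)))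
    have h4 : 1 + (a * 2 + m.degree) = d := by omega
    rw [h4] at h3
    exact h3
  rw [key_hom hφ hT hT2 _ h1, prod_th, Finset.sum_mul, map_sum, Fintype.sum_prod_type,
    Finset.sum_comm]
  refine Finset.sum_congr rfl fun I _ => ?_
  rw [Finset.sum_mul, Finset.mul_sum, map_sum]
  refine Finset.sum_congr rfl fun v _ => ?_
  have h5 : (wgt p I • (monomial (cont I) 1 : MvPolynomial V K)) *
      (b v • X v * (f ^ 2 * monomial m 1)) = (b v * wgt p I) •
      (f ^ 2 * monomial (Finsupp.single v 1 + cont I + m) 1) := by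
    have h6 : (monomial (Finsupp.single v 1 + cont I + m) 1 : MvPolynomial V K) =
        X v * monomial (cont I) 1 * monomial m 1 := by
      rw [X, monomial_mul, monomial_mul, mul_one, mul_one]
    rw [h6, smul_eq_C_mul, smul_eq_C_mul, smul_eq_C_mul, C_mul]
    ring
  rw [h5, map_smul, smul_eq_mul]
  congr 1
  show Sq Γ φ e T (f ^ 2 * monomial (Finsupp.single v 1 + cont I + m) 1) = _
  by_cases h : Ev (Finsupp.single v 1 + cont I + m)
  · rw [Sq_sq_ev _ _ h]
    simp only [if_pos h]
  · rw [Sq_sq_odd _ _ h]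
    simp only [if_neg h]
    ring

end main

end Pool.Agent.H252R2.Lef3
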