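import Pool.Agent.H252R2.Lef3

set_option autoImplicit false
set_option linter.unusedSectionVars false
set_option linter.unnecessarySimpa false

/-! The lower bound inequality from a generic choice. -/

namespace Pool.Agent.H252R2.Lef4

open Pool.Agent.Helper611 Pool.Agent.Helper611.ZBase Pool.Agent.Helper611.KVal
  Pool.Agent.Helper611.UStr Pool.Agent.H252R2.Lef1 Pool.Agent.H252R2.Lef2
  Pool.Agent.H252R2.Lef3 MvPolynomial

section words
variable {V : Type} [Fintype V] [LinearOrder V]

lemma cont_cons {n : ℕ} (v : V) (I : Fin n → V) :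
    cont (Fin.cons v I : Fin (n + 1) → V) = Finsupp.single v 1 + cont I := by
  unfold cont
  rw [Fin.sum_univ_succ]
  simp

lemma cont_surj (n : ℕ) : ∀ m : V →₀ ℕ, m.degree = n → ∃ I : Fin n → V, cont I = m := by
  induction n with
  | zero =>
    intro m hm
    rw [Finsupp.degree_eq_zero_iff] at hm
    refine ⟨fun i => i.elim0, ?_⟩
    rw [hm]
    unfold cont
    simp
  | succ n ih =>
    intro m hm
    obtain ⟨v, hv⟩ : ∃ v, m v ≠ 0 := by
      by_contra h
      push Not at h
      have : m = 0 := Finsupp.ext h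
      rw [this, map_zero] at hm
      omega
    obtain ⟨m', hm'⟩ : ∃ m' : V →₀ ℕ, m = Finsupp.single v 1 + m' := by
      refine ⟨m - Finsupp.single v 1, ?_⟩
      ext w
      rw [Finsupp.add_apply, Finsupp.tsub_apply]
      by_cases hw : w = v
      · subst hw
        rw [Finsupp.single_eq_same]; omega
      · rw [Finsupp.single_eq_of_ne hw]; omega
    rw [hm', map_add, Finsupp.degree_single] at hm
    obtain ⟨I, hI⟩ := ih m' (by omega)
    exact ⟨Fin.cons v I, by rw [cont_cons, hI, hm']⟩

lemma cont_degree {n : ℕ} (I : Fin n → V) : (cont I).degree = n := by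
  unfold cont
  rw [map_sum]
  simp [Finsupp.degree_single]

lemma split_deg (s t : ℕ) (m : V →₀ ℕ) (hm : m.degree = s + t) :
    ∃ m1 m2 : V →₀ ℕ, m = m1 + m2 ∧ m1.degree = s ∧ m2.degree = t := by
  obtain ⟨I, rfl⟩ := cont_surj (s + t) m hm
  refine ⟨cont (fun i => I (Fin.castAdd t i)), cont (fun i => I (Fin.natAdd s i)), ?_,
    cont_degree _, cont_degree _⟩
  unfold cont
  rw [Fin.sum_univ_add]

end words

section main
variable {V : Type} [Fintype V] [LinearOrder V] {K : Type} [Field K] {d : ℕ}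
  {Γ : Cx V} {p : V → (Fin d → K)} {φ : Finset V → V → Module.Dual K (Fin d → K)}
  {e : Fin d → K}

lemma exists_hom (a : ℕ) (g : Rg Γ d K) (hg : g ∈ NN Γ φ e a) :
    ∃ f : MvPolynomial V K, f.IsHomogeneous a ∧ evx Γ φ e f = g := by
  induction hg using Submodule.span_induction with
  | mem x hx =>
    obtain ⟨m, hm, rfl⟩ := hx
    exact ⟨monomial m 1, isHomogeneous_monomial _ hm, by rw [evx_monomial, one_smul]⟩
  | zero => exact ⟨0, isHomogeneous_zero _ _ _, map_zero _⟩
  | add x y _ _ hx hy =>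
    obtain ⟨f1, h1, h2⟩ := hx
    obtain ⟨f2, h3, h4⟩ := hy
    exact ⟨f1 + f2, h1.add h3, by rw [map_add, h2, h4]⟩
  | smul r x _ hx =>
    obtain ⟨f1, h1, h2⟩ := hx
    refine ⟨r • f1, ?_, by rw [map_smul, h2]⟩
    rw [smul_eq_C_mul]
    have := (isHomogeneous_C V r).mul h1
    rwa [zero_add] at this

/-- genericity over squares -/
def Gen (p : V → (Fin d → K)) (b : V → K) : Prop :=
  ∀ c : V × (Fin d → V) → K, ∑ z, b z.1 * wgt p z.2 * c z ^ 2 = 0 → ∀ z, c z = 0

theorem glbt_alg [CharP K 2] (hφ : Coord Γ p φ) (hz : Nz Γ φ e) (h : ℕ → ℕ)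
    (hst : ∀ t, t ≤ d → Module.finrank K (St Γ p t) ≤ h t)
    (hsum : ∑ t ∈ Finset.range (d + 1), h t = Fintype.card (Fc Γ d))
    (hsym : ∀ t, t ≤ d → h t = h (d - t)) (hd1 : h d = 1)
    (l : Finset V → K) (hl : l ∈ St Γ p d) (hl0 : ∀ F ∈ Γ.faces, F.card = d → l F * perm p F = 1)
    (b : V → K) (hgen : Gen p b) (a : ℕ) (ha : 2 * a + 1 ≤ d) : h a ≤ h (a + 1) := by
  classical
  have hl1 : ∀ F ∈ Γ.faces, F.card = d → l F ≠ 0 := by
    intro F h1 h2 h3
    have := hl0 F h1 h2
    rw [h3, zero_mul] at this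
    exact zero_ne_one this
  obtain ⟨T, hT, hTl⟩ := exists_deg hφ hz h hst hsum hd1 l hl hl1
  have hT2 : ∀ σ ∈ Γ.faces, σ.card = d →
      T (xm Γ φ e (ind σ)) = perm p σ * T (xm Γ φ e (ind σ)) ^ 2 := by
    intro σ h1 h2
    rw [hTl ⟨σ, h1, h2⟩]
    have := hl0 σ h1 h2
    linear_combination (-(l σ)) * this
  refine ineq hφ hz h hst hsum (evx Γ φ e (∑ v, b v • X v)) ?_ a (by omega) ?_
  · apply evx_hom
    refine IsHomogeneous.sum _ _ _ fun v _ => ?_
    rw [smul_eq_C_mul]
    have := (isHomogeneous_C V (b v)).mul (isHomogeneous_X K v)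
    rwa [zero_add] at this
  · intro g hg hℓg
    obtain ⟨f, hf1, hf2⟩ := exists_hom a g hg
    refine pd hφ hz h hst hsum hsym T hT (fun F => by rw [hTl]; exact hl1 F.1 F.2.1 F.2.2) a
      (by omega) g ?_
    have hMM : MM Γ φ e (d + 1 - a) = NN Γ φ e (d - a) := by
      have : ∀ n, n = d - a + 1 → MM Γ φ e n = NN Γ φ e (d - a) := by
        rintro n rfl
        rfl
      exact this _ (by omega)
    intro x hx
    rw [hMM] at hx
    induction hx using Submodule.span_induction with
    | mem x hx =>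
      obtain ⟨A, hA, rfl⟩ := hx
      obtain ⟨m1, m2, h1, h2, h3⟩ := split_deg (d + 1) (d - 1 - 2 * a) (A + A)
        (by rw [map_add, hA]; omega)
      obtain ⟨I1, hI1⟩ := cont_surj (d + 1) m1 h2
      have hI2 : m1 = Finsupp.single (I1 0) 1 + cont (fun i : Fin d => I1 i.succ) := by
        rw [← hI1, ← cont_cons]
        congr 1
        funext i
        refine Fin.cases ?_ (fun j => ?_) i
        · rfl
        · rfl
      have h4 := expand_sq hφ hT hT2 b a f hf1 m2 (by omega)
      have h5 : Dg Γ φ e T ((∑ v, b v • X v) * (f ^ 2 * monomial m2 1)) = 0 := by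
        rw [Dg_apply, map_mul (evx Γ φ e), map_mul (evx Γ φ e), map_pow (evx Γ φ e), evx_monomial,
          one_smul, hf2]
        apply hT
        have h6 : evx Γ φ e (∑ v, b v • X v) * (g ^ 2 * xm Γ φ e m2) =
            (evx Γ φ e (∑ v, b v • X v) * g) * (g * xm Γ φ e m2) := by ring
        rw [h6]
        have h7 := xm_mem (Γ := Γ) (φ := φ) (e := e) m2
        rw [h3] at h7
        have h8 := NN_mul _ _ _ _ hℓg (NN_mul _ _ _ _ hg h7)
        have h9 : MM Γ φ e d = NN Γ φ e (a + (a + (d - 1 - 2 * a))) := by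
          have : ∀ n, n = a + (a + (d - 1 - 2 * a)) + 1 →
              MM Γ φ e n = NN Γ φ e (a + (a + (d - 1 - 2 * a))) := by
            rintro n rfl
            rfl
          exact this d (by omega)
        rw [h9]
        exact h8
      rw [h5] at h4
      have h6 := hgen _ h4.symm (I1 0, fun i : Fin d => I1 i.succ)
      have h7 : Finsupp.single (I1 0) 1 + cont (fun i : Fin d => I1 i.succ) + m2 = A + A := by
        rw [← hI2, ← h1]
      simp only [h7] at h6
      rw [if_pos (ev_double A), hf_double, Dg_apply, map_mul (evx Γ φ e), evx_monomial, one_smul,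
        hf2] at h6
      rw [mul_comm]
      exact h6
    | zero => rw [zero_mul, map_zero]
    | add x y _ _ hx hy => rw [add_mul, map_add, hx, hy, add_zero]
    | smul r x _ hx => rw [smul_mul_assoc, map_smul, hx, smul_zero]

end main

end Pool.Agent.H252R2.Lef4
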