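import Pool.Agent.H252R2.Lef4

set_option autoImplicit false
set_option linter.unusedSectionVars false
set_option linter.unnecessarySimpa false

/-! Generic points in characteristic two. -/

namespace Pool.Agent.H252R2.Lef5

open Pool.Agent.H252R2.Lef1 Pool.Agent.H252R2.Lef3 Pool.Agent.H252R2.Lef4 MvPolynomial

section squares
variable {W : Type} [Fintype W] [LinearOrder W]

instance : Fact (Nat.Prime 2) := ⟨Nat.prime_two⟩

/-- coefficients of a square -/
lemma coeff_sq (n : MvPolynomial W (ZMod 2)) (u : W →₀ ℕ) :
    coeff u (n ^ 2) = (open Classical in if Ev u then coeff (hf u) n ^ 2 else 0) := by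
  classical
  induction n using MvPolynomial.induction_on' with
  | monomial v a =>
    rw [monomial_pow, coeff_monomial, coeff_monomial, two_smul]
    by_cases h : Ev u
    · rw [if_pos h]
      by_cases h2 : v + v = u
      · rw [if_pos h2, if_pos]
        rw [← h2, hf_double]
      · rw [if_neg h2, if_neg, zero_pow two_ne_zero]
        rintro h3
        apply h2
        rw [h3, hf_hf u h]
    · rw [if_neg h, if_neg]
      rintro h2
      apply h
      rw [← h2]
      exact ev_double v
  | add p q hp hq =>
    have h1 : (p + q) ^ 2 = p ^ 2 + q ^ 2 := add_pow_char p q 2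
    rw [h1, coeff_add, hp, hq, coeff_add]
    by_cases h : Ev u
    · rw [if_pos h, if_pos h, if_pos h]
      exact (add_pow_char _ _ 2).symm
    · rw [if_neg h, if_neg h, if_neg h, add_zero]

/-- squarefree monomials are independent over the squares -/
lemma indep_poly {ι : Type*} [Fintype ι] (S : ι → (W →₀ ℕ)) (hS : Function.Injective S)
    (hS1 : ∀ i w, S i w ≤ 1) (n : ι → MvPolynomial W (ZMod 2))
    (h : ∑ i, monomial (S i) 1 * n i ^ 2 = 0) : ∀ i, n i = 0 := by
  classical
  intro j
  ext m
  have h1 := congrArg (coeff (S j + (m + m))) h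
  rw [coeff_sum, Finset.sum_eq_single_of_mem j (Finset.mem_univ _), coeff_monomial_mul, one_mul,
    coeff_sq, if_pos (ev_double m), hf_double, coeff_zero] at h1
  · rw [coeff_zero]
    exact pow_eq_zero_iff (two_ne_zero) |>.1 h1
  · intro i _ hij
    rw [coeff_monomial_mul']
    by_cases hle : S i ≤ S j + (m + m)
    · rw [if_pos hle, coeff_sq, if_neg, mul_zero]
      intro hev
      apply hij
      apply hS
      ext w
      have h2 := hev w
      rw [Finsupp.tsub_apply, Finsupp.add_apply, Finsupp.add_apply] at h2
      have h3 : S i w ≤ S j w + (m w + m w) := by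
        have := hle w
        rwa [Finsupp.add_apply, Finsupp.add_apply] at this
      have h4 := hS1 i w
      have h5 := hS1 j w
      obtain ⟨k, hk⟩ := h2
      omega
    · rw [if_neg hle]

lemma indep_frac {ι : Type*} [Fintype ι] (S : ι → (W →₀ ℕ)) (hS : Function.Injective S)
    (hS1 : ∀ i w, S i w ≤ 1) (c : ι → FractionRing (MvPolynomial W (ZMod 2)))
    (h : ∑ i, algebraMap _ (FractionRing (MvPolynomial W (ZMod 2)))
      (monomial (S i) (1 : ZMod 2)) * c i ^ 2 = 0) : ∀ i, c i = 0 := by
  obtain ⟨b, hb⟩ := IsLocalization.exist_integer_multiples_of_finite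
    (nonZeroDivisors (MvPolynomial W (ZMod 2))) c
  choose n hn using hb
  have hb0 : (b : MvPolynomial W (ZMod 2)) ≠ 0 := nonZeroDivisors.coe_ne_zero b
  have hinj := IsFractionRing.injective (MvPolynomial W (ZMod 2))
    (FractionRing (MvPolynomial W (ZMod 2)))
  have h1 : ∑ i, monomial (S i) (1 : ZMod 2) * n i ^ 2 = 0 := by
    apply hinj
    rw [map_sum, map_zero]
    have h2 : ∀ i, algebraMap (MvPolynomial W (ZMod 2)) (FractionRing (MvPolynomial W (ZMod 2)))
        (monomial (S i) (1 : ZMod 2) * n i ^ 2) =
        algebraMap _ _ (b : MvPolynomial W (ZMod 2)) ^ 2 *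
        (algebraMap _ (FractionRing (MvPolynomial W (ZMod 2)))
          (monomial (S i) (1 : ZMod 2)) * c i ^ 2) := by
      intro i
      rw [map_mul, map_pow, hn i, Algebra.smul_def, mul_pow]
      ring
    rw [Finset.sum_congr rfl fun i _ => h2 i, ← Finset.mul_sum, h, mul_zero]
  have h3 := indep_poly S hS hS1 n h1
  intro i
  have h4 := hn i
  rw [h3 i, map_zero, Algebra.smul_def] at h4
  have h5 : algebraMap (MvPolynomial W (ZMod 2)) (FractionRing (MvPolynomial W (ZMod 2))) b ≠ 0 := by
    intro h6
    apply hb0
    apply hinj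
    rw [h6, map_zero]
  exact (mul_eq_zero.1 h4.symm).resolve_left h5

end squares

section generic
variable (V : Type) [Fintype V] [LinearOrder V] (d : ℕ)

/-- the variables -/
abbrev Vr : Type := Fin (Fintype.card ((Fin d × Option V) ⊕ V))

/-- enumeration of the variables -/
noncomputable def en : (Fin d × Option V) ⊕ V ≃ Vr V d := Fintype.equivFin _

/-- the generic field -/
abbrev KK : Type := FractionRing (MvPolynomial (Vr V d) (ZMod 2))

/-- generic points -/
noncomputable def gq (o : Option V) : Fin d → KK V d := fun k =>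
  algebraMap (MvPolynomial (Vr V d) (ZMod 2)) (KK V d) (X (en V d (Sum.inl (k, o))))

/-- generic coefficients -/
noncomputable def gb (v : V) : KK V d :=
  algebraMap (MvPolynomial (Vr V d) (ZMod 2)) (KK V d) (X (en V d (Sum.inr v)))

/-- exponents -/
noncomputable def SS (z : V × (Fin d → V)) : Vr V d →₀ ℕ :=
  Finsupp.single (en V d (Sum.inr z.1)) 1 +
    ∑ k, Finsupp.single (en V d (Sum.inl (k, some (z.2 k)))) 1

lemma SS_inl (z : V × (Fin d → V)) (k : Fin d) (o : Option V) :
    SS V d z (en V d (Sum.inl (k, o))) = if some (z.2 k) = o then 1 else 0 := by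
  unfold SS
  rw [Finsupp.add_apply, Finsupp.finsetSum_apply, Finsupp.single_apply, if_neg, zero_add,
    Finset.sum_eq_single_of_mem k (Finset.mem_univ _), Finsupp.single_apply]
  · by_cases h : some (z.2 k) = o
    · rw [if_pos h, if_pos (by rw [h])]
    · rw [if_neg h, if_neg]
      intro h2
      apply h
      have := (en V d).injective h2
      simpa using this
  · intro j _ hj
    rw [Finsupp.single_apply, if_neg]
    intro h2
    have := (en V d).injective h2
    simp at this
    exact hj this.1
  · intro h2
    have := (en V d).injective h2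
    simp at this

lemma SS_inr (z : V × (Fin d → V)) (v : V) :
    SS V d z (en V d (Sum.inr v)) = if z.1 = v then 1 else 0 := by
  unfold SS
  rw [Finsupp.add_apply, Finsupp.finsetSum_apply, Finsupp.single_apply, Finset.sum_eq_zero,
    add_zero]
  · by_cases h : z.1 = v
    · rw [if_pos h, if_pos (by rw [h])]
    · rw [if_neg h, if_neg]
      intro h2
      apply h
      have := (en V d).injective h2
      simpa using this
  · intro j _
    rw [Finsupp.single_apply, if_neg]
    intro h2
    have := (en V d).injective h2
    simp at this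

lemma SS_le (z : V × (Fin d → V)) (w : Vr V d) : SS V d z w ≤ 1 := by
  obtain ⟨x, rfl⟩ := (en V d).surjective w
  rcases x with ⟨k, o⟩ | v
  · rw [SS_inl]
    split_ifs <;> omega
  · rw [SS_inr]
    split_ifs <;> omega

lemma SS_inj : Function.Injective (SS V d) := by
  rintro ⟨v, I⟩ ⟨v', I'⟩ h
  have h1 : v = v' := by
    have := congrArg (fun s => s (en V d (Sum.inr v'))) h
    simp only [SS_inr] at this
    by_contra hne
    simp [hne] at this
  have h2 : I = I' := by
    funext k
    have := congrArg (fun s => s (en V d (Sum.inl (k, some (I' k))))) h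
    simp only [SS_inl] at this
    by_contra hne
    simp [hne] at this
  rw [h1, h2]

/-- the generic choice is generic over squares -/
theorem gen : Gen (fun v => gq V d (some v)) (gb V d) := by
  intro c hc
  have h1 : ∀ z : V × (Fin d → V), gb V d z.1 * wgt (fun v => gq V d (some v)) z.2 =
      algebraMap _ (KK V d) (monomial (SS V d z) (1 : ZMod 2)) := by
    intro z
    unfold gb wgt gq
    rw [← map_prod, ← map_mul]
    congr 1
    unfold SS
    have h2 : ∀ s : Finset (Fin d), ∏ k ∈ s, (X (en V d (Sum.inl (k, some (z.2 k)))) :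
        MvPolynomial (Vr V d) (ZMod 2)) =
        monomial (∑ k ∈ s, Finsupp.single (en V d (Sum.inl (k, some (z.2 k)))) 1) 1 := by
      intro s
      induction s using Finset.induction_on with
      | empty => rw [Finset.prod_empty, Finset.sum_empty]; rfl
      | insert a s ha ih =>
        rw [Finset.prod_insert ha, Finset.sum_insert ha, ih, X, monomial_mul, mul_one]
    rw [h2, X, monomial_mul, mul_one]
  refine indep_frac (SS V d) (SS_inj V d) (SS_le V d) c ?_
  rw [← hc]
  exact Finset.sum_congr rfl fun z _ => by rw [h1]

/-- generic determinants do not vanish -/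
theorem gdet (o : Fin d → Option V) (ho : Function.Injective o) :
    (Matrix.of fun j k => gq V d (o j) k).det ≠ 0 := by
  have h1 := Matrix.det_mvPolynomialX_ne_zero (Fin d) (ZMod 2)
  let f : Fin d × Fin d → Vr V d := fun x => en V d (Sum.inl (x.2, o x.1))
  have hf : Function.Injective f := by
    rintro ⟨a, b⟩ ⟨a', b'⟩ h
    have := (en V d).injective h
    simp at this
    rw [this.1, ho this.2]
  have h2 : (Matrix.of fun j k => gq V d (o j) k) =
      (algebraMap (MvPolynomial (Vr V d) (ZMod 2)) (KK V d)).mapMatrix
        ((rename (R := ZMod 2) f).toRingHom.mapMatrix (Matrix.mvPolynomialX (Fin d) (Fin d) (ZMod 2))) := by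
    ext j k
    simp only [Matrix.of_apply, RingHom.mapMatrix_apply, Matrix.map_apply,
      Matrix.mvPolynomialX_apply]
    show gq V d (o j) k = algebraMap _ _ (rename f (X (j, k)))
    rw [rename_X]
    rfl
  rw [h2, ← RingHom.map_det, ← RingHom.map_det]
  intro h3
  apply h1
  apply rename_injective f hf
  rw [map_zero]
  apply IsFractionRing.injective (MvPolynomial (Vr V d) (ZMod 2)) (KK V d)
  rw [map_zero]
  exact h3

end generic

end Pool.Agent.H252R2.Lef5
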