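import Pool.Agent.H252R2.Lef5

set_option autoImplicit false
set_option linter.unusedSectionVars false
set_option linter.unnecessarySimpa false

/-! Determinants, permanents and the top stress. -/

namespace Pool.Agent.H252R2.Lef6

open Pool.Agent.Helper611 Pool.Agent.Helper611.ZBase Pool.Agent.Helper611.KVal
  Pool.Agent.Helper611.UStr Pool.Agent.H252R2.Lef1 Pool.Agent.H252R2.Lef3 Pool.Agent.H252R2.Lef4

section duals
variable {U : Type} [Fintype U] [DecidableEq U] {K : Type} [Field K] {d : ℕ}

lemma dual_of_det (v : Fin d → (Fin d → K)) (h : (Matrix.of v).det ≠ 0) (j : Fin d) :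
    ∃ f : Module.Dual K (Fin d → K), ∀ i, f (v i) = if i = j then 1 else 0 := by
  have h1 : LinearIndependent K v := Matrix.linearIndependent_rows_of_det_ne_zero h
  rcases Nat.eq_zero_or_pos d with hd | hd
  · subst hd
    exact j.elim0
  · have : Nonempty (Fin d) := ⟨⟨0, hd⟩⟩
    let b := basisOfLinearIndependentOfCardEqFinrank h1 (by rw [Fintype.card_fin, frk])
    refine ⟨b.coord j, fun i => ?_⟩
    have h2 : v i = b i := by
      rw [coe_basisOfLinearIndependentOfCardEqFinrank]
    rw [h2, Module.Basis.coord_apply, Module.Basis.repr_self, Finsupp.single_apply]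

lemma dual_of_set (q : U → (Fin d → K))
    (hq : ∀ o : Fin d → U, Function.Injective o → (Matrix.of fun j k => q (o j) k).det ≠ 0)
    (hU : d ≤ Fintype.card U) (τ : Finset U) (hτ : τ.card ≤ d) (o : U) (ho : o ∈ τ) :
    ∃ f : Module.Dual K (Fin d → K), f (q o) = 1 ∧ ∀ x ∈ τ, x ≠ o → f (q x) = 0 := by
  obtain ⟨τ', h1, h2⟩ := Finset.exists_superset_card_eq hτ hU
  let en : Fin d ≃ τ' := (Finset.equivFinOfCardEq h2).symm
  have h3 : Function.Injective (fun j => (en j : U)) :=
    Subtype.val_injective.comp en.injective
  have h4 := hq _ h3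
  obtain ⟨f, hf⟩ := dual_of_det (fun j => q (en j : U)) h4 (en.symm ⟨o, h1 ho⟩)
  refine ⟨f, ?_, fun x hx hxo => ?_⟩
  · have := hf (en.symm ⟨o, h1 ho⟩)
    rw [if_pos rfl] at this
    simpa using this
  · have := hf (en.symm ⟨x, h1 hx⟩)
    rw [if_neg] at this
    · simpa using this
    · intro h5
      have h6 := en.symm.injective h5
      exact hxo (congrArg Subtype.val h6)

end duals

section perms
variable {V : Type} [Fintype V] [LinearOrder V] {K : Type} [Field K] {d : ℕ}

lemma cont_apply {n : ℕ} (I : Fin n → V) (v : V) :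
    cont I v = (Finset.univ.filter fun k => I k = v).card := by
  unfold cont
  rw [Finsupp.finsetSum_apply, Finset.card_filter]
  exact Finset.sum_congr rfl fun k _ => by rw [Finsupp.single_apply]

lemma cont_mem {n : ℕ} (I : Fin n → V) (σ : Finset V) (h : cont I = ind σ) (k : Fin n) :
    I k ∈ σ := by
  by_contra h1
  have h2 : cont I (I k) = 0 := by rw [h, ind_apply, if_neg h1]
  rw [cont_apply, Finset.card_eq_zero, Finset.filter_eq_empty_iff] at h2
  exact h2 (Finset.mem_univ k) rfl

lemma cont_inj {n : ℕ} (I : Fin n → V) (σ : Finset V) (h : cont I = ind σ) :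
    Function.Injective I := by
  intro a b hab
  by_contra hne
  have h2 : cont I (I b) ≤ 1 := by
    rw [h, ind_apply]
    split_ifs <;> omega
  rw [cont_apply, Finset.card_le_one] at h2
  exact hne (h2 a (by simp [hab]) b (by simp))

lemma cont_surj' {n : ℕ} (I : Fin n → V) (σ : Finset V) (h : cont I = ind σ) (v : V)
    (hv : v ∈ σ) : ∃ k, I k = v := by
  have h2 : cont I v = 1 := by rw [h, ind_apply, if_pos hv]
  rw [cont_apply] at h2
  obtain ⟨k, hk⟩ := Finset.card_pos.1 (by omega : 0 < (Finset.univ.filter fun k => I k = v).card)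
  exact ⟨k, (Finset.mem_filter.1 hk).2⟩

lemma cont_of_inj {n : ℕ} (I : Fin n → V) (hI : Function.Injective I) (σ : Finset V)
    (h : ∀ k, I k ∈ σ) (hc : σ.card = n) : cont I = ind σ := by
  have h1 : Finset.univ.image I = σ := by
    refine Finset.eq_of_subset_of_card_le ?_ ?_
    · intro x hx
      obtain ⟨k, _, rfl⟩ := Finset.mem_image.1 hx
      exact h k
    · rw [Finset.card_image_of_injective _ hI, Finset.card_univ, Fintype.card_fin, hc]
  unfold cont ind
  rw [← h1, Finset.sum_image fun a _ b _ hab => hI hab]

/-- the determinant is the permanent -/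
lemma perm_det [CharP K 2] (p : V → (Fin d → K)) (I : Fin d → V) (σ : Finset V)
    (h : cont I = ind σ) : (Matrix.of fun j k => p (I j) k).det = perm p σ := by
  classical
  rw [Matrix.det_apply]
  have hI := cont_inj I σ h
  have h1 : ∀ π : Equiv.Perm (Fin d), Equiv.Perm.sign π •
      ∏ i, (Matrix.of fun j k => p (I j) k) (π i) i = wgt p (fun k => I (π k)) := by
    intro π
    unfold wgt
    rcases Int.units_eq_one_or (Equiv.Perm.sign π) with h2 | h2
    · rw [h2, one_smul]; rfl
    · rw [h2, Units.smul_def, Units.val_neg, Units.val_one, neg_one_zsmul, CharTwo.neg_eq]; rfl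
  rw [Finset.sum_congr rfl fun π _ => h1 π]
  unfold perm
  refine Finset.sum_bij (fun π _ => fun k => I (π k)) ?_ ?_ ?_ ?_
  · intro π _
    rw [Finset.mem_filter]
    refine ⟨Finset.mem_univ _, ?_⟩
    rw [← h]
    unfold cont
    exact Equiv.sum_comp π (fun k => Finsupp.single (I k) 1)
  · intro π _ π' _ h2
    ext k
    have := congrFun h2 k
    exact congrArg Fin.val (hI this)
  · intro I' hI'
    rw [Finset.mem_filter] at hI'
    have hI'' := cont_inj I' σ hI'.2
    have h2 : ∀ k, ∃ j, I j = I' k := fun k => cont_surj' I σ h _ (cont_mem I' σ hI'.2 k)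
    choose g hg using h2
    have hginj : Function.Injective g := by
      intro a b hab
      apply hI''
      rw [← hg a, ← hg b, hab]
    refine ⟨Equiv.ofBijective g (Finite.injective_iff_bijective.1 hginj), Finset.mem_univ _, ?_⟩
    funext k
    exact hg k
  · intro π _
    rfl

end perms

section stress
variable {V : Type} [Fintype V] [LinearOrder V] {K : Type} [Field K]

open Classical in
/-- the top stress -/
noncomputable def topl {d : ℕ} (Γ : Cx V) (p : V → (Fin d → K)) (F : Finset V) : K :=
  if F ∈ Γ.faces ∧ F.card = d then (perm p F)⁻¹ else 0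

lemma cons_ind {n : ℕ} (J : Fin n → V) (ρ : Finset V) (hJ : cont J = ind ρ) (x : V) (hx : x ∉ ρ) :
    cont (Fin.cons x J : Fin (n + 1) → V) = ind (insert x ρ) := by
  rw [cont_cons, hJ, ind_insert ρ x hx, add_comm]

theorem topl_St [CharP K 2] {n : ℕ} (Γ : Cx V) (p : V → (Fin (n + 1) → K))
    (φ : Finset V → V → Module.Dual K (Fin (n + 1) → K)) (hφ : Coord Γ p φ)
    (hperm : ∀ F ∈ Γ.faces, F.card = n + 1 → perm p F ≠ 0)
    (heven : ∀ ρ ∈ Γ.faces, ρ.card = n → Even (ρᶜ.filter fun x => insert x ρ ∈ Γ.faces).card) :
    topl Γ p ∈ St Γ p (n + 1) := by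
  classical
  refine ⟨fun σ hσ => ?_, fun ρ hρ => ?_⟩
  · unfold topl at hσ
    by_contra h
    rw [if_neg h] at hσ
    exact hσ rfl
  · by_cases hc : ρ.card = n
    · by_cases hex : ∃ x0, x0 ∉ ρ ∧ insert x0 ρ ∈ Γ.faces
      · obtain ⟨x0, hx0, hF⟩ := hex
        let J : Fin n → V := fun j => ((Finset.equivFinOfCardEq hc).symm j : V)
        have hJinj : Function.Injective J :=
          Subtype.val_injective.comp (Finset.equivFinOfCardEq hc).symm.injective
        have hJmem : ∀ j, J j ∈ ρ := fun j => ((Finset.equivFinOfCardEq hc).symm j).2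
        have hJ := cont_of_inj J hJinj ρ hJmem hc
        let ψ : (Fin (n + 1) → K) →ₗ[K] K :=
          { toFun := fun u => Matrix.detRowAlternating.curryLeft u (fun j => p (J j))
            map_add' := fun a b => by rw [map_add]; rfl
            map_smul' := fun r a => by rw [map_smul]; rfl }
        have hψ1 : ∀ x, x ∉ ρ → ψ (p x) = perm p (insert x ρ) := by
          intro x hx
          rw [← perm_det p _ _ (cons_ind J ρ hJ x hx)]
          show Matrix.det (Matrix.vecCons (p x) fun j => p (J j)) = _
          congr 1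
          ext j k
          rw [Matrix.of_apply]
          refine Fin.cases ?_ (fun i => ?_) j
          · rfl
          · rfl
        have hψ2 : ∀ y, y ∈ ρ → ψ (p y) = 0 := by
          intro y hy
          obtain ⟨j, hj⟩ := cont_surj' J ρ hJ y hy
          show Matrix.det (Matrix.vecCons (p y) fun j => p (J j)) = 0
          refine Matrix.det_zero_of_row_eq (i := 0) (j := j.succ) (Fin.succ_ne_zero j).symm ?_
          show p y = p (J j)
          rw [hj]
        have hcF : (insert x0 ρ).card = n + 1 := by
          rw [Finset.card_insert_of_notMem hx0, hc]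
        have hw : ψ (∑ x ∈ ρᶜ, topl Γ p (insert x ρ) • p x) = 0 := by
          rw [map_sum]
          have h1 : ∀ x ∈ ρᶜ, ψ (topl Γ p (insert x ρ) • p x) =
              if insert x ρ ∈ Γ.faces then 1 else 0 := by
            intro x hx
            have hx' := Finset.mem_compl.1 hx
            rw [map_smul, hψ1 x hx', smul_eq_mul]
            unfold topl
            by_cases h2 : insert x ρ ∈ Γ.faces
            · have h3 : (insert x ρ).card = n + 1 := by
                rw [Finset.card_insert_of_notMem hx', hc]
              rw [if_pos ⟨h2, h3⟩, if_pos h2, inv_mul_cancel₀ (hperm _ h2 h3)]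
            · rw [if_neg fun h3 => h2 h3.1, if_neg h2, zero_mul]
          rw [Finset.sum_congr rfl h1, ← Finset.sum_filter, Finset.sum_const, nsmul_eq_mul, mul_one]
          obtain ⟨k, hk⟩ := heven ρ hρ hc
          rw [hk, Nat.cast_add]
          exact CharTwo.add_self_eq_zero _
        generalize (∑ x ∈ ρᶜ, topl Γ p (insert x ρ) • p x) = w at hw ⊢
        have hex := expand hφ (insert x0 ρ) hF w
          (by rw [span_top hφ _ hF hcF]; trivial)
        rw [Finset.sum_insert hx0] at hex
        have h2 : φ (insert x0 ρ) x0 w = 0 := by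
          have h3 := congrArg ψ hex
          rw [hw, map_add, map_smul, hψ1 x0 hx0, map_sum, Finset.sum_eq_zero, add_zero,
            smul_eq_mul] at h3
          · exact (mul_eq_zero.1 h3).resolve_right (hperm _ hF hcF)
          · intro y hy
            rw [map_smul, hψ2 y hy, smul_zero]
        rw [h2, zero_smul, zero_add] at hex
        rw [← hex]
        exact Submodule.sum_mem _ fun y hy => Submodule.smul_mem _ _
          (Submodule.subset_span ⟨y, hy, rfl⟩)
      · push Not at hex
        rw [Finset.sum_eq_zero]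
        · exact Submodule.zero_mem _
        · intro x hx
          unfold topl
          rw [if_neg fun h => hex x (Finset.mem_compl.1 hx) h.1, zero_smul]
    · rw [Finset.sum_eq_zero]
      · exact Submodule.zero_mem _
      · intro x hx
        unfold topl
        rw [if_neg, zero_smul]
        rintro ⟨_, h2⟩
        rw [Finset.card_insert_of_notMem (Finset.mem_compl.1 hx)] at h2
        exact hc (by omega)

end stress

section concrete
variable {V : Type} [Fintype V] [LinearOrder V] {K : Type} [Field K] {d : ℕ}

/-- coordinates exist -/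
lemma coord_of_gen (Γ : Cx V) (q : Option V → (Fin d → K))
    (hq : ∀ o : Fin d → Option V, Function.Injective o →
      (Matrix.of fun j k => q (o j) k).det ≠ 0)
    (hU : d ≤ Fintype.card V) (hsmall : ∀ σ ∈ Γ.faces, σ.card ≤ d) :
    Dual (fun σ => σ ∈ Γ.faces) (fun v => q (some v)) := by
  classical
  intro σ hσ hc v hv
  obtain ⟨f, h1, h2⟩ := dual_of_set q hq (by rw [Fintype.card_option]; omega)
    (σ.map Function.Embedding.some) (by rw [Finset.card_map]; exact hsmall σ hσ) (some v)
    (Finset.mem_map.2 ⟨v, hv, rfl⟩)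
  refine ⟨f, h1, fun x hx hxv => h2 (some x) (Finset.mem_map.2 ⟨x, hx, rfl⟩) ?_⟩
  intro h3
  exact hxv (Option.some_injective _ h3)

lemma nz_of_gen (Γ : Cx V) (q : Option V → (Fin d → K))
    (hq : ∀ o : Fin d → Option V, Function.Injective o →
      (Matrix.of fun j k => q (o j) k).det ≠ 0)
    (hU : d ≤ Fintype.card V)
    (φ : Finset V → V → Module.Dual K (Fin d → K)) (hφ : Coord Γ (fun v => q (some v)) φ) :
    Nz Γ φ (q none) := by
  classical
  intro F hF hc v hv h0
  have hcard : (insert none ((F.erase v).map Function.Embedding.some)).card = d := by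
    rw [Finset.card_insert_of_notMem, Finset.card_map, Finset.card_erase_of_mem hv, hc]
    · have := Finset.card_pos.2 ⟨v, hv⟩
      omega
    · intro h
      obtain ⟨x, _, hx⟩ := Finset.mem_map.1 h
      exact absurd hx (by simp)
  obtain ⟨f, h1, h2⟩ := dual_of_set q hq (by rw [Fintype.card_option]; omega)
    (insert none ((F.erase v).map Function.Embedding.some)) (by rw [hcard]) none
    (Finset.mem_insert_self _ _)
  have h3 := expand hφ F hF (q none) (by rw [span_top hφ F hF hc]; trivial)
  have h4 := congrArg f h3
  rw [h1, map_sum, Finset.sum_eq_zero] at h4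
  · exact zero_ne_one h4
  · intro x hx
    rw [map_smul]
    by_cases hxv : x = v
    · rw [hxv, h0, zero_smul]
    · rw [h2 (some x) _ (by simp), smul_zero]
      exact Finset.mem_insert_of_mem (Finset.mem_map.2 ⟨x, Finset.mem_erase.2 ⟨hxv, hx⟩, rfl⟩)

lemma perm_of_gen [CharP K 2] (q : Option V → (Fin d → K))
    (hq : ∀ o : Fin d → Option V, Function.Injective o →
      (Matrix.of fun j k => q (o j) k).det ≠ 0)
    (F : Finset V) (hc : F.card = d) : perm (fun v => q (some v)) F ≠ 0 := by
  have hinj : Function.Injective (fun j => ((Finset.equivFinOfCardEq hc).symm j : V)) :=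
    Subtype.val_injective.comp (Finset.equivFinOfCardEq hc).symm.injective
  rw [← perm_det (fun v => q (some v)) (fun j => ((Finset.equivFinOfCardEq hc).symm j : V)) F
    (cont_of_inj _ hinj F (fun j => ((Finset.equivFinOfCardEq hc).symm j).2) hc)]
  exact hq (fun j => some ((Finset.equivFinOfCardEq hc).symm j : V))
    ((Option.some_injective _).comp hinj)

end concrete

end Pool.Agent.H252R2.Lef6
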