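import Pool.Agent.H252R2.Lef6
import Pool.Agent.H252R2.CDNum
import Pool.Agent.Helper611.UNum

set_option autoImplicit false
set_option linter.unusedSectionVars false
set_option linter.unnecessarySimpa false

/-! The generalized lower bound inequality for combinatorially defined homology spheres. -/

namespace Pool.Agent.H252R2.Lef7

open ExteriorAlgebra Pool.Agent.Helper611 Pool.Agent.Helper611.ZBase Pool.Agent.Helper611.KRel
  Pool.Agent.Helper611.KVal Pool.Agent.Helper611.UStr Pool.Agent.Helper611.UVal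
  Pool.Agent.H252R2.Lef1 Pool.Agent.H252R2.Lef3 Pool.Agent.H252R2.Lef4 Pool.Agent.H252R2.CDNum

section dims
variable {V : Type} [Fintype V] [LinearOrder V] {K : Type} [Field K] {d : ℕ}
variable {p : V → (Fin d → K)} {Γ : Cx V} {φ : Finset V → V → Module.Dual K (Fin d → K)}

lemma St_le (hφ : Coord Γ p φ) (s : ℕ) :
    Module.finrank K (St Γ p s) ≤ Module.finrank K (ZZ (fun σ => σ ∈ Γ.faces) p s s) := by
  have := CC_fin (V := V) (K := K) (d := d)
  have h1 : ∀ l ∈ St Γ p s, Phi p l ∈ ZZ (fun σ => σ ∈ Γ.faces) p s s :=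
    fun l hl => Phi_ZZ hφ s l hl
  refine LinearMap.finrank_le_finrank_of_injective (f := (Phi p).restrict h1) ?_
  rw [← LinearMap.ker_eq_bot, LinearMap.ker_eq_bot']
  intro l hl
  apply Subtype.ext
  funext σ
  have h2 : Phi p l.1 σ = 0 := congrFun (congrArg Subtype.val hl) σ
  rw [Phi_apply] at h2
  show l.1 σ = 0
  by_contra h3
  have h4 := (l.2.1 σ h3).1
  rcases smul_eq_zero.1 h2 with h5 | h5
  · exact h3 h5
  · exact eps_ne p hφ σ h4 h5

lemma St_ge (hφ : Coord Γ p φ) (s : ℕ) :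
    Module.finrank K (ZZ (fun σ => σ ∈ Γ.faces) p s s) ≤ Module.finrank K (St Γ p s) := by
  have := CC_fin (V := V) (K := K) (d := d)
  exact (Submodule.finrank_mono (ZZ_le hφ s)).trans (Submodule.finrank_map_le _ _)

end dims

/-- face numbers; `fnum Γ k` is the number of faces with `k` vertices -/
def fnum {V : Type} (Γ : Cx V) (k : ℕ) : ℤ := ((Γ.faces.filter fun F => F.card = k).card : ℤ)

lemma sum_hn (d : ℕ) (f : ℕ → ℤ) : ∑ t ∈ Finset.range (d + 1), hn d f t = f d := by
  have h1 := fp_eq d f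
  have h2 := congrArg (fun P : Polynomial ℤ => P.coeff d) h1
  unfold fp at h2
  rw [Polynomial.finsetSum_coeff, Polynomial.finsetSum_coeff, Finset.sum_eq_single d] at h2
  · rw [Polynomial.coeff_smul, Polynomial.coeff_X_pow_self, smul_eq_mul, mul_one] at h2
    rw [h2]
    refine Finset.sum_congr rfl fun t ht => ?_
    have ht' := Finset.mem_range.1 ht
    rw [Polynomial.coeff_smul, mul_comm (Polynomial.X ^ t), Polynomial.coeff_mul_X_pow',
      if_pos (by omega), Polynomial.coeff_one_add_X_pow, Nat.choose_self, smul_eq_mul,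
      Nat.cast_one, mul_one]
  · intro b _ hb
    rw [Polynomial.coeff_smul, Polynomial.coeff_X_pow, if_neg (Ne.symm hb), smul_zero]
  · intro h
    exact absurd (Finset.mem_range.2 (by omega)) h

section final
variable {V : Type} [Fintype V] [LinearOrder V]

/-- the dimension of the stresses is the h-number -/
lemma St_hn {K : Type} [Field K] {d : ℕ} (Γ : Cx V) (p : V → (Fin d → K))
    (φ : Finset V → V → Module.Dual K (Fin d → K)) (hφ : Coord Γ p φ)
    (hdual : Dual (fun σ => σ ∈ Γ.faces) p)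
    (hacy : ∀ (τ : Finset V) (k s : ℕ), k < d →
      AcyP (fun σ => σ ∈ Γ.faces) (⋀[K]^s (Fin d → K)) τ k) (t : ℕ) (ht : t ≤ d) :
    (Module.finrank K (St Γ p t) : ℤ) = hn d (fnum Γ) t := by
  classical
  have hP : Cvx (fun σ => σ ∈ Γ.faces) := fun _ ρ π _ h2 _ h4 => Γ.down π h4 ρ h2
  have h1 := acyV_main (fun σ => σ ∈ Γ.faces) hP p d frk hdual hacy (d - t) t (by omega)
  have h2 := euler (fun σ => σ ∈ Γ.faces) hP p d t frk ht hdual
    (fun k hk => h1 Finset.univ ∅ k hk) t le_rfl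
  have h3 : Module.finrank K (St Γ p t) =
      Module.finrank K (ZZ (fun σ => σ ∈ Γ.faces) p t t) := le_antisymm (St_le hφ t) (St_ge hφ t)
  rw [h3, h2]
  unfold hn
  refine Finset.sum_congr rfl fun j _ => ?_
  congr 1
  unfold fnum
  congr 2
  ext σ
  simp

theorem glbt (Γ : Cx V) (d : ℕ) (hd : 1 ≤ d) (hsmall : ∀ σ ∈ Γ.faces, σ.card ≤ d)
    (B : Finset V) (hBd : B.card = d)
    (hacy : ∀ (K : Type) [Field K] (τ : Finset V) (k s : ℕ), k < d →
      AcyP (fun σ => σ ∈ Γ.faces) (⋀[K]^s (Fin d → K)) τ k)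
    (heven : ∀ ρ ∈ Γ.faces, ρ.card + 1 = d →
      Even (ρᶜ.filter fun x => insert x ρ ∈ Γ.faces).card)
    (hsym : ∀ s, s ≤ d → hn d (fnum Γ) s = hn d (fnum Γ) (d - s)) (hd1 : hn d (fnum Γ) d = 1)
    (a : ℕ) (ha : 2 * a + 1 ≤ d) : hn d (fnum Γ) a ≤ hn d (fnum Γ) (a + 1) := by
  classical
  have hU : d ≤ Fintype.card V := by
    rw [← hBd]
    exact Finset.card_le_univ B
  let q := Lef5.gq V d
  have hq := Lef5.gdet V d
  have hdual : Dual (fun σ => σ ∈ Γ.faces) (fun v => q (some v)) :=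
    Lef6.coord_of_gen Γ q hq hU hsmall
  obtain ⟨φ, hφ⟩ := UNum.exists_coord Γ (fun v => q (some v)) hsmall hdual
  have hz := Lef6.nz_of_gen Γ q hq hU φ hφ
  have hh := St_hn Γ (fun v => q (some v)) φ hφ hdual
    (hacy (Lef5.KK V d))
  have hl : Lef6.topl Γ (fun v => q (some v)) ∈ St Γ (fun v => q (some v)) d := by
    obtain ⟨n, rfl⟩ : ∃ n, d = n + 1 := ⟨d - 1, by omega⟩
    exact Lef6.topl_St Γ _ φ hφ (fun F _ hc => Lef6.perm_of_gen q hq F hc)
      (fun ρ hρ hc => heven ρ hρ (by omega))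
  have hl0 : ∀ F ∈ Γ.faces, F.card = d →
      Lef6.topl Γ (fun v => q (some v)) F * perm (fun v => q (some v)) F = 1 := by
    intro F hF hc
    unfold Lef6.topl
    rw [if_pos ⟨hF, hc⟩, inv_mul_cancel₀ (Lef6.perm_of_gen q hq F hc)]
  have hcardF : (Fintype.card (Fc Γ d) : ℤ) = fnum Γ d := by
    unfold fnum Fc
    rw [Fintype.card_subtype]
    congr 2
    ext σ
    simp
  have key := glbt_alg hφ hz (fun t => Module.finrank (Lef5.KK V d)
    (St Γ (fun v => q (some v)) t)) (fun t _ => le_rfl) ?_ ?_ ?_ _ hl hl0 (Lef5.gb V d)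
    (Lef5.gen V d) a ha
  · have h1 := hh a (by omega)
    have h2 := hh (a + 1) (by omega)
    rw [← h1, ← h2]
    exact_mod_cast key
  · have h1 := sum_hn d (fnum Γ)
    rw [← hcardF] at h1
    have h2 : ∑ t ∈ Finset.range (d + 1), hn d (fnum Γ) t =
        ∑ t ∈ Finset.range (d + 1), (Module.finrank (Lef5.KK V d)
          (St Γ (fun v => q (some v)) t) : ℤ) :=
      Finset.sum_congr rfl fun t ht => (hh t (by have := Finset.mem_range.1 ht; omega)).symm
    rw [h2] at h1
    exact_mod_cast h1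
  · intro t ht
    have h1 := hsym t ht
    rw [← hh t ht, ← hh (d - t) (by omega)] at h1
    exact_mod_cast h1
  · have h1 := hd1
    rw [← hh d le_rfl] at h1
    exact_mod_cast h1

end final

end Pool.Agent.H252R2.Lef7
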