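import Pool.Agent.Helper611.ZBase

set_option autoImplicit false
set_option linter.unusedSectionVars false
set_option linter.unnecessarySimpa false

/-! Deletions in triangulated spheres are acyclic. -/

namespace Pool.Agent.H252R2.Top1

open Pool.Agent.Helper611.ZBase

section contract
variable {V : Type} [Fintype V] [LinearOrder V]

/-- contractible complexes are acyclic -/
lemma acy_contract (Δ : Cx V) (G : (V → ℝ) × ℝ → (V → ℝ))
    (hG : ContinuousOn G (realization Δ ×ˢ Set.Icc (0 : ℝ) 1))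
    (hm : ∀ p ∈ realization Δ ×ˢ Set.Icc (0 : ℝ) 1, G p ∈ realization Δ)
    (h0 : ∀ u ∈ realization Δ, G (u, 0) = u) (c : V → ℝ) (hc : c ∈ realization Δ)
    (h1 : ∀ u ∈ realization Δ, G (u, 1) = c) (k : ℕ) : Acy Δ ℤ ∅ k := by
  classical
  obtain ⟨hz0, hz1, ρ, hρ, hρ0⟩ := hc
  obtain ⟨v0, hv0⟩ : ∃ v, c v ≠ 0 := by
    by_contra hcon
    push Not at hcon
    rw [Finset.sum_eq_zero fun v _ => hcon v] at hz1
    exact zero_ne_one hz1
  have hv0f : {v0} ∈ Δ.faces := by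
    refine Δ.down ρ hρ _ ?_
    rw [Finset.singleton_subset_iff]
    by_contra hcon
    exact hv0 (hρ0 v0 hcon)
  rcases Nat.eq_zero_or_pos k with rfl | hk
  · exact acy_zero Δ v0 hv0f
  have hxn : ∀ v, 0 ≤ (Pi.single v0 1 : V → ℝ) v := by
    intro v
    by_cases hv : v = v0
    · rw [hv, Pi.single_eq_same]; exact zero_le_one
    · rw [Pi.single_eq_of_ne hv]
  obtain ⟨δ, hδ, Ψ, hΨ, hΨc⟩ := sel Δ (Pi.single v0 1) hxn (by simp) v0 (by simp) G hG hm ∅ 1
    one_pos (fun p hp => absurd hp (Set.notMem_empty p))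
  have hsub : ∀ σ ∈ Δ.faces, cell σ ×ˢ Set.Icc (0 : ℝ) 1 ⊆ realization Δ ×ˢ Set.Icc (0 : ℝ) 1 :=
    fun σ hσ => Set.prod_mono (cell_sub Δ σ hσ) (Set.Subset.refl _)
  refine acy_global Δ δ hδ Ψ ?_ ?_ (Ψ (c, 1)) ?_ k hk
  · intro σ hσ l hl
    by_cases hl0 : l = []
    · rw [hl0]; exact Δ.empty_mem
    · obtain ⟨q, hq⟩ := List.exists_mem_of_ne_nil l hl0
      have hqX := hsub σ hσ (hl.1 q hq)
      obtain ⟨_, _, ρ, hρ, hρ0⟩ := hm q hqX
      refine Δ.down ρ hρ _ ?_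
      intro v hv
      obtain ⟨p, hp, rfl⟩ := List.mem_map.1 (List.mem_toFinset.1 hv)
      have h1 := (hΨ p q (hsub σ hσ (hl.1 p hp)) hqX (hl.2 p hp q hq)).1
      by_contra h2
      rw [hρ0 _ h2] at h1
      exact lt_irrefl _ h1
  · intro σ hσ l hl v hv
    obtain ⟨p, hp, rfl⟩ := List.mem_map.1 (List.mem_toFinset.1 hv)
    have hpm := hl.1 p hp
    have hpX : p ∈ realization Δ ×ˢ Set.Icc (0 : ℝ) 1 := by
      refine ⟨cell_sub Δ σ hσ hpm.1, ?_⟩
      rw [Set.mem_singleton_iff.1 hpm.2]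
      exact ⟨le_rfl, zero_le_one⟩
    have h1 := (hΨ p p hpX hpX (by rw [dist_self]; exact hδ)).1
    have h2 : G p = p.1 := by
      have h3 : p = (p.1, 0) := Prod.ext rfl (Set.mem_singleton_iff.1 hpm.2)
      conv_lhs => rw [h3]
      exact h0 _ (cell_sub Δ σ hσ hpm.1)
    rw [h2] at h1
    by_contra h4
    rw [hpm.1.2.2 _ h4] at h1
    exact lt_irrefl _ h1
  · intro σ hσ p hp
    apply hΨc
    have h3 : p = (p.1, 1) := Prod.ext rfl (Set.mem_singleton_iff.1 hp.2)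
    rw [h3, h1 _ (cell_sub Δ σ hσ hp.1), h1 c ⟨hz0, hz1, ρ, hρ, hρ0⟩]

lemma homeo_data (Δ : Cx V) (n : ℕ) (S : Set (EuclideanSpace ℝ (Fin n)))
    (φ : realization Δ ≃ₜ S) :
    ∃ (f : (V → ℝ) → EuclideanSpace ℝ (Fin n)) (e : EuclideanSpace ℝ (Fin n) → (V → ℝ)),
      Continuous f ∧ ContinuousOn e S ∧
      (∀ u ∈ realization Δ, f u ∈ S) ∧
      (∀ w ∈ S, e w ∈ realization Δ) ∧
      (∀ u ∈ realization Δ, e (f u) = u) ∧
      (∀ w ∈ S, f (e w) = w) := by
  classical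
  have hcl : IsClosed (realization Δ) := (realization_compact Δ).isClosed
  let g : C(realization Δ, EuclideanSpace ℝ (Fin n)) :=
    ⟨fun u => (φ u).1, continuous_subtype_val.comp φ.continuous⟩
  obtain ⟨F, hF⟩ := ContinuousMap.exists_restrict_eq hcl g
  have hFu : ∀ u (hu : u ∈ realization Δ), F u = (φ ⟨u, hu⟩).1 := by
    intro u hu
    have := congrArg (fun G : C(realization Δ, EuclideanSpace ℝ (Fin n)) => G ⟨u, hu⟩) hF
    exact this
  let e : EuclideanSpace ℝ (Fin n) → (V → ℝ) := fun w =>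
    if hw : w ∈ S then (φ.symm ⟨w, hw⟩).1 else 0
  have he : ∀ w (hw : w ∈ S), e w = (φ.symm ⟨w, hw⟩).1 := fun w hw => dif_pos hw
  refine ⟨F, e, F.continuous, ?_, ?_, ?_, ?_, ?_⟩
  · rw [continuousOn_iff_continuous_domRestrict]
    have : S.domRestrict e = fun w => (φ.symm w).1 := by
      funext w
      exact he w.1 w.2
    rw [this]
    exact continuous_subtype_val.comp φ.symm.continuous
  · intro u hu
    rw [hFu u hu]
    exact (φ ⟨u, hu⟩).2
  · intro w hw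
    rw [he w hw]
    exact (φ.symm ⟨w, hw⟩).2
  · intro u hu
    have h1 : F u ∈ S := by
      rw [hFu u hu]
      exact (φ ⟨u, hu⟩).2
    rw [he _ h1]
    have h2 : (⟨F u, h1⟩ : S) = φ ⟨u, hu⟩ := Subtype.ext (hFu u hu)
    rw [h2, φ.symm_apply_apply]
  · intro w hw
    have h1 : e w ∈ realization Δ := by
      rw [he w hw]
      exact (φ.symm ⟨w, hw⟩).2
    rw [hFu _ h1]
    have h2 : (⟨e w, h1⟩ : realization Δ) = φ.symm ⟨w, hw⟩ := Subtype.ext (he w hw)
    rw [h2, φ.apply_symm_apply]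

end contract

section deletion
variable {V : Type} [Fintype V] [LinearOrder V]

/-- the faces not containing `τ` -/
def Del (Δ : Cx V) (τ : Finset V) (hne : τ.Nonempty) : Cx V where
  faces := Δ.faces.filter fun σ => ¬ τ ⊆ σ
  empty_mem := by
    rw [Finset.mem_filter]
    refine ⟨Δ.empty_mem, fun h => ?_⟩
    obtain ⟨v, hv⟩ := hne
    exact Finset.notMem_empty v (h hv)
  down := by
    intro σ hσ ρ hρ
    rw [Finset.mem_filter] at hσ ⊢
    exact ⟨Δ.down σ hσ.1 ρ hρ, fun h => hσ.2 (h.trans hρ)⟩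

lemma mem_Del (Δ : Cx V) (τ : Finset V) (hne : τ.Nonempty) (σ : Finset V) :
    σ ∈ (Del Δ τ hne).faces ↔ σ ∈ Δ.faces ∧ ¬ τ ⊆ σ := by
  unfold Del
  rw [Finset.mem_filter]

lemma Del_sub (Δ : Cx V) (τ : Finset V) (hne : τ.Nonempty) :
    realization (Del Δ τ hne) ⊆ realization Δ := by
  rintro x ⟨h1, h2, σ, hσ, h3⟩
  exact ⟨h1, h2, σ, ((mem_Del Δ τ hne σ).1 hσ).1, h3⟩

/-- the minimal coordinate on `τ` -/
noncomputable def mc (τ : Finset V) (hne : τ.Nonempty) (y : V → ℝ) : ℝ := τ.inf' hne y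

lemma mc_cont (τ : Finset V) (hne : τ.Nonempty) : Continuous (mc τ hne) := by
  unfold mc
  exact Continuous.finset_inf'_apply hne fun v _ => continuous_apply v

lemma mc_le (τ : Finset V) (hne : τ.Nonempty) (y : V → ℝ) (v : V) (hv : v ∈ τ) :
    mc τ hne y ≤ y v := Finset.inf'_le y hv

lemma mc_eq (τ : Finset V) (hne : τ.Nonempty) (y : V → ℝ) : ∃ v ∈ τ, mc τ hne y = y v :=
  Finset.exists_mem_eq_inf' hne y

/-- the barycenter -/
noncomputable def bary (τ : Finset V) (v : V) : ℝ := if v ∈ τ then (τ.card : ℝ)⁻¹ else 0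

/-- the retraction -/
noncomputable def rr (τ : Finset V) (hne : τ.Nonempty) (y : V → ℝ) (v : V) : ℝ :=
  (1 - mc τ hne y * τ.card)⁻¹ * (y v - if v ∈ τ then mc τ hne y else 0)

lemma mc_nonneg (Δ : Cx V) (τ : Finset V) (hne : τ.Nonempty) (y : V → ℝ) (hy : y ∈ realization Δ) :
    0 ≤ mc τ hne y := by
  obtain ⟨v, _, hv⟩ := mc_eq τ hne y
  rw [hv]
  exact hy.1 v

lemma mc_lt (Δ : Cx V) (τ : Finset V) (hne : τ.Nonempty) (y : V → ℝ) (hy : y ∈ realization Δ)
    (hb : y ≠ bary τ) : mc τ hne y * τ.card < 1 := by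
  by_contra hcon
  push Not at hcon
  apply hb
  have h1 : ∑ v ∈ τ, mc τ hne y ≤ ∑ v ∈ τ, y v := Finset.sum_le_sum fun v hv => mc_le τ hne y v hv
  have h2 : ∑ v ∈ τ, y v ≤ ∑ v, y v :=
    Finset.sum_le_sum_of_subset_of_nonneg (Finset.subset_univ _) fun v _ _ => hy.1 v
  rw [hy.2.1] at h2
  have h3 : ∑ v ∈ τ, mc τ hne y = mc τ hne y * τ.card := by
    rw [Finset.sum_const, nsmul_eq_mul, mul_comm]
  have h4 : ∑ v ∈ τ, y v = 1 := by linarith
  have h5 : mc τ hne y * τ.card = 1 := by linarith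
  have h6 : ∀ v ∈ τ, mc τ hne y = y v :=
    (Finset.sum_eq_sum_iff_of_le fun v hv => mc_le τ hne y v hv).1 (by linarith)
  have hc : (τ.card : ℝ) ≠ 0 := by
    have := Finset.card_pos.2 hne
    positivity
  have h7 : ∑ v ∈ τᶜ, y v = 0 := by
    have := Finset.sum_add_sum_compl τ y
    rw [hy.2.1, h4] at this
    linarith
  have h8 := (Finset.sum_eq_zero_iff_of_nonneg fun v _ => hy.1 v).1 h7
  funext v
  unfold bary
  by_cases hv : v ∈ τ
  · rw [if_pos hv, ← h6 v hv]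
    field_simp
    linarith
  · rw [if_neg hv]
    exact h8 v (Finset.mem_compl.2 hv)

lemma rr_mem (Δ : Cx V) (τ : Finset V) (hne : τ.Nonempty) (y : V → ℝ) (hy : y ∈ realization Δ)
    (hb : y ≠ bary τ) : rr τ hne y ∈ realization (Del Δ τ hne) := by
  have h1 := mc_lt Δ τ hne y hy hb
  have h2 := mc_nonneg Δ τ hne y hy
  have h3 : 0 < (1 - mc τ hne y * τ.card)⁻¹ := inv_pos.2 (by linarith)
  refine ⟨fun v => ?_, ?_, ?_⟩
  · unfold rr
    refine mul_nonneg h3.le ?_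
    by_cases hv : v ∈ τ
    · rw [if_pos hv]
      have := mc_le τ hne y v hv
      linarith
    · rw [if_neg hv, sub_zero]
      exact hy.1 v
  · unfold rr
    rw [← Finset.mul_sum, Finset.sum_sub_distrib, hy.2.1, Finset.sum_ite_mem, Finset.univ_inter,
      Finset.sum_const, nsmul_eq_mul, mul_comm (τ.card : ℝ)]
    exact inv_mul_cancel₀ (by linarith)
  · obtain ⟨σ, hσ, h4⟩ := hy.2.2
    obtain ⟨v0, hv0, hm⟩ := mc_eq τ hne y
    refine ⟨σ.erase v0, ?_, fun v hv => ?_⟩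
    · rw [mem_Del]
      refine ⟨Δ.down σ hσ _ (Finset.erase_subset _ _), fun h => ?_⟩
      exact Finset.notMem_erase v0 σ (h hv0)
    · unfold rr
      have h5 : (y v - if v ∈ τ then mc τ hne y else 0) = 0 := by
        by_cases hvv : v = v0
        · rw [hvv, if_pos hv0, hm, sub_self]
        · have h6 : v ∉ σ := fun h => hv (Finset.mem_erase.2 ⟨hvv, h⟩)
          rw [h4 v h6]
          by_cases hvτ : v ∈ τ
          · rw [if_pos hvτ]
            have h7 := mc_le τ hne y v hvτ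
            rw [h4 v h6] at h7
            linarith
          · rw [if_neg hvτ, sub_zero]
      rw [h5, mul_zero]

lemma rr_fix (Δ : Cx V) (τ : Finset V) (hne : τ.Nonempty) (y : V → ℝ)
    (hy : y ∈ realization (Del Δ τ hne)) : rr τ hne y = y := by
  obtain ⟨h1, h2, σ, hσ, h3⟩ := hy
  obtain ⟨_, h5⟩ := (mem_Del Δ τ hne σ).1 hσ
  obtain ⟨v, hv, hvσ⟩ := Finset.not_subset.1 h5
  have h6 : mc τ hne y = 0 := by
    refine le_antisymm ?_ ?_
    · have := mc_le τ hne y v hv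
      rwa [h3 v hvσ] at this
    · obtain ⟨w, _, hw⟩ := mc_eq τ hne y
      rw [hw]
      exact h1 w
  funext w
  unfold rr
  rw [h6]
  simp

lemma rr_cont (Δ : Cx V) (τ : Finset V) (hne : τ.Nonempty) :
    ContinuousOn (rr τ hne) {y | y ∈ realization Δ ∧ y ≠ bary τ} := by
  rw [continuousOn_pi]
  intro v
  unfold rr
  have h1 : Continuous fun y : V → ℝ => (1 - mc τ hne y * τ.card) :=
    continuous_const.sub ((mc_cont τ hne).mul continuous_const)
  have h2 : Continuous fun y : V → ℝ => (y v - if v ∈ τ then mc τ hne y else 0) := by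
    by_cases hv : v ∈ τ
    · simp only [if_pos hv]
      exact (continuous_apply v).sub (mc_cont τ hne)
    · simp only [if_neg hv]
      exact (continuous_apply v).sub continuous_const
  refine ContinuousOn.mul (ContinuousOn.inv₀ h1.continuousOn ?_) h2.continuousOn
  rintro y ⟨hy, hb⟩
  have := mc_lt Δ τ hne y hy hb
  linarith

lemma bary_mem (Δ : Cx V) (τ : Finset V) (hτ : τ ∈ Δ.faces) (hne : τ.Nonempty) :
    bary τ ∈ realization Δ := by
  have hc : (τ.card : ℝ) ≠ 0 := by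
    have := Finset.card_pos.2 hne
    positivity
  refine ⟨fun v => ?_, ?_, τ, hτ, fun v hv => ?_⟩
  · unfold bary
    by_cases hv : v ∈ τ
    · rw [if_pos hv]; positivity
    · rw [if_neg hv]
  · unfold bary
    rw [Finset.sum_ite_mem, Finset.univ_inter, Finset.sum_const, nsmul_eq_mul, mul_inv_cancel₀ hc]
  · unfold bary
    rw [if_neg hv]

lemma ne_bary (Δ : Cx V) (τ : Finset V) (hne : τ.Nonempty) (y : V → ℝ)
    (hy : y ∈ realization (Del Δ τ hne)) : y ≠ bary τ := by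
  obtain ⟨_, _, σ, hσ, h3⟩ := hy
  obtain ⟨_, h5⟩ := (mem_Del Δ τ hne σ).1 hσ
  obtain ⟨v, hv, hvσ⟩ := Finset.not_subset.1 h5
  intro h
  have h6 := h3 v hvσ
  rw [h] at h6
  unfold bary at h6
  rw [if_pos hv] at h6
  have hc : (τ.card : ℝ) ≠ 0 := by
    have := Finset.card_pos.2 hne
    positivity
  exact inv_ne_zero hc h6

/-- the contraction of the punctured sphere -/
noncomputable def Hs {n : ℕ} (q : EuclideanSpace ℝ (Fin n)) (w : EuclideanSpace ℝ (Fin n)) (t : ℝ) :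
    EuclideanSpace ℝ (Fin n) := ‖(1 - t) • w - t • q‖⁻¹ • ((1 - t) • w - t • q)

lemma Hs_ne {n : ℕ} (q w : EuclideanSpace ℝ (Fin n)) (hq : ‖q‖ = 1) (hw : ‖w‖ = 1) (hwq : w ≠ q)
    (t : ℝ) (h0 : 0 ≤ t) (h1 : t ≤ 1) : (1 - t) • w - t • q ≠ 0 := by
  intro h
  have h2 : (1 - t) • w = t • q := sub_eq_zero.1 h
  have h3 := congrArg norm h2
  rw [norm_smul, norm_smul, hq, hw, mul_one, mul_one, Real.norm_eq_abs, Real.norm_eq_abs,
    abs_of_nonneg (by linarith), abs_of_nonneg h0] at h3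
  have h4 : t = 1 / 2 := by linarith
  have h6 : t • q = (1 - t) • q := by rw [h3]
  rw [h6] at h2
  apply hwq
  have h5 : (1 - t) ≠ 0 := by rw [h4]; norm_num
  exact smul_right_injective _ h5 h2

lemma Hs_norm {n : ℕ} (q w : EuclideanSpace ℝ (Fin n)) (hq : ‖q‖ = 1) (hw : ‖w‖ = 1) (hwq : w ≠ q)
    (t : ℝ) (h0 : 0 ≤ t) (h1 : t ≤ 1) : ‖Hs q w t‖ = 1 := by
  unfold Hs
  have h2 := Hs_ne q w hq hw hwq t h0 h1
  rw [norm_smul, norm_inv, norm_norm, inv_mul_cancel₀ (norm_ne_zero_iff.2 h2)]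

lemma Hs_avoid {n : ℕ} (q w : EuclideanSpace ℝ (Fin n)) (hq : ‖q‖ = 1) (hw : ‖w‖ = 1)
    (hwq : w ≠ q) (t : ℝ) (h0 : 0 ≤ t) (h1 : t ≤ 1) : Hs q w t ≠ q := by
  intro h
  unfold Hs at h
  have h2 := Hs_ne q w hq hw hwq t h0 h1
  have h3 : 0 < ‖(1 - t) • w - t • q‖ := norm_pos_iff.2 h2
  set c := ‖(1 - t) • w - t • q‖ with hc
  have h4 : (1 - t) • w - t • q = c • q := by
    have := congrArg (fun z => c • z) h
    simp only [smul_smul, mul_inv_cancel₀ h3.ne', one_smul] at this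
    exact this
  have h5 : (1 - t) • w = (c + t) • q := by
    rw [add_smul, ← h4]; abel
  have h6 := congrArg norm h5
  rw [norm_smul, norm_smul, hq, hw, mul_one, mul_one, Real.norm_eq_abs, Real.norm_eq_abs,
    abs_of_nonneg (by linarith), abs_of_nonneg (by linarith)] at h6
  rw [← h6] at h5
  apply hwq
  exact smul_right_injective _ (by linarith : (1 - t) ≠ 0) h5

theorem del_acyclic (Δ : Cx V) (d : ℕ)
    (h : Nonempty (realization Δ ≃ₜ Metric.sphere (0 : EuclideanSpace ℝ (Fin d)) 1))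
    (τ : Finset V) (hτ : τ ∈ Δ.faces) (hne : τ.Nonempty) (k : ℕ) :
    Acy (Del Δ τ hne) ℤ ∅ k := by
  obtain ⟨φ⟩ := h
  obtain ⟨f, e, hf, he, hfS, heX, hef, hfe⟩ := homeo_data Δ d _ φ
  have hfS' : ∀ u ∈ realization Δ, ‖f u‖ = 1 := fun u hu => by simpa using hfS u hu
  have hbm := bary_mem Δ τ hτ hne
  have hq : ‖f (bary τ)‖ = 1 := hfS' _ hbm
  set q := f (bary τ) with hqdef
  have hfq : ∀ u ∈ realization (Del Δ τ hne), f u ≠ q := by
    intro u hu h2
    apply ne_bary Δ τ hne u hu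
    have h3 := hef u (Del_sub Δ τ hne hu)
    rw [h2, hqdef, hef _ hbm] at h3
    exact h3.symm
  have hHS : ∀ u ∈ realization (Del Δ τ hne), ∀ t ∈ Set.Icc (0 : ℝ) 1,
      Hs q (f u) t ∈ Metric.sphere (0 : EuclideanSpace ℝ (Fin d)) 1 := by
    intro u hu t ht
    rw [mem_sphere_zero_iff_norm]
    exact Hs_norm q _ hq (hfS' u (Del_sub Δ τ hne hu)) (hfq u hu) t ht.1 ht.2
  have heb : ∀ u ∈ realization (Del Δ τ hne), ∀ t ∈ Set.Icc (0 : ℝ) 1,
      e (Hs q (f u) t) ≠ bary τ := by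
    intro u hu t ht h2
    have h3 := hfe _ (hHS u hu t ht)
    rw [h2] at h3
    exact Hs_avoid q _ hq (hfS' u (Del_sub Δ τ hne hu)) (hfq u hu) t ht.1 ht.2 h3.symm
  have hH0 : ∀ u ∈ realization (Del Δ τ hne), Hs q (f u) 0 = f u := by
    intro u hu
    unfold Hs
    rw [sub_zero, one_smul, zero_smul, sub_zero, hfS' u (Del_sub Δ τ hne hu), inv_one, one_smul]
  have hH1 : ∀ w, Hs q w 1 = -q := by
    intro w
    unfold Hs
    rw [sub_self, zero_smul, one_smul, zero_sub, norm_neg, hq, inv_one, one_smul]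
  -- a point of the deletion
  have hnegS : -q ∈ Metric.sphere (0 : EuclideanSpace ℝ (Fin d)) 1 := by
    rw [mem_sphere_zero_iff_norm, norm_neg, hq]
  have hnegq : e (-q) ≠ bary τ := by
    intro h2
    have h3 := hfe _ hnegS
    rw [h2, ← hqdef] at h3
    have h4 : q = 0 := by
      have h5 : (2 : ℝ) • q = 0 := by
        rw [two_smul]
        nth_rewrite 2 [h3]
        exact add_neg_cancel q
      exact (smul_eq_zero.1 h5).resolve_left two_ne_zero
    rw [h4, norm_zero] at hq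
    exact zero_ne_one hq
  refine acy_contract (Del Δ τ hne) (fun p => rr τ hne (e (Hs q (f p.1) p.2))) ?_ ?_ ?_
    (rr τ hne (e (-q))) (rr_mem Δ τ hne _ (heX _ hnegS) hnegq) ?_ k
  · refine (rr_cont Δ τ hne).comp (t := {y | y ∈ realization Δ ∧ y ≠ bary τ})
      (f := fun p : (V → ℝ) × ℝ => e (Hs q (f p.1) p.2)) ?_ ?_
    · refine he.comp (t := Metric.sphere (0 : EuclideanSpace ℝ (Fin d)) 1)
        (f := fun p : (V → ℝ) × ℝ => Hs q (f p.1) p.2) ?_ ?_
      · unfold Hs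
        have h2 : Continuous fun p : (V → ℝ) × ℝ => (1 - p.2) • f p.1 - p.2 • q :=
          ((continuous_const.sub continuous_snd).smul (hf.comp continuous_fst)).sub
            (continuous_snd.smul continuous_const)
        refine ContinuousOn.smul (ContinuousOn.inv₀ h2.norm.continuousOn ?_) h2.continuousOn
        rintro p ⟨hp1, hp2⟩
        exact norm_ne_zero_iff.2 (Hs_ne q _ hq (hfS' _ (Del_sub Δ τ hne hp1)) (hfq _ hp1) p.2
          hp2.1 hp2.2)
      · rintro p ⟨hp1, hp2⟩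
        exact hHS _ hp1 _ hp2
    · rintro p ⟨hp1, hp2⟩
      exact ⟨heX _ (hHS _ hp1 _ hp2), heb _ hp1 _ hp2⟩
  · rintro p ⟨hp1, hp2⟩
    exact rr_mem Δ τ hne _ (heX _ (hHS _ hp1 _ hp2)) (heb _ hp1 _ hp2)
  · intro u hu
    show rr τ hne (e (Hs q (f u) 0)) = u
    rw [hH0 u hu, hef u (Del_sub Δ τ hne hu), rr_fix Δ τ hne u hu]
  · intro u _
    show rr τ hne (e (Hs q (f u) 1)) = _
    rw [hH1]

end deletion

end Pool.Agent.H252R2.Top1
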