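import Pool.Agent.H252R2.Top1
import Pool.Agent.H252R2.Lef7

set_option autoImplicit false
set_option linter.unusedSectionVars false
set_option linter.unnecessarySimpa false

/-! Combinatorial consequences of the acyclicity of deletions. -/

namespace Pool.Agent.H252R2.Top2

open Pool.Agent.Helper611 Pool.Agent.Helper611.ZBase Pool.Agent.Helper611.KRel
  Pool.Agent.Helper611.KDim Pool.Agent.H252R2.Top1 Pool.Agent.H252R2.Lef7
  Pool.Agent.H252R2.CDNum

section exact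
variable {V : Type} [Fintype V] [LinearOrder V]

/-- all deletions are acyclic and there is a facet with `d` vertices -/
structure Hyp (Δ : Cx V) (d : ℕ) : Prop where
  small : ∀ σ ∈ Δ.faces, σ.card ≤ d
  facet : ∃ F ∈ Δ.faces, F.card = d
  acy : ∀ (τ : Finset V) (hne : τ.Nonempty), τ ∈ Δ.faces → ∀ k, Acy (Del Δ τ hne) ℤ ∅ k

variable {Δ : Cx V} {d : ℕ}

lemma Hyp.acyM (h : Hyp Δ d) {M : Type*} [AddCommGroup M] (τ : Finset V) (hne : τ.Nonempty)
    (hτ : τ ∈ Δ.faces) (k : ℕ) : Acy (Del Δ τ hne) M ∅ k :=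
  acy_change (R := ℤ) (Del Δ τ hne) ∅ k (fun k' _ => h.acy τ hne hτ k') k le_rfl

lemma acy_empty (h : Hyp Δ d) (hd : 1 ≤ d) {M : Type*} [AddCommGroup M] (k : ℕ) (hk : k < d) :
    Acy Δ M ∅ k := by
  obtain ⟨F, hF, hFd⟩ := h.facet
  have hne : F.Nonempty := Finset.card_pos.1 (by omega)
  intro c hc hd0
  obtain ⟨b, hb, hb2⟩ := h.acyM (M := M) F hne hF k c (fun σ hσ => by
    obtain ⟨h1, h2, h3⟩ := hc σ hσ
    refine ⟨(mem_Del Δ F hne σ).2 ⟨h1, fun h4 => ?_⟩, h2, h3⟩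
    have := Finset.card_le_card h4
    omega) hd0
  exact ⟨b, fun σ hσ => ⟨((mem_Del Δ F hne σ).1 (hb σ hσ).1).1, (hb σ hσ).2⟩, hb2⟩

lemma acy_all (h : Hyp Δ d) (hd : 1 ≤ d) {M : Type*} [AddCommGroup M] (τ : Finset V) (k : ℕ)
    (hk : k < d) : Acy Δ M τ k := by
  classical
  rcases Finset.eq_empty_or_nonempty τ with rfl | hne
  · exact acy_empty h hd k hk
  by_cases hτ : τ ∈ Δ.faces
  swap
  · exact acy_trivial Δ τ k fun σ hσ h1 _ => hτ (Δ.down σ hσ _ h1)
  rcases Nat.eq_zero_or_pos k with rfl | hk0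
  · refine acy_trivial Δ τ 0 fun σ _ h1 h2 => ?_
    have h3 := Finset.card_le_card h1
    have h4 := Finset.card_pos.2 hne
    omega
  obtain ⟨k', rfl⟩ : ∃ k', k = k' + 1 := ⟨k - 1, by omega⟩
  intro c hc hd0
  obtain ⟨b', hb', hb'2⟩ := h.acyM (M := M) τ hne hτ k' (bd c) (fun ρ hρ => by
    unfold bd at hρ
    obtain ⟨x, hx, hx2⟩ := Finset.exists_ne_zero_of_sum_ne_zero hρ
    have h1 : c (insert x ρ) ≠ 0 := fun h0 => hx2 (by rw [h0, smul_zero])
    obtain ⟨h2, h3, h4⟩ := hc _ h1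
    rw [Finset.card_insert_of_notMem (Finset.mem_compl.1 hx)] at h4
    refine ⟨(mem_Del Δ τ hne ρ).2 ⟨Δ.down _ h2 _ (Finset.subset_insert _ _), fun h5 => ?_⟩,
      Finset.empty_subset _, by omega⟩
    apply hρ
    exact hd0 ρ h5) (fun ρ _ => bd_bd c ρ)
  obtain ⟨e, he, he2⟩ := acy_empty h hd (M := M) (k' + 1) hk (c - b') (fun σ hσ => by
    by_cases h1 : c σ = 0
    · have h2 : b' σ ≠ 0 := fun h3 => hσ (by rw [Pi.sub_apply, h1, h3, sub_zero])
      obtain ⟨h4, h5, h6⟩ := hb' σ h2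
      exact ⟨((mem_Del Δ τ hne σ).1 h4).1, h5, h6⟩
    · obtain ⟨h4, h5, h6⟩ := hc σ h1
      exact ⟨h4, Finset.empty_subset _, h6⟩) (fun ρ hρ => by
    rw [bd_sub, hb'2 ρ hρ, sub_self])
  refine ⟨fun σ => if τ ⊆ σ then e σ else 0, fun σ hσ => ?_, fun ρ hρ => ?_⟩
  · by_cases h1 : τ ⊆ σ
    · simp only [if_pos h1] at hσ
      obtain ⟨h4, h5, h6⟩ := he σ hσ
      exact ⟨h4, h1, h6⟩
    · simp only [if_neg h1] at hσ
      exact absurd rfl hσ
  · have h1 : bd (fun σ => if τ ⊆ σ then e σ else 0) ρ = bd e ρ :=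
      bd_congr _ _ _ fun σ hσ => if_pos (hρ.trans hσ)
    rw [h1, he2 ρ (Finset.empty_subset _), Pi.sub_apply]
    have h2 : b' ρ = 0 := by
      by_contra h3
      exact ((mem_Del Δ τ hne ρ).1 (hb' ρ h3).1).2 hρ
    rw [h2, sub_zero]

end exact

section euler
variable {V : Type} [Fintype V] [LinearOrder V]

/-- the Euler characteristic of an acyclic complex vanishes -/
lemma chi_acyclic (Γ : Cx V) (h : ∀ k, Acy Γ ℚ ∅ k) :
    ∑ σ ∈ Γ.faces, (-1 : ℤ) ^ σ.card = 0 := by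
  classical
  have h1 : ∀ k, ZS ℚ Γ k = BS ℚ Γ k := by
    intro k
    refine le_antisymm ?_ (UNum.BS_le Γ k)
    rintro c ⟨hc, hc2⟩
    obtain ⟨b, hb, hb2⟩ := h k c (fun σ hσ => ⟨(hc σ hσ).1, Finset.empty_subset _, (hc σ hσ).2⟩)
      (fun ρ _ => congrFun hc2 ρ)
    exact ⟨b, fun σ hσ => ⟨(hb σ hσ).1, (hb σ hσ).2.2⟩,
      funext fun ρ => hb2 ρ (Finset.empty_subset _)⟩
  have h2 : ∀ s, chi ℚ Γ s = 0 := by
    intro s
    induction s with
    | zero => rw [chi_zero, h1, sub_self]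
    | succ s ih => rw [chi_step, ih, h1, sub_self, sub_zero]
  have h3 := h2 (Fintype.card V)
  have h4 : Module.finrank ℚ (BS ℚ Γ (Fintype.card V)) = 0 := by
    have h5 := CS_step ℚ Γ (Fintype.card V)
    have h6 : Module.finrank ℚ (CS ℚ Γ (Fintype.card V + 1)) = 0 := by
      rw [CS_finrank, Finset.card_eq_zero, Finset.filter_eq_empty_iff]
      intro σ _ h7
      have := Finset.card_le_univ σ
      omega
    omega
  unfold chi at h3
  rw [h4, Nat.cast_zero, sub_zero] at h3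
  have h5 : ∀ σ ∈ Γ.faces, σ.card ∈ Finset.range (Fintype.card V + 1) := fun σ _ =>
    Finset.mem_range.2 (Nat.lt_succ_of_le (Finset.card_le_univ σ))
  rw [← Finset.sum_fiberwise_of_maps_to h5]
  have h6 : ∀ j ∈ Finset.range (Fintype.card V + 1),
      ∑ σ ∈ Γ.faces.filter (fun σ => σ.card = j), (-1 : ℤ) ^ σ.card =
      (-1) ^ Fintype.card V * ((-1 : ℤ) ^ (Fintype.card V - j) *
        ((Γ.faces.filter fun σ => σ.card = j).card : ℤ)) := by
    intro j hj
    have hj' := Finset.mem_range.1 hj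
    have h7 : ∀ σ ∈ Γ.faces.filter (fun σ => σ.card = j), (-1 : ℤ) ^ σ.card = (-1) ^ j :=
      fun σ hσ => by rw [(Finset.mem_filter.1 hσ).2]
    rw [Finset.sum_congr rfl h7, Finset.sum_const, nsmul_eq_mul, ← mul_assoc, mul_comm]
    congr 1
    have h8 : Fintype.card V = Fintype.card V - j + j := by omega
    conv_rhs => rw [h8]
    rw [Nat.add_sub_cancel, pow_add, mul_right_comm, ← pow_add, ← two_mul, pow_mul]
    simp
  rw [Finset.sum_congr rfl h6, ← Finset.mul_sum, h3, mul_zero]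

variable {Δ : Cx V} {d : ℕ}

lemma euler_all (h : Hyp Δ d) (hd : 1 ≤ d) (τ : Finset V) (hτ : τ ∈ Δ.faces) :
    ∑ σ ∈ Δ.faces.filter (fun σ => τ ⊆ σ), (-1 : ℤ) ^ σ.card = (-1) ^ d := by
  classical
  have h1 : ∀ τ : Finset V, τ.Nonempty → τ ∈ Δ.faces →
      ∑ σ ∈ Δ.faces.filter (fun σ => τ ⊆ σ), (-1 : ℤ) ^ σ.card =
        ∑ σ ∈ Δ.faces, (-1 : ℤ) ^ σ.card := by
    intro τ hne hτ
    have h2 := chi_acyclic (Del Δ τ hne) fun k => h.acyM τ hne hτ k
    rw [← Finset.sum_filter_add_sum_filter_not Δ.faces (fun σ => τ ⊆ σ)]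
    have h3 : (Del Δ τ hne).faces = Δ.faces.filter fun σ => ¬ τ ⊆ σ := rfl
    rw [h3] at h2
    rw [h2, add_zero]
  obtain ⟨F, hF, hFd⟩ := h.facet
  have hne : F.Nonempty := Finset.card_pos.1 (by omega)
  have h2 := h1 F hne hF
  have h3 : Δ.faces.filter (fun σ => F ⊆ σ) = {F} := by
    ext σ
    rw [Finset.mem_filter, Finset.mem_singleton]
    constructor
    · rintro ⟨h4, h5⟩
      exact (Finset.eq_of_subset_of_card_le h5 (by rw [hFd]; exact h.small σ h4)).symm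
    · rintro rfl
      exact ⟨hF, Finset.Subset.refl _⟩
  rw [h3, Finset.sum_singleton, hFd] at h2
  rcases Finset.eq_empty_or_nonempty τ with rfl | hτne
  · rw [Finset.filter_true_of_mem fun σ _ => Finset.empty_subset σ, h2]
  · rw [h1 τ hτne hτ, h2]

lemma ridge (h : Hyp Δ d) (ρ : Finset V) (hρ : ρ ∈ Δ.faces) (hc : ρ.card + 1 = d) :
    Even (ρᶜ.filter fun x => insert x ρ ∈ Δ.faces).card := by
  classical
  have h1 := euler_all h (by omega) ρ hρ
  have h2 : Δ.faces.filter (fun σ => ρ ⊆ σ) =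
      insert ρ ((ρᶜ.filter fun x => insert x ρ ∈ Δ.faces).image fun x => insert x ρ) := by
    ext σ
    rw [Finset.mem_filter, Finset.mem_insert, Finset.mem_image]
    constructor
    · rintro ⟨h3, h4⟩
      by_cases h5 : σ = ρ
      · exact Or.inl h5
      · right
        have h6 := h.small σ h3
        have h7 : ρ ⊂ σ := lt_of_le_of_ne h4 (Ne.symm h5)
        obtain ⟨x, hx, hx2⟩ := Finset.exists_of_ssubset h7
        have h8 : insert x ρ = σ := by
          refine Finset.eq_of_subset_of_card_le (Finset.insert_subset hx h4) ?_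
          rw [Finset.card_insert_of_notMem hx2, hc]
          exact h6
        exact ⟨x, Finset.mem_filter.2 ⟨Finset.mem_compl.2 hx2, by rw [h8]; exact h3⟩, h8⟩
    · rintro (h3 | ⟨x, hx, rfl⟩)
      · rw [h3]
        exact ⟨hρ, Finset.Subset.refl _⟩
      · exact ⟨(Finset.mem_filter.1 hx).2, Finset.subset_insert _ _⟩
  have h3 : ρ ∉ (ρᶜ.filter fun x => insert x ρ ∈ Δ.faces).image fun x => insert x ρ := by
    intro h4
    obtain ⟨x, hx, hx2⟩ := Finset.mem_image.1 h4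
    have h5 := Finset.mem_compl.1 (Finset.mem_filter.1 hx).1
    exact h5 (hx2 ▸ Finset.mem_insert_self x ρ)
  rw [h2, Finset.sum_insert h3, Finset.sum_image] at h1
  · have h4 : ∀ x ∈ ρᶜ.filter (fun x => insert x ρ ∈ Δ.faces), (-1 : ℤ) ^ (insert x ρ).card =
        (-1) ^ d := by
      intro x hx
      have h5 := Finset.mem_compl.1 (Finset.mem_filter.1 hx).1
      rw [Finset.card_insert_of_notMem h5, hc]
    rw [Finset.sum_congr rfl h4, Finset.sum_const, nsmul_eq_mul, ← hc, pow_succ] at h1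
    have h6 : ((-1 : ℤ) ^ ρ.card) ≠ 0 := pow_ne_zero _ (by norm_num)
    have h7 : (-1 : ℤ) ^ ρ.card * (2 - ((ρᶜ.filter fun x => insert x ρ ∈ Δ.faces).card : ℤ)) = 0 := by
      linear_combination h1
    have h8 := (mul_eq_zero.1 h7).resolve_left h6
    have h9 : (ρᶜ.filter fun x => insert x ρ ∈ Δ.faces).card = 2 := by
      have : ((ρᶜ.filter fun x => insert x ρ ∈ Δ.faces).card : ℤ) = 2 := by linarith
      exact_mod_cast this
    rw [h9]
    exact even_two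
  · intro x hx y hy hxy
    have h5 := Finset.mem_compl.1 (Finset.mem_filter.1 hx).1
    have h6 : x ∈ insert y ρ := by
      have h7 : insert x ρ = insert y ρ := hxy
      rw [← h7]
      exact Finset.mem_insert_self _ _
    rcases Finset.mem_insert.1 h6 with h7 | h7
    · exact h7
    · exact absurd h7 h5

lemma ds (h : Hyp Δ d) (hd : 1 ≤ d) (j : ℕ) (hj : j ≤ d) :
    fnum Δ j = ∑ i ∈ Finset.range (d + 1), (-1 : ℤ) ^ (d - i) * (i.choose j : ℤ) * fnum Δ i := by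
  classical
  have h1 : fnum Δ j = ∑ τ ∈ Δ.faces.filter (fun τ => τ.card = j),
      (-1) ^ d * ∑ σ ∈ Δ.faces.filter (fun σ => τ ⊆ σ), (-1 : ℤ) ^ σ.card := by
    have h2 : ∀ τ ∈ Δ.faces.filter (fun τ => τ.card = j),
        (-1 : ℤ) ^ d * ∑ σ ∈ Δ.faces.filter (fun σ => τ ⊆ σ), (-1 : ℤ) ^ σ.card = 1 := by
      intro τ hτ
      rw [euler_all h hd τ (Finset.mem_filter.1 hτ).1, ← pow_add, ← two_mul, pow_mul]
      simp
    rw [Finset.sum_congr rfl h2, Finset.sum_const, nsmul_eq_mul, mul_one]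
    rfl
  rw [h1, ← Finset.mul_sum]
  have h2 : ∑ τ ∈ Δ.faces.filter (fun τ => τ.card = j),
      ∑ σ ∈ Δ.faces.filter (fun σ => τ ⊆ σ), (-1 : ℤ) ^ σ.card =
      ∑ σ ∈ Δ.faces, (-1 : ℤ) ^ σ.card * (σ.card.choose j : ℤ) := by
    have h3 : ∀ τ ∈ Δ.faces.filter (fun τ => τ.card = j),
        ∑ σ ∈ Δ.faces.filter (fun σ => τ ⊆ σ), (-1 : ℤ) ^ σ.card =
        ∑ σ ∈ Δ.faces, if τ ⊆ σ then (-1 : ℤ) ^ σ.card else 0 := fun τ _ => Finset.sum_filter _ _
    rw [Finset.sum_congr rfl h3, Finset.sum_comm]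
    refine Finset.sum_congr rfl fun σ hσ => ?_
    rw [← Finset.sum_filter, Finset.sum_const, nsmul_eq_mul, mul_comm]
    congr 2
    have h4 : (Δ.faces.filter (fun τ => τ.card = j)).filter (fun τ => τ ⊆ σ) =
        σ.powersetCard j := by
      ext τ
      rw [Finset.mem_filter, Finset.mem_filter, Finset.mem_powersetCard]
      constructor
      · rintro ⟨⟨_, h5⟩, h6⟩
        exact ⟨h6, h5⟩
      · rintro ⟨h6, h5⟩
        exact ⟨⟨Δ.down σ hσ τ h6, h5⟩, h6⟩
    rw [h4, Finset.card_powersetCard]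
  rw [h2]
  have h5 : ∀ σ ∈ Δ.faces, σ.card ∈ Finset.range (d + 1) := fun σ hσ =>
    Finset.mem_range.2 (Nat.lt_succ_of_le (h.small σ hσ))
  rw [← Finset.sum_fiberwise_of_maps_to h5, Finset.mul_sum]
  refine Finset.sum_congr rfl fun i hi => ?_
  have hi' := Finset.mem_range.1 hi
  have h6 : ∀ σ ∈ Δ.faces.filter (fun σ => σ.card = i),
      (-1 : ℤ) ^ σ.card * (σ.card.choose j : ℤ) = (-1) ^ i * (i.choose j : ℤ) := fun σ hσ => by
    rw [(Finset.mem_filter.1 hσ).2]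
  rw [Finset.sum_congr rfl h6, Finset.sum_const, nsmul_eq_mul]
  have h7 : (-1 : ℤ) ^ d * (-1) ^ i = (-1) ^ (d - i) := by
    have h8 : d = d - i + i := by omega
    conv_lhs => rw [h8]
    rw [pow_add, mul_assoc, ← pow_add, ← two_mul, pow_mul]
    simp
  rw [← h7]
  unfold fnum
  ring

lemma hsymm (h : Hyp Δ d) (hd : 1 ≤ d) (s : ℕ) (hs : s ≤ d) :
    hn d (fnum Δ) s = hn d (fnum Δ) (d - s) :=
  hn_symm d (fnum Δ) (fun j hj => ds h hd j hj) s hs

lemma hzero (Δ : Cx V) (d : ℕ) : hn d (fnum Δ) 0 = 1 := by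
  unfold hn
  rw [Finset.sum_range_one]
  have h1 : fnum Δ 0 = 1 := by
    unfold fnum
    have h3 : Δ.faces.filter (fun F => F.card = 0) = {∅} := by
      ext G
      rw [Finset.mem_filter, Finset.mem_singleton, Finset.card_eq_zero]
      exact ⟨fun h => h.2, fun h => ⟨h ▸ Δ.empty_mem, h⟩⟩
    rw [h3, Finset.card_singleton, Nat.cast_one]
  rw [h1]
  simp

theorem glbt_sphere (h : Hyp Δ d) (hd : 1 ≤ d) (a : ℕ) (ha : 2 * a + 1 ≤ d) :
    hn d (fnum Δ) a ≤ hn d (fnum Δ) (a + 1) := by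
  obtain ⟨F, hF, hFd⟩ := h.facet
  refine glbt Δ d hd h.small F hFd (fun K _ τ k s hk => ?_) (fun ρ hρ hc => ridge h ρ hρ hc)
    (fun s hs => hsymm h hd s hs) ?_ a ha
  · exact acyP_of_acy Δ τ k (acy_all h hd τ k hk)
  · have h1 := hsymm h hd d le_rfl
    rw [Nat.sub_self, hzero] at h1
    exact h1

end euler

end Pool.Agent.H252R2.Top2
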